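import Pool.Agent.Lib_helper8.Vu.Transversal

/-!
In a graph whose edges lie in at most `c` triangles, an internally not too sparse set `A` is
almost completely joined to sets of total size at most about `c`.
-/

set_option autoImplicit false

namespace Pool.Agent.Lib_helper8.Vu

open Finset

variable {V : Type*} [DecidableEq V] (G : SimpleGraph V) [DecidableRel G.Adj]

/-- Number of common neighbours of `u` and `v` inside `S`. -/
def cod (S : Finset V) (u v : V) : ℕ := (S.filter (fun w => G.Adj u w ∧ G.Adj v w)).card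

/-- Ordered adjacent pairs inside `A`. -/
def adjp (A : Finset V) : Finset (V × V) := (A ×ˢ A).filter (fun p => G.Adj p.1 p.2)

variable {G}

theorem cod_mono {S T : Finset V} (h : S ⊆ T) (u v : V) : cod G S u v ≤ cod G T u v :=
  card_le_card (filter_subset_filter _ h)

theorem adjp_mono {A B : Finset V} (h : A ⊆ B) : adjp G A ⊆ adjp G B :=
  filter_subset_filter _ (product_subset_product h h)

theorem sum_adj_comm (A B : Finset V) :
    ∑ a ∈ A, (B.filter (fun b => G.Adj a b)).card = ∑ b ∈ B, (A.filter (fun a => G.Adj a b)).card := by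
  simp_rw [card_filter]
  exact sum_comm

/-- Triangles over `A`, counted by their apex. -/
theorem sum_cod_adjp (S A : Finset V) :
    ∑ p ∈ adjp G A, cod G S p.1 p.2
      = ∑ v ∈ S, ((adjp G A).filter (fun p => G.Adj p.1 v ∧ G.Adj p.2 v)).card := by
  simp_rw [cod, card_filter]
  exact sum_comm

theorem apex_bound (A : Finset V) (v : V) :
    ((adjp G A).card : ℝ) - 2 * ((A.card : ℝ) * ((A.filter (fun a => ¬ G.Adj a v)).card : ℝ))
      ≤ (((adjp G A).filter (fun p => G.Adj p.1 v ∧ G.Adj p.2 v)).card : ℝ) := by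
  have h1 : adjp G A ⊆ ((adjp G A).filter (fun p => G.Adj p.1 v ∧ G.Adj p.2 v))
      ∪ (((A.filter (fun a => ¬ G.Adj a v)) ×ˢ A) ∪ (A ×ˢ (A.filter (fun a => ¬ G.Adj a v)))) := by
    intro p hp
    have hp' := hp
    rw [adjp, mem_filter, mem_product] at hp'
    rw [mem_union, mem_union]
    by_cases h2 : G.Adj p.1 v
    · by_cases h3 : G.Adj p.2 v
      · exact Or.inl (mem_filter.2 ⟨hp, h2, h3⟩)
      · exact Or.inr (Or.inr (mem_product.2 ⟨hp'.1.1, mem_filter.2 ⟨hp'.1.2, h3⟩⟩))
    · exact Or.inr (Or.inl (mem_product.2 ⟨mem_filter.2 ⟨hp'.1.1, h2⟩, hp'.1.2⟩))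
  have h2 := card_le_card h1
  have h3 := card_union_le ((adjp G A).filter (fun p => G.Adj p.1 v ∧ G.Adj p.2 v))
    (((A.filter (fun a => ¬ G.Adj a v)) ×ˢ A) ∪ (A ×ˢ (A.filter (fun a => ¬ G.Adj a v))))
  have h4 := card_union_le ((A.filter (fun a => ¬ G.Adj a v)) ×ˢ A)
    (A ×ˢ (A.filter (fun a => ¬ G.Adj a v)))
  rw [card_product, card_product] at h4
  have h5 : (adjp G A).card ≤ ((adjp G A).filter (fun p => G.Adj p.1 v ∧ G.Adj p.2 v)).card
      + ((A.filter (fun a => ¬ G.Adj a v)).card * A.card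
        + A.card * (A.filter (fun a => ¬ G.Adj a v)).card) := by omega
  have h6 : ((adjp G A).card : ℝ)
      ≤ (((adjp G A).filter (fun p => G.Adj p.1 v ∧ G.Adj p.2 v)).card : ℝ)
      + (((A.filter (fun a => ¬ G.Adj a v)).card : ℝ) * A.card
        + (A.card : ℝ) * (A.filter (fun a => ¬ G.Adj a v)).card) := by exact_mod_cast h5
  linarith

theorem dense_parts_bound (A : Finset V) (J : Finset (Finset V)) (S : Finset V) (m : ℕ) (η : ℝ)
    (hJS : ∀ B ∈ J, B ⊆ S)
    (hdisj : ∀ B ∈ J, ∀ B' ∈ J, B ≠ B' → Disjoint B B') (hm : ∀ B ∈ J, m ≤ B.card)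
    (hpos : 0 ≤ ((adjp G A).card : ℝ) - 4 * η * (A.card : ℝ) ^ 2)
    (hJ : ∀ B ∈ J, (1 - 2 * η) * ((A.card : ℝ) * (B.card : ℝ))
      ≤ ((∑ a ∈ A, (B.filter (fun b => G.Adj a b)).card : ℕ) : ℝ)) :
    (J.card : ℝ) * (m * (((adjp G A).card : ℝ) - 4 * η * (A.card : ℝ) ^ 2))
      ≤ ∑ p ∈ adjp G A, (cod G S p.1 p.2 : ℝ) := by
  have h0 : (∑ p ∈ adjp G A, (cod G S p.1 p.2 : ℝ))
      = ∑ v ∈ S, (((adjp G A).filter (fun p => G.Adj p.1 v ∧ G.Adj p.2 v)).card : ℝ) := by
    exact_mod_cast sum_cod_adjp (G := G) S A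
  rw [h0]
  have h1 : ∑ B ∈ J, ∑ v ∈ B, (((adjp G A).filter (fun p => G.Adj p.1 v ∧ G.Adj p.2 v)).card : ℝ)
      ≤ ∑ v ∈ S, (((adjp G A).filter (fun p => G.Adj p.1 v ∧ G.Adj p.2 v)).card : ℝ) := by
    have h2 := sum_biUnion (s := J) (t := id)
      (f := fun v => (((adjp G A).filter (fun p => G.Adj p.1 v ∧ G.Adj p.2 v)).card : ℝ))
      (fun B hB B' hB' hne => hdisj B hB B' hB' hne)
    simp only [id] at h2
    rw [← h2]
    apply sum_le_sum_of_subset_of_nonneg
    · intro v hv
      rw [mem_biUnion] at hv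
      obtain ⟨B, hB, hvB⟩ := hv
      exact hJS B hB hvB
    · intro v _ _
      positivity
  refine le_trans ?_ h1
  have h3 : ∀ B ∈ J, (m : ℝ) * (((adjp G A).card : ℝ) - 4 * η * (A.card : ℝ) ^ 2)
      ≤ ∑ v ∈ B, (((adjp G A).filter (fun p => G.Adj p.1 v ∧ G.Adj p.2 v)).card : ℝ) := by
    intro B hB
    have hJB := hJ B hB
    rw [sum_adj_comm A B] at hJB
    push_cast at hJB
    have h4 : ∑ v ∈ B, ((A.filter (fun a => ¬ G.Adj a v)).card : ℝ)
        ≤ 2 * η * ((A.card : ℝ) * (B.card : ℝ)) := by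
      have h5 : ∀ v ∈ B, ((A.filter (fun a => G.Adj a v)).card : ℝ)
          + ((A.filter (fun a => ¬ G.Adj a v)).card : ℝ) = (A.card : ℝ) := by
        intro v _
        exact_mod_cast card_filter_add_card_filter_not _
      have h6 : ∑ v ∈ B, ((A.filter (fun a => G.Adj a v)).card : ℝ)
          + ∑ v ∈ B, ((A.filter (fun a => ¬ G.Adj a v)).card : ℝ) = (B.card : ℝ) * (A.card : ℝ) := by
        rw [← sum_add_distrib, sum_congr rfl h5, sum_const, nsmul_eq_mul]
      linarith
    have h5 : ∑ v ∈ B, (((adjp G A).card : ℝ)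
        - 2 * ((A.card : ℝ) * ((A.filter (fun a => ¬ G.Adj a v)).card : ℝ)))
        ≤ ∑ v ∈ B, (((adjp G A).filter (fun p => G.Adj p.1 v ∧ G.Adj p.2 v)).card : ℝ) :=
      sum_le_sum fun v _ => apex_bound A v
    rw [sum_sub_distrib, sum_const, nsmul_eq_mul, ← mul_sum, ← mul_sum] at h5
    have h6 : (A.card : ℝ) * ∑ v ∈ B, ((A.filter (fun a => ¬ G.Adj a v)).card : ℝ)
        ≤ (A.card : ℝ) * (2 * η * ((A.card : ℝ) * (B.card : ℝ))) :=
      mul_le_mul_of_nonneg_left h4 (Nat.cast_nonneg _)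
    have h7 : (B.card : ℝ) * (((adjp G A).card : ℝ) - 4 * η * (A.card : ℝ) ^ 2)
        ≤ ∑ v ∈ B, (((adjp G A).filter (fun p => G.Adj p.1 v ∧ G.Adj p.2 v)).card : ℝ) := by
      refine le_trans ?_ h5
      have h8 : (B.card : ℝ) * (((adjp G A).card : ℝ) - 4 * η * (A.card : ℝ) ^ 2)
          = (B.card : ℝ) * ((adjp G A).card : ℝ)
            - 2 * ((A.card : ℝ) * (2 * η * ((A.card : ℝ) * (B.card : ℝ)))) := by ring
      rw [h8]
      linarith
    refine le_trans ?_ h7
    apply mul_le_mul_of_nonneg_right _ hpos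
    exact_mod_cast hm B hB
  have h7 := card_nsmul_le_sum J _ _ h3
  rwa [nsmul_eq_mul] at h7

/-- Sum of codegrees over adjacent pairs in `A`, when all but few adjacent pairs have codegree at
most `c`. -/
theorem sum_cod_le (A S : Finset V) (c w b : ℝ) (hc : 0 ≤ c) (hw : (S.card : ℝ) ≤ w)
    (hb : ((((adjp G A).filter (fun p => c < (cod G S p.1 p.2 : ℝ))).card : ℕ) : ℝ) ≤ b) :
    ∑ p ∈ adjp G A, (cod G S p.1 p.2 : ℝ) ≤ c * ((adjp G A).card : ℝ) + b * w := by
  have hw0 : 0 ≤ w := le_trans (Nat.cast_nonneg _) hw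
  have hcod : ∀ p : V × V, (cod G S p.1 p.2 : ℝ) ≤ w := by
    intro p
    refine le_trans ?_ hw
    exact_mod_cast card_le_card (filter_subset _ _)
  rw [← sum_filter_add_sum_filter_not (adjp G A) (fun p => c < (cod G S p.1 p.2 : ℝ))]
  have h1 : ∑ p ∈ (adjp G A).filter (fun p => c < (cod G S p.1 p.2 : ℝ)), (cod G S p.1 p.2 : ℝ)
      ≤ b * w := by
    have := sum_le_card_nsmul ((adjp G A).filter (fun p => c < (cod G S p.1 p.2 : ℝ)))
      (fun p => (cod G S p.1 p.2 : ℝ)) w (fun p _ => hcod p)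
    rw [nsmul_eq_mul] at this
    refine le_trans this ?_
    exact mul_le_mul_of_nonneg_right hb hw0
  have h2 : ∑ p ∈ (adjp G A).filter (fun p => ¬ c < (cod G S p.1 p.2 : ℝ)), (cod G S p.1 p.2 : ℝ)
      ≤ c * ((adjp G A).card : ℝ) := by
    have := sum_le_card_nsmul ((adjp G A).filter (fun p => ¬ c < (cod G S p.1 p.2 : ℝ)))
      (fun p => (cod G S p.1 p.2 : ℝ)) c (fun p hp => not_lt.1 (mem_filter.1 hp).2)
    rw [nsmul_eq_mul] at this
    refine le_trans this ?_
    rw [mul_comm]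
    apply mul_le_mul_of_nonneg_left _ hc
    exact_mod_cast card_le_card (filter_subset _ _)
  linarith

/-- Uniform pairs of density bounded away from one are not dense anywhere. -/
theorem notDense_of_isUniform {A B : Finset V} {ε η : ℝ} (hu : G.IsUniform ε A B)
    (hd : (G.edgeDensity A B : ℝ) ≤ 1 - 2 * η) (hεη : ε ≤ η) : NotDense G ε η A B := by
  intro A' hA' B' hB' h1 h2
  have h3 := hu hA' hB' (by rwa [mul_comm]) (by rwa [mul_comm])
  have h4 : (G.edgeDensity A' B' : ℝ) ≤ 1 - η := by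
    have := (abs_lt.1 h3).2
    linarith
  have h5 : (G.interedges A' B').card = ∑ a ∈ A', (B'.filter (fun b => G.Adj a b)).card := by
    rw [SimpleGraph.interedges_def, card_filter, sum_product]
    refine sum_congr rfl fun a _ => ?_
    rw [card_filter]
  rw [SimpleGraph.edgeDensity_def, h5] at h4
  push_cast at h4 ⊢
  rcases eq_or_lt_of_le (show (0 : ℝ) ≤ (A'.card : ℝ) * (B'.card : ℝ) by positivity) with h0 | h0
  · rw [← h0, mul_zero]
    have : ∑ a ∈ A', (B'.filter (fun b => G.Adj a b)).card = 0 := by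
      rcases mul_eq_zero.1 h0.symm with h | h
      · have hA0 : A' = ∅ := by
          rw [← card_eq_zero]
          exact_mod_cast h
        rw [hA0]
        simp
      · have hB0 : B' = ∅ := by
          rw [← card_eq_zero]
          exact_mod_cast h
        rw [hB0]
        simp
    have h6 : ((∑ a ∈ A', (B'.filter (fun b => G.Adj a b)).card : ℕ) : ℝ) = 0 := by
      rw [this]; simp
    push_cast at h6
    exact h6.le
  · rwa [div_le_iff₀ h0] at h4

theorem adjp_card (A : Finset V) :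
    (adjp G A).card = ∑ a ∈ A, (A.filter (fun b => G.Adj a b)).card := by
  rw [adjp, card_filter, sum_product]
  refine sum_congr rfl fun a _ => ?_
  rw [card_filter]

/-- A sparse set contains a large independent set. -/
theorem exists_indep (B : Finset V) (τ : ℝ) (hτ : 0 ≤ τ) (s : ℕ)
    (h : ((adjp G B).card : ℝ) ≤ τ * (B.card : ℝ) ^ 2)
    (hs : (s : ℝ) * (2 * τ * (B.card : ℝ) + 1) ≤ (B.card : ℝ) / 2) :
    ∃ I ⊆ B, I.card = s ∧ ∀ u ∈ I, ∀ v ∈ I, ¬ G.Adj u v := by
  have key : ∀ k ≤ s, ∃ I ⊆ B, ∃ B' ⊆ B, I.card = k ∧ (∀ u ∈ I, ∀ v ∈ I, ¬ G.Adj u v) ∧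
      (∀ u ∈ I, ∀ v ∈ B', u ≠ v ∧ ¬ G.Adj u v) ∧
      (B.card : ℝ) - k * (2 * τ * (B.card : ℝ) + 1) ≤ (B'.card : ℝ) := by
    intro k
    induction k with
    | zero =>
      intro _
      exact ⟨∅, empty_subset _, B, subset_refl _, by simp, by simp, by simp, by simp⟩
    | succ k ih =>
      intro hk
      obtain ⟨I, hI, B', hB', hc, h1, h2, h3⟩ := ih (by omega)
      have hD0 : 0 < 2 * τ * (B.card : ℝ) + 1 := by positivity
      have hk1 : ((k : ℝ) + 1) * (2 * τ * (B.card : ℝ) + 1) ≤ (B.card : ℝ) / 2 := by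
        refine le_trans ?_ hs
        apply mul_le_mul_of_nonneg_right _ hD0.le
        exact_mod_cast hk
      have hk2 : (k : ℝ) * (2 * τ * (B.card : ℝ) + 1) + (2 * τ * (B.card : ℝ) + 1)
          ≤ (B.card : ℝ) / 2 := by
        calc _ = ((k : ℝ) + 1) * (2 * τ * (B.card : ℝ) + 1) := by ring
          _ ≤ _ := hk1
      have hB'half : (B.card : ℝ) / 2 ≤ (B'.card : ℝ) := by linarith
      have hk0 : (0 : ℝ) ≤ (k : ℝ) * (2 * τ * (B.card : ℝ) + 1) := by positivity
      have hBpos : (0 : ℝ) < (B.card : ℝ) := by linarith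
      have hB'pos : (0 : ℝ) < (B'.card : ℝ) := by linarith
      have hB'ne : B'.Nonempty := by
        rw [← card_pos]
        exact_mod_cast hB'pos
      -- low degree vertex
      obtain ⟨v, hv, hdeg⟩ : ∃ v ∈ B', ((B'.filter (fun b => G.Adj v b)).card : ℝ)
          ≤ 2 * τ * (B.card : ℝ) := by
        by_contra hcon
        push Not at hcon
        have h4 : ∑ v ∈ B', (2 * τ * (B.card : ℝ))
            < ∑ v ∈ B', ((B'.filter (fun b => G.Adj v b)).card : ℝ) :=
          sum_lt_sum_of_nonempty hB'ne hcon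
        rw [sum_const, nsmul_eq_mul] at h4
        have h5 : ∑ v ∈ B', ((B'.filter (fun b => G.Adj v b)).card : ℝ)
            ≤ ((adjp G B).card : ℝ) := by
          have h6 := card_le_card (adjp_mono (G := G) hB')
          rw [adjp_card B'] at h6
          exact_mod_cast h6
        have h7 : τ * (B.card : ℝ) ^ 2 ≤ (B'.card : ℝ) * (2 * τ * (B.card : ℝ)) := by
          have : (B.card : ℝ) / 2 * (2 * τ * (B.card : ℝ)) ≤ (B'.card : ℝ) * (2 * τ * (B.card : ℝ)) :=
            mul_le_mul_of_nonneg_right hB'half (by positivity)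
          refine le_trans (le_of_eq ?_) this
          ring
        linarith
      refine ⟨insert v I, insert_subset (hB' hv) hI, (B'.filter (fun b => ¬ G.Adj v b)).erase v,
        ((erase_subset _ _).trans (filter_subset _ _)).trans hB', ?_, ?_, ?_, ?_⟩
      · rw [card_insert_of_notMem, hc]
        intro hvI
        exact (h2 v hvI v hv).1 rfl
      · intro a ha b hb
        rw [mem_insert] at ha hb
        rcases ha with rfl | ha <;> rcases hb with rfl | hb
        · exact G.irrefl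
        · intro hadj
          exact (h2 b hb a hv).2 hadj.symm
        · exact (h2 a ha b hv).2
        · exact h1 a ha b hb
      · intro a ha b hb
        rw [mem_erase, mem_filter] at hb
        rw [mem_insert] at ha
        rcases ha with rfl | ha
        · exact ⟨fun h => hb.1 h.symm, hb.2.2⟩
        · exact h2 a ha b hb.2.1
      · have h4 : ((B'.filter (fun b => G.Adj v b)).card : ℝ)
            + ((B'.filter (fun b => ¬ G.Adj v b)).card : ℝ) = (B'.card : ℝ) := by
          exact_mod_cast card_filter_add_card_filter_not _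
        have h5 : ((B'.filter (fun b => ¬ G.Adj v b)).card : ℝ)
            ≤ (((B'.filter (fun b => ¬ G.Adj v b)).erase v).card : ℝ) + 1 := by
          have h6 := pred_card_le_card_erase (s := B'.filter (fun b => ¬ G.Adj v b)) (a := v)
          have h7 : (B'.filter (fun b => ¬ G.Adj v b)).card
            ≤ ((B'.filter (fun b => ¬ G.Adj v b)).erase v).card + 1 := by omega
          exact_mod_cast h7
        push_cast
        linarith
  obtain ⟨I, hI, _, _, hc, h1, _, _⟩ := key s le_rfl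
  exact ⟨I, hI, hc, h1⟩

/-- Colouring an internally sparse set. -/
theorem sparse_col (A : Finset V) (γ : ℝ) (hγ : 0 ≤ γ) (s t0 : ℕ) (hs : 1 ≤ s) (ht0 : 1 ≤ t0)
    (hA : ((adjp G A).card : ℝ) ≤ γ * (A.card : ℝ) ^ 2)
    (hcond : (s : ℝ) * (2 * γ * (A.card : ℝ) ^ 2 / t0 + 1) ≤ (t0 : ℝ) / 2) :
    ∀ (n : ℕ) (B : Finset V), B.card = n → B ⊆ A → Col G B s (B.card / s + t0) := by
  intro n
  induction n using Nat.strong_induction_on with
  | _ n ih =>
    intro B hBn hBA
    by_cases hle : B.card ≤ t0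
    · exact Col.of_card_le hs (le_trans hle (Nat.le_add_left _ _))
    · push Not at hle
      have ht0R : (1 : ℝ) ≤ (t0 : ℝ) := by exact_mod_cast ht0
      have hleR : (t0 : ℝ) ≤ (B.card : ℝ) := by exact_mod_cast hle.le
      have hBpos : (0 : ℝ) < (B.card : ℝ) := by linarith
      have h1 : ((adjp G B).card : ℝ) ≤ (γ * (A.card : ℝ) ^ 2 / (B.card : ℝ) ^ 2) * (B.card : ℝ) ^ 2 := by
        rw [div_mul_cancel₀ _ (by positivity)]
        refine le_trans ?_ hA
        exact_mod_cast card_le_card (adjp_mono (G := G) hBA)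
      have h2 : (s : ℝ) * (2 * (γ * (A.card : ℝ) ^ 2 / (B.card : ℝ) ^ 2) * (B.card : ℝ) + 1)
          ≤ (B.card : ℝ) / 2 := by
        have h3 : 2 * (γ * (A.card : ℝ) ^ 2 / (B.card : ℝ) ^ 2) * (B.card : ℝ)
            = 2 * γ * (A.card : ℝ) ^ 2 / (B.card : ℝ) := by
          field_simp
        have h4 : 2 * γ * (A.card : ℝ) ^ 2 / (B.card : ℝ) ≤ 2 * γ * (A.card : ℝ) ^ 2 / t0 :=
          div_le_div_of_nonneg_left (by positivity) (by linarith) hleR
        rw [h3]
        have h5 : (s : ℝ) * (2 * γ * (A.card : ℝ) ^ 2 / (B.card : ℝ) + 1)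
            ≤ (s : ℝ) * (2 * γ * (A.card : ℝ) ^ 2 / t0 + 1) := by
          apply mul_le_mul_of_nonneg_left _ (Nat.cast_nonneg _)
          linarith
        linarith
      obtain ⟨I, hIB, hIs, hI⟩ := exists_indep B _ (by positivity) s h1 h2
      have hcI : Col G I s 1 := Col.indep hI hIs.le
      have hcard : (B \ I).card = B.card - s := by
        rw [card_sdiff_of_subset hIB, hIs]
      have hsB : s ≤ B.card := by
        rw [← hIs]
        exact card_le_card hIB
      have hrest := ih (B \ I).card (by omega) (B \ I) rfl (sdiff_subset.trans hBA)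
      refine (hcI.union hrest).mono ?_ le_rfl ?_
      · intro v hv
        rw [mem_union, mem_sdiff]
        by_cases hvI : v ∈ I
        · exact Or.inl hvI
        · exact Or.inr ⟨hv, hvI⟩
      · rw [hcard]
        have h3 : B.card / s = (B.card - s) / s + 1 := by
          rw [← Nat.add_div_right _ (show 0 < s by omega), Nat.sub_add_cancel hsB]
        omega

end Pool.Agent.Lib_helper8.Vu
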