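import Mathlib

/-!
Colourings of a finite vertex set with bounded colour classes, and greedy list colouring.
-/

set_option autoImplicit false

namespace Pool.Agent.Lib_helper8.Vu

open Finset

/-- `S` can be properly coloured with colours `< N` so that every colour class has size `≤ r`. -/
def Col {V : Type*} [DecidableEq V] (G : SimpleGraph V) (S : Finset V) (r N : ℕ) : Prop :=
  ∃ φ : V → ℕ, (∀ v ∈ S, φ v < N) ∧ (∀ u ∈ S, ∀ v ∈ S, G.Adj u v → φ u ≠ φ v) ∧
    ∀ i, (S.filter (fun v => φ v = i)).card ≤ r

section
variable {V : Type*} [DecidableEq V] {G : SimpleGraph V}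

theorem Col.mono {S T : Finset V} {r r' N N' : ℕ} (h : Col G S r N) (hT : T ⊆ S) (hr : r ≤ r')
    (hN : N ≤ N') : Col G T r' N' := by
  obtain ⟨φ, h1, h2, h3⟩ := h
  refine ⟨φ, fun v hv => lt_of_lt_of_le (h1 v (hT hv)) hN,
    fun u hu v hv => h2 u (hT hu) v (hT hv), fun i => ?_⟩
  exact le_trans (card_le_card (filter_subset_filter _ hT)) (le_trans (h3 i) hr)

theorem Col.empty (r N : ℕ) : Col G ∅ r N :=
  ⟨fun _ => 0, by simp, by simp, by simp⟩

theorem Col.union {S T : Finset V} {r N N' : ℕ} (h : Col G S r N) (h' : Col G T r N') :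
    Col G (S ∪ T) r (N + N') := by
  obtain ⟨φ, h1, h2, h3⟩ := h
  obtain ⟨ψ, k1, k2, k3⟩ := h'
  have hT : ∀ v, v ∈ S ∪ T → v ∉ S → v ∈ T := by
    intro v hv hv'
    rcases mem_union.1 hv with h | h
    · exact absurd h hv'
    · exact h
  refine ⟨fun v => if v ∈ S then φ v else N + ψ v, ?_, ?_, ?_⟩
  · intro v hv
    by_cases hvS : v ∈ S
    · simp only [hvS, if_true]
      exact lt_of_lt_of_le (h1 v hvS) (Nat.le_add_right _ _)
    · simp only [hvS, if_false]
      have := k1 v (hT v hv hvS)
      omega
  · intro u hu v hv huv
    by_cases huS : u ∈ S <;> by_cases hvS : v ∈ S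
    · simpa only [huS, hvS, if_true] using h2 u huS v hvS huv
    · simp only [huS, hvS, if_true, if_false]
      have := h1 u huS
      omega
    · simp only [huS, hvS, if_true, if_false]
      have := h1 v hvS
      omega
    · simp only [huS, hvS, if_false]
      have := k2 u (hT u hu huS) v (hT v hv hvS) huv
      omega
  · intro i
    by_cases hi : i < N
    · refine le_trans (card_le_card ?_) (h3 i)
      intro v hv
      rw [mem_filter] at hv ⊢
      by_cases hvS : v ∈ S
      · simp only [hvS, if_true] at hv
        exact ⟨hvS, hv.2⟩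
      · simp only [hvS, if_false] at hv
        omega
    · refine le_trans (card_le_card ?_) (k3 (i - N))
      intro v hv
      rw [mem_filter] at hv ⊢
      by_cases hvS : v ∈ S
      · simp only [hvS, if_true] at hv
        have := h1 v hvS
        omega
      · simp only [hvS, if_false] at hv
        exact ⟨hT v hv.1 hvS, by omega⟩

theorem Col.singletons (S : Finset V) {r : ℕ} (hr : 1 ≤ r) : Col G S r S.card := by
  classical
  induction S using Finset.induction_on with
  | empty => exact Col.empty _ _
  | insert a S ha ih =>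
    have h1 : Col G ({a} : Finset V) r 1 := by
      refine ⟨fun _ => 0, by simp, ?_, ?_⟩
      · intro u hu v hv huv
        rw [mem_singleton] at hu hv
        subst hu; subst hv
        exact absurd huv (G.irrefl)
      · intro i
        refine le_trans (card_le_card (filter_subset _ _)) ?_
        simpa using hr
    have h2 := h1.union ih
    rw [card_insert_of_notMem ha]
    refine h2.mono ?_ le_rfl (by omega)
    intro x hx
    simpa using hx

theorem Col.of_card_le {S : Finset V} {r N : ℕ} (hr : 1 ≤ r) (h : S.card ≤ N) : Col G S r N :=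
  (Col.singletons S hr).mono (subset_refl _) le_rfl h

theorem Col.indep {S : Finset V} {r : ℕ} (h : ∀ u ∈ S, ∀ v ∈ S, ¬ G.Adj u v) (hr : S.card ≤ r) :
    Col G S r 1 := by
  refine ⟨fun _ => 0, by simp, fun u hu v hv huv => absurd huv (h u hu v hv), fun i => ?_⟩
  exact le_trans (card_le_card (filter_subset _ _)) hr

theorem Col.biUnion {ι : Type*} [DecidableEq ι] (I : Finset ι) (S : ι → Finset V) (r : ℕ)
    (N : ι → ℕ) (h : ∀ i ∈ I, Col G (S i) r (N i)) : Col G (I.biUnion S) r (∑ i ∈ I, N i) := by
  induction I using Finset.induction_on with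
  | empty => simpa using Col.empty _ _
  | insert a I ha ih =>
    rw [biUnion_insert, sum_insert ha]
    exact (h a (mem_insert_self _ _)).union (ih fun i hi => h i (mem_insert_of_mem hi))

end

/-- Greedy list colouring for a symmetric relation. -/
theorem greedy_list {α : Type*} [DecidableEq α] (R : α → α → Prop) [DecidableRel R]
    (hR : ∀ a b, R a b → R b a) (S : Finset α) (L : α → Finset ℕ)
    (h : ∀ a ∈ S, (S.filter (fun b => b ≠ a ∧ R a b)).card < (L a).card) :
    ∃ g : α → ℕ, (∀ a ∈ S, g a ∈ L a) ∧
      ∀ a ∈ S, ∀ b ∈ S, a ≠ b → R a b → g a ≠ g b := by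
  induction S using Finset.induction_on with
  | empty => exact ⟨fun _ => 0, by simp, by simp⟩
  | insert a S ha ih =>
    obtain ⟨g, hg1, hg2⟩ := ih (fun b hb => by
      refine lt_of_le_of_lt (card_le_card ?_) (h b (mem_insert_of_mem hb))
      exact filter_subset_filter _ (subset_insert _ _))
    have h1 : ((S.filter (fun b => b ≠ a ∧ R a b)).image g).card < (L a).card := by
      refine lt_of_le_of_lt card_image_le
        (lt_of_le_of_lt (card_le_card ?_) (h a (mem_insert_self _ _)))
      exact filter_subset_filter _ (subset_insert _ _)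
    obtain ⟨x, hx1, hx2⟩ := exists_mem_notMem_of_card_lt_card h1
    have key : ∀ b ∈ S, R a b → g b ≠ x := by
      intro b hb hab hbx
      apply hx2
      rw [mem_image]
      refine ⟨b, ?_, hbx⟩
      rw [mem_filter]
      refine ⟨hb, ?_, hab⟩
      rintro rfl
      exact ha hb
    have hne : ∀ b ∈ S, b ≠ a := by
      rintro b hb rfl
      exact ha hb
    refine ⟨fun b => if b = a then x else g b, ?_, ?_⟩
    · intro b hb
      by_cases hba : b = a
      · simp only [hba, if_true]
        exact hx1
      · simp only [hba, if_false]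
        exact hg1 b ((mem_insert.1 hb).resolve_left hba)
    · intro b hb c hc hbc hR'
      by_cases hba : b = a
      · by_cases hca : c = a
        · exact absurd (hba.trans hca.symm) hbc
        · simp only [hba, hca, if_true, if_false]
          have hcS := (mem_insert.1 hc).resolve_left hca
          subst hba
          exact fun hh => key c hcS hR' hh.symm
      · by_cases hca : c = a
        · simp only [hba, hca, if_true, if_false]
          have hbS := (mem_insert.1 hb).resolve_left hba
          subst hca
          exact key b hbS (hR _ _ hR')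
        · simp only [hba, hca, if_false]
          exact hg2 b ((mem_insert.1 hb).resolve_left hba) c ((mem_insert.1 hc).resolve_left hca)
            hbc hR'

/-- Greedy colouring with `D + 1` colours for a symmetric relation of degree at most `D`. -/
theorem greedy_nat {α : Type*} [DecidableEq α] (R : α → α → Prop) [DecidableRel R]
    (hR : ∀ a b, R a b → R b a) (S : Finset α) (D : ℕ)
    (h : ∀ a ∈ S, (S.filter (fun b => b ≠ a ∧ R a b)).card ≤ D) :
    ∃ g : α → ℕ, (∀ a ∈ S, g a < D + 1) ∧
      ∀ a ∈ S, ∀ b ∈ S, a ≠ b → R a b → g a ≠ g b := by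
  obtain ⟨g, h1, h2⟩ := greedy_list R hR S (fun _ => range (D + 1)) (fun a ha => by
    rw [card_range]
    exact Nat.lt_succ_of_le (h a ha))
  exact ⟨g, fun a ha => mem_range.1 (h1 a ha), h2⟩

end Pool.Agent.Lib_helper8.Vu
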