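import Pool.Agent.Lib_helper8.Vu.Regular

/-!
The bounded-class colouring theorem, for all vertex subsets.
-/

set_option autoImplicit false

namespace Pool.Agent.Lib_helper8.Vu

open Finset

theorem dense_col (ε : ℝ) (hε : 0 < ε) : ∃ δ : ℝ, 0 < δ ∧ ∃ r : ℕ, 1 ≤ r ∧ ∃ w0 : ℕ,
    ∀ (W : Type) [Fintype W] [DecidableEq W] (G : SimpleGraph W) [DecidableRel G.Adj] (c : ℝ),
      0 ≤ c → w0 ≤ Fintype.card W →
      (((adjp G univ).filter (fun p : W × W => c < (cod G univ p.1 p.2 : ℝ))).card : ℝ)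
        ≤ δ * (Fintype.card W : ℝ) ^ 2 →
      Col G univ r ⌊c + ε * (Fintype.card W : ℝ)⌋₊ := by
  set r : ℕ := ⌈32 / ε⌉₊ with hr
  have hr1 : 1 ≤ r := Nat.one_le_ceil_iff.2 (by positivity)
  have hrR : (0 : ℝ) < (r : ℝ) := by exact_mod_cast hr1
  have hrε : 32 ≤ ε * r := by
    have := Nat.le_ceil (32 / ε)
    rw [div_le_iff₀ hε] at this
    rw [mul_comm]
    exact this
  set γ : ℝ := ε ^ 2 / (32768 * r) with hγ
  have hγ0 : 0 < γ := by positivity
  set η : ℝ := min (min (γ / 8) (ε * γ / 128)) (1 / 16) with hη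
  have hη0 : 0 < η := lt_min (lt_min (by positivity) (by positivity)) (by norm_num)
  set e5 : ℝ := ε / 24 with he5
  set β : ℝ := ε / (48 * r) with hβ
  have hβ0 : 0 < β := by positivity
  set εr : ℝ := min (e5 ^ 2) (min η (β * η ^ r / r)) with hεr
  have hεr0 : 0 < εr := by
    apply lt_min (by positivity)
    apply lt_min hη0 (by positivity)
  have hkey : (r : ℝ) * εr ≤ β * η ^ r := by
    have h1 : εr ≤ β * η ^ r / r := le_trans (min_le_right _ _) (min_le_right _ _)
    rw [le_div_iff₀ hrR] at h1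
    rw [mul_comm]
    exact h1
  set M : ℕ := SzemerediRegularity.bound εr r with hM
  have hM1 : 1 ≤ M := by
    have := SzemerediRegularity.bound_pos (ε := εr) (l := r)
    omega
  have hMR : (1 : ℝ) ≤ (M : ℝ) := by exact_mod_cast hM1
  refine ⟨ε * γ / (64 * (M : ℝ) ^ 2), by positivity, r, hr1, max r ⌈256 * M * r / ε⌉₊, ?_⟩
  intro W _ _ G _ c hc hW hbad
  rcases le_total (Fintype.card W : ℝ) c with hcw | hcw
  · apply Col.of_card_le hr1
    rw [card_univ]
    apply Nat.le_floor
    have : 0 ≤ ε * (Fintype.card W : ℝ) := by positivity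
    linarith
  · obtain ⟨P, hP1, hP2, hP3, hP4⟩ := szemeredi_regularity G hεr0
      (show r ≤ Fintype.card W from le_trans (le_max_left _ _) hW)
    have h1 : 256 * (M : ℝ) * r ≤ ε * (Fintype.card W : ℝ) := by
      have h2 : 256 * M * r / ε ≤ (Fintype.card W : ℝ) :=
        le_trans (Nat.le_ceil _) (by exact_mod_cast le_trans (le_max_right _ _) hW)
      rw [div_le_iff₀ hε] at h2
      linarith
    refine dense_col_aux G ε c (ε * γ / (64 * (M : ℝ) ^ 2)) η γ e5 β εr M r hε hc hcw hη0
      (min_le_right _ _) hγ0 ?_ ?_ hr1 hrε ?_ (by positivity) (by rw [he5]; linarith) hβ0 ?_ hεr0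
      (min_le_left _ _) (le_trans (min_le_right _ _) (min_le_left _ _)) hkey (by positivity) ?_
      P hP1 hP4 (le_trans hr1 hP2) ?_ (by exact_mod_cast hP3) h1 hbad
    · have : η ≤ γ / 8 := le_trans (min_le_left _ _) (min_le_left _ _)
      linarith
    · have : η ≤ ε * γ / 128 := le_trans (min_le_left _ _) (min_le_right _ _)
      linarith
    · rw [hγ]
      field_simp
      exact le_rfl
    · rw [hβ]
      field_simp
      exact le_rfl
    · field_simp
      exact le_rfl
    · have h2 : 32 ≤ ε * P.parts.card := by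
        refine le_trans hrε ?_
        apply mul_le_mul_of_nonneg_left _ hε.le
        exact_mod_cast hP2
      linarith

theorem dense_col_subset (ε : ℝ) (hε : 0 < ε) : ∃ δ : ℝ, 0 < δ ∧ ∃ r : ℕ, 1 ≤ r ∧ ∃ n0 : ℕ,
    ∀ (V : Type) [Fintype V] [DecidableEq V] (G : SimpleGraph V) [DecidableRel G.Adj]
      (S : Finset V) (c : ℝ), 0 ≤ c → n0 ≤ Fintype.card V →
      ((((adjp G S).filter (fun p : V × V => c < (cod G S p.1 p.2 : ℝ))).card : ℕ) : ℝ)
        ≤ δ * (Fintype.card V : ℝ) ^ 2 →
      Col G S r ⌊c + ε * (Fintype.card V : ℝ)⌋₊ := by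
  obtain ⟨δ, hδ, r, hr, w0, hmain⟩ := dense_col ε hε
  refine ⟨δ * ε ^ 2, by positivity, r, hr, ⌈w0 / ε⌉₊, ?_⟩
  intro V _ _ G _ S c hc hV hbad
  rcases le_total (S.card : ℝ) (ε * (Fintype.card V : ℝ)) with hS | hS
  · apply Col.of_card_le hr
    apply Nat.le_floor
    linarith
  · have hSn : S.card ≤ Fintype.card V := card_le_univ S
    have hcard : Fintype.card {x // x ∈ S} = S.card := Fintype.card_coe S
    have hw0 : w0 ≤ Fintype.card {x // x ∈ S} := by
      rw [hcard]
      have h1 : (w0 : ℝ) / ε ≤ (Fintype.card V : ℝ) := le_trans (Nat.le_ceil _) (by exact_mod_cast hV)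
      rw [div_le_iff₀ hε] at h1
      have h2 : (w0 : ℝ) ≤ (S.card : ℝ) := by linarith
      exact_mod_cast h2
    let G' : SimpleGraph {x // x ∈ S} := G.comap Subtype.val
    have hcod : ∀ u v : {x // x ∈ S}, cod G' univ u v = cod G S u.1 v.1 := by
      intro u v
      unfold cod
      symm
      refine card_bij' (fun w hw => (⟨w, (mem_filter.1 hw).1⟩ : {x // x ∈ S})) (fun w _ => w.1)
        ?_ ?_ ?_ ?_
      · intro w hw
        rw [mem_filter]
        exact ⟨mem_univ _, (mem_filter.1 hw).2⟩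
      · intro w hw
        rw [mem_filter]
        exact ⟨w.2, (mem_filter.1 hw).2⟩
      · intro w _
        rfl
      · intro w _
        rfl
    have hbad' : (((adjp G' univ).filter (fun p : {x // x ∈ S} × {x // x ∈ S} =>
        c < (cod G' univ p.1 p.2 : ℝ))).card : ℝ)
        ≤ δ * (Fintype.card {x // x ∈ S} : ℝ) ^ 2 := by
      have h1 : ((adjp G' univ).filter (fun p : {x // x ∈ S} × {x // x ∈ S} =>
        c < (cod G' univ p.1 p.2 : ℝ))).card
          ≤ ((adjp G S).filter (fun p : V × V => c < (cod G S p.1 p.2 : ℝ))).card := by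
        apply card_le_card_of_injOn (fun p => (p.1.1, p.2.1))
        · intro p hp
          rw [mem_coe, mem_filter, adjp, mem_filter] at hp
          rw [mem_coe, mem_filter, adjp, mem_filter, mem_product]
          refine ⟨⟨⟨p.1.2, p.2.2⟩, hp.1.2⟩, ?_⟩
          rw [hcod] at hp
          exact hp.2
        · rintro ⟨a, b⟩ _ ⟨a', b'⟩ _ h
          simp only [Prod.mk.injEq] at h
          exact Prod.ext (Subtype.ext h.1) (Subtype.ext h.2)
      have h2 : δ * ε ^ 2 * (Fintype.card V : ℝ) ^ 2 ≤ δ * (Fintype.card {x // x ∈ S} : ℝ) ^ 2 := by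
        rw [hcard, mul_assoc]
        apply mul_le_mul_of_nonneg_left _ hδ.le
        rw [← mul_pow]
        exact pow_le_pow_left₀ (by positivity) hS 2
      refine le_trans ?_ h2
      refine le_trans ?_ hbad
      exact_mod_cast h1
    obtain ⟨φ, h1, h2, h3⟩ := hmain {x // x ∈ S} G' c hc hw0 hbad'
    have hφ : Col G S r ⌊c + ε * (Fintype.card {x // x ∈ S} : ℝ)⌋₊ := by
      refine ⟨fun v => if h : v ∈ S then φ ⟨v, h⟩ else 0, ?_, ?_, ?_⟩
      · intro v hv
        simp only [hv, dif_pos]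
        exact h1 _ (mem_univ _)
      · intro u hu v hv huv
        simp only [hu, hv, dif_pos]
        exact h2 _ (mem_univ _) _ (mem_univ _) huv
      · intro i
        refine le_trans ?_ (h3 i)
        apply card_le_card_of_surjOn Subtype.val
        intro v hv
        rw [mem_coe, mem_filter] at hv
        obtain ⟨hvS, hvi⟩ := hv
        simp only [hvS, dif_pos] at hvi
        refine ⟨⟨v, hvS⟩, ?_, rfl⟩
        rw [mem_coe, mem_filter]
        exact ⟨mem_univ _, hvi⟩
    refine hφ.mono (subset_refl _) le_rfl ?_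
    apply Nat.floor_le_floor
    have h4 : ε * (Fintype.card {x // x ∈ S} : ℝ) ≤ ε * (Fintype.card V : ℝ) := by
      apply mul_le_mul_of_nonneg_left _ hε.le
      rw [hcard]
      exact_mod_cast hSn
    linarith

end Pool.Agent.Lib_helper8.Vu
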