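import Pool.Agent.Lib_helper8.Vu.Split

/-!
The numerical recursion behind the iteration.
-/

set_option autoImplicit false

namespace Pool.Agent.Lib_helper8.Vu

open Finset

/-- Codegree sequence. -/
noncomputable def xs (lam ε1 ε2 x0 : ℝ) : ℕ → ℝ
  | 0 => x0
  | t + 1 => xs lam ε1 ε2 x0 t * Real.exp (-(lam / (xs lam ε1 ε2 x0 t + ε1))) + ε2

/-- Size sequence of the uncoloured set. -/
noncomputable def ys (lam ε1 ε2 x0 : ℝ) : ℕ → ℝ
  | 0 => 1
  | t + 1 => Real.exp (-(lam / (xs lam ε1 ε2 x0 t + ε1))) * ys lam ε1 ε2 x0 t + ε2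

theorem xs_nonneg (lam ε1 ε2 x0 : ℝ) (hx0 : 0 ≤ x0) (hε2 : 0 ≤ ε2) (t : ℕ) :
    0 ≤ xs lam ε1 ε2 x0 t := by
  induction t with
  | zero => exact hx0
  | succ t ih =>
    simp only [xs]
    have := Real.exp_pos (-(lam / (xs lam ε1 ε2 x0 t + ε1)))
    positivity

theorem ys_nonneg (lam ε1 ε2 x0 : ℝ) (hε2 : 0 ≤ ε2) (t : ℕ) : 0 ≤ ys lam ε1 ε2 x0 t := by
  induction t with
  | zero => exact zero_le_one
  | succ t ih =>
    simp only [ys]
    have := Real.exp_pos (-(lam / (xs lam ε1 ε2 x0 t + ε1)))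
    positivity

/-- One step of the recursion, for `x ≥ ε3`. -/
theorem step_le (x lam ε1 ε3 ε4 : ℝ) (hε3 : 0 < ε3) (hε4 : 0 < ε4) (hε41 : ε4 ≤ 1)
    (hlam : lam = ε3 * ε4) (hε1 : ε1 = ε3 * ε4 / 2) (hx : ε3 ≤ x) :
    x * Real.exp (-(lam / (x + ε1))) + lam * ε4 ≤ x - lam * (1 - 3 * ε4) := by
  have hlam0 : 0 < lam := by rw [hlam]; positivity
  have hε10 : 0 < ε1 := by rw [hε1]; positivity
  have hx0 : 0 < x := by linarith
  have hxe : 0 < x + ε1 := by linarith
  set z : ℝ := lam / (x + ε1) with hz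
  have hz0 : 0 < z := by positivity
  have hzx : z * (x + ε1) = lam := by
    rw [hz]; field_simp
  have hz1 : z ≤ ε4 := by
    rw [hz, div_le_iff₀ hxe, hlam]
    nlinarith
  have h1 : Real.exp (-z) ≤ 1 - z + z ^ 2 := by
    refine le_trans (exp_neg_le_inv hz0.le) ?_
    rw [div_le_iff₀ (by linarith)]
    have : (1 - z + z ^ 2) * (1 + z) = 1 + z ^ 3 := by ring
    rw [this]
    have : 0 < z ^ 3 := by positivity
    linarith
  have h2 : x * Real.exp (-z) ≤ x * (1 - z + z ^ 2) := mul_le_mul_of_nonneg_left h1 hx0.le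
  have h3 : x * z = lam - z * ε1 := by linarith
  have h4 : z * ε1 ≤ lam * (ε4 / 2) := by
    -- z ≤ lam / ε3, ε1 = ε3 ε4 / 2
    have h5 : z * ε3 ≤ lam := by
      calc z * ε3 ≤ z * (x + ε1) := mul_le_mul_of_nonneg_left (by linarith) hz0.le
        _ = lam := hzx
    calc z * ε1 = z * ε3 * (ε4 / 2) := by rw [hε1]; ring
      _ ≤ lam * (ε4 / 2) := mul_le_mul_of_nonneg_right h5 (by positivity)
  have h5 : x * z ^ 2 ≤ lam * ε4 := by
    have h6 : x * z ≤ lam := by nlinarith [mul_pos hz0 hε10]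
    calc x * z ^ 2 = (x * z) * z := by ring
      _ ≤ lam * ε4 := mul_le_mul h6 hz1 hz0.le hlam0.le
  have h6 : x * (1 - z + z ^ 2) = x - x * z + x * z ^ 2 := by ring
  have h7 : 0 < lam * ε4 := by positivity
  nlinarith

theorem xs_le (lam ε1 ε3 ε4 x0 : ℝ) (hε3 : 0 < ε3) (hε4 : 0 < ε4) (hε41 : 3 * ε4 ≤ 1)
    (hlam : lam = ε3 * ε4) (hε1 : ε1 = ε3 * ε4 / 2) (hx0 : 0 ≤ x0) (t : ℕ) :
    xs lam ε1 (lam * ε4) x0 t ≤ max (x0 - t * (lam * (1 - 3 * ε4))) (ε3 + lam * ε4) := by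
  have hlam0 : 0 < lam := by rw [hlam]; positivity
  have hε10 : 0 < ε1 := by rw [hε1]; positivity
  have hκ : 0 ≤ lam * (1 - 3 * ε4) := by
    apply mul_nonneg hlam0.le
    linarith
  induction t with
  | zero =>
    simp only [xs]
    apply le_max_of_le_left
    simp
  | succ t ih =>
    simp only [xs]
    set X := xs lam ε1 (lam * ε4) x0 t with hX
    have hX0 : 0 ≤ X := xs_nonneg _ _ _ _ hx0 (by positivity) t
    rcases le_or_gt ε3 X with h | h
    · have h1 := step_le X lam ε1 ε3 ε4 hε3 hε4 (by linarith) hlam hε1 h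
      refine le_trans h1 ?_
      rcases le_max_iff.1 ih with h2 | h2
      · apply le_max_of_le_left
        push_cast
        linarith
      · apply le_max_of_le_right
        linarith
    · apply le_max_of_le_right
      have h1 : Real.exp (-(lam / (X + ε1))) ≤ 1 := by
        rw [Real.exp_le_one_iff]
        have : 0 ≤ lam / (X + ε1) := by positivity
        linarith
      have h2 : X * Real.exp (-(lam / (X + ε1))) ≤ X := by nlinarith
      linarith

theorem ys_le_add (lam ε1 ε2 x0 : ℝ) (hlam : 0 < lam) (hε1 : 0 < ε1) (hε2 : 0 ≤ ε2) (hx0 : 0 ≤ x0)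
    (t : ℕ) : ys lam ε1 ε2 x0 t ≤ 1 + t * ε2 := by
  induction t with
  | zero => simp [ys]
  | succ t ih =>
    simp only [ys]
    set X := xs lam ε1 ε2 x0 t with hX
    have hX0 : 0 ≤ X := xs_nonneg _ _ _ _ hx0 hε2 t
    have hy0 := ys_nonneg lam ε1 ε2 x0 hε2 t
    have h1 : Real.exp (-(lam / (X + ε1))) ≤ 1 := by
      rw [Real.exp_le_one_iff]
      have : 0 ≤ lam / (X + ε1) := by positivity
      linarith
    push_cast
    nlinarith

theorem exists_params (σ x0 : ℝ) (hσ : 0 < σ) (hσ1 : σ ≤ 1) (hx0 : 0 ≤ x0) (hx1 : x0 ≤ 1) :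
    ∃ lam ε1 ε2 : ℝ, ∃ T K : ℕ, 0 < lam ∧ lam ≤ 1 / 2 ∧ 0 < ε1 ∧ 0 < ε2 ∧ 1 ≤ K ∧ T ≤ K ∧
      (K : ℝ) * lam < x0 + σ ∧ ys lam ε1 ε2 x0 T < ((K : ℝ) - T) * lam := by
  set ε4 : ℝ := σ / 64 with hε4
  set ε3 : ℝ := σ ^ 2 / 1000 with hε3
  set lam : ℝ := ε3 * ε4 with hlam
  set ε1 : ℝ := ε3 * ε4 / 2 with hε1
  set ε2 : ℝ := lam * ε4 with hε2
  have hε40 : 0 < ε4 := by positivity
  have hε30 : 0 < ε3 := by positivity
  have hlam0 : 0 < lam := by positivity
  have hε10 : 0 < ε1 := by positivity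
  have hε20 : 0 < ε2 := by positivity
  have hε4le : ε4 ≤ 1 / 64 := by rw [hε4]; linarith
  have hε3le : ε3 ≤ 1 / 1000 := by
    rw [hε3]
    have : σ ^ 2 ≤ 1 := by nlinarith
    linarith
  have hε3σ : ε3 ≤ σ / 1000 := by
    rw [hε3]
    have : σ ^ 2 ≤ σ := by nlinarith
    linarith
  have hlamle : lam ≤ σ / 64 := by
    rw [hlam, ← hε4]
    nlinarith
  have hlamε3 : lam ≤ ε3 := by
    rw [hlam]
    nlinarith
  set κ : ℝ := lam * (1 - 3 * ε4) with hκ
  have hκ0 : 0 < κ := by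
    apply mul_pos hlam0
    linarith
  set T1 : ℕ := ⌈x0 / κ⌉₊ with hT1
  set T2 : ℕ := ⌈σ / 4 / lam⌉₊ with hT2
  have hT1lb : x0 ≤ T1 * κ := by
    have := Nat.le_ceil (x0 / κ)
    rwa [div_le_iff₀ hκ0] at this
  have hT1ub : (T1 : ℝ) ≤ x0 / κ + 1 := (Nat.ceil_lt_add_one (by positivity)).le
  have hT2lb : σ / 4 ≤ T2 * lam := by
    have := Nat.le_ceil (σ / 4 / lam)
    rwa [div_le_iff₀ hlam0] at this
  have hT2ub : (T2 : ℝ) * lam ≤ σ / 4 + lam := by
    have h1 : (T2 : ℝ) ≤ σ / 4 / lam + 1 := (Nat.ceil_lt_add_one (by positivity)).le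
    have h2 := mul_le_mul_of_nonneg_right h1 hlam0.le
    have h3 : (σ / 4 / lam + 1) * lam = σ / 4 + lam := by field_simp
    linarith
  have hT1lam : (T1 : ℝ) * lam ≤ x0 + 6 * ε4 + lam := by
    have h1 := mul_le_mul_of_nonneg_right hT1ub hlam0.le
    have h2 : (x0 / κ + 1) * lam = x0 / (1 - 3 * ε4) + lam := by
      rw [hκ]
      have : (1 - 3 * ε4) ≠ 0 := by
        intro h
        linarith
      field_simp
    have h3 : x0 / (1 - 3 * ε4) ≤ x0 + 6 * ε4 := by
      rw [div_le_iff₀ (by linarith)]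
      nlinarith
    linarith
  have hT2pos : 1 ≤ T2 := Nat.one_le_ceil_iff.2 (by positivity)
  refine ⟨lam, ε1, ε2, T1 + T2, T1 + T2 + T2, hlam0, by linarith, hε10, hε20, by omega, by omega,
    ?_, ?_⟩
  · push_cast
    have h1 : ((T1 : ℝ) + T2 + T2) * lam = T1 * lam + T2 * lam + T2 * lam := by ring
    rw [h1]
    have h2 : 6 * ε4 = 6 * σ / 64 := by rw [hε4]; ring
    linarith
  · -- the size sequence
    have hxsmall : ∀ s : ℕ, xs lam ε1 ε2 x0 (T1 + s) ≤ ε3 + ε2 := by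
      intro s
      have h1 := xs_le lam ε1 ε3 ε4 x0 hε30 hε40 (by linarith) rfl rfl hx0 (T1 + s)
      refine le_trans h1 (max_le ?_ le_rfl)
      have h2 : x0 ≤ ((T1 + s : ℕ) : ℝ) * κ := by
        push_cast
        have : 0 ≤ (s : ℝ) * κ := by positivity
        linarith
      have h3 : x0 - ((T1 + s : ℕ) : ℝ) * (lam * (1 - 3 * ε4)) ≤ 0 := by
        rw [← hκ]
        linarith
      have : 0 < ε3 + lam * ε4 := by positivity
      linarith
    set D : ℝ := ε3 + ε2 + ε1 with hD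
    have hD0 : 0 < D := by positivity
    have hε2ε3 : ε2 ≤ ε3 := by
      rw [hε2]
      nlinarith
    have hε1ε3 : ε1 ≤ ε3 := by
      rw [hε1]
      nlinarith
    have hD3 : D ≤ 3 * ε3 := by
      rw [hD]; linarith
    set z : ℝ := lam / D with hz
    have hz0 : 0 < z := by positivity
    have hz1 : z ≤ 1 := by
      rw [hz, div_le_one hD0, hD]
      linarith
    set ρ : ℝ := Real.exp (-z) with hρ
    have hρ0 : 0 < ρ := Real.exp_pos _
    have hρ1 : z / 2 ≤ 1 - ρ := by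
      have h1 := exp_neg_le_inv hz0.le
      have h2 : 1 / (1 + z) ≤ 1 - z / 2 := by
        rw [div_le_iff₀ (by linarith)]
        nlinarith
      linarith
    have hρpos : 0 < 1 - ρ := by linarith
    have hρle : ρ ≤ 1 := by linarith
    have hstep : ∀ s : ℕ, Real.exp (-(lam / (xs lam ε1 ε2 x0 (T1 + s) + ε1))) ≤ ρ := by
      intro s
      rw [hρ]
      apply Real.exp_le_exp.2
      apply neg_le_neg
      rw [hz]
      apply div_le_div_of_nonneg_left hlam0.le
      · have := xs_nonneg lam ε1 ε2 x0 hx0 hε20.le (T1 + s)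
        linarith
      · rw [hD]
        linarith [hxsmall s]
    have hyT1 : ys lam ε1 ε2 x0 T1 ≤ 2 := by
      have h1 := ys_le_add lam ε1 ε2 x0 hlam0 hε10 hε20.le hx0 T1
      have h2 : (T1 : ℝ) * ε2 = T1 * lam * ε4 := by rw [hε2]; ring
      have h3 : (T1 : ℝ) * lam * ε4 ≤ 2 * ε4 := by
        apply mul_le_mul_of_nonneg_right _ hε40.le
        linarith
      linarith
    have hy : ∀ s : ℕ, ys lam ε1 ε2 x0 (T1 + s) ≤ 2 * ρ ^ s + ε2 / (1 - ρ) := by
      intro s
      induction s with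
      | zero =>
        have : 0 ≤ ε2 / (1 - ρ) := by positivity
        simp only [add_zero, pow_zero, mul_one]
        linarith
      | succ s ih =>
        have h1 : ys lam ε1 ε2 x0 (T1 + (s + 1))
            = Real.exp (-(lam / (xs lam ε1 ε2 x0 (T1 + s) + ε1))) * ys lam ε1 ε2 x0 (T1 + s) + ε2 := rfl
        rw [h1]
        have h2 : Real.exp (-(lam / (xs lam ε1 ε2 x0 (T1 + s) + ε1))) * ys lam ε1 ε2 x0 (T1 + s)
            ≤ ρ * (2 * ρ ^ s + ε2 / (1 - ρ)) :=
          mul_le_mul (hstep s) ih (ys_nonneg _ _ _ _ hε20.le _) hρ0.le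
        have h3 : ρ * (2 * ρ ^ s + ε2 / (1 - ρ)) + ε2 = 2 * ρ ^ (s + 1) + ε2 / (1 - ρ) := by
          field_simp
          ring
        linarith
    have hfin := hy T2
    have h1 : ρ ^ T2 ≤ 12 * ε3 / σ := by
      have h2 : ρ ^ T2 = Real.exp (-(T2 * z)) := by
        rw [hρ, ← Real.exp_nat_mul]
        congr 1
        ring
      have h3 : σ / (12 * ε3) ≤ T2 * z := by
        rw [hz]
        have h4 : (T2 : ℝ) * (lam / D) = T2 * lam / D := by ring
        rw [h4, div_le_div_iff₀ (by positivity) hD0]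
        calc σ * D ≤ σ * (3 * ε3) := mul_le_mul_of_nonneg_left hD3 hσ.le
          _ = σ / 4 * (12 * ε3) := by ring
          _ ≤ T2 * lam * (12 * ε3) := mul_le_mul_of_nonneg_right hT2lb (by positivity)
      have h5 : 0 < σ / (12 * ε3) := by positivity
      rw [h2]
      have h6 : Real.exp (-(T2 * z)) ≤ Real.exp (-(σ / (12 * ε3))) :=
        Real.exp_le_exp.2 (by linarith)
      refine le_trans h6 (le_trans (exp_neg_le_inv h5.le) ?_)
      have h7 : 12 * ε3 / σ = 1 / (σ / (12 * ε3)) := by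
        field_simp
      rw [h7]
      apply one_div_le_one_div_of_le h5
      linarith
    have h2 : 12 * ε3 / σ = 12 * σ / 1000 := by
      rw [hε3]
      field_simp
    have h3 : ε2 / (1 - ρ) ≤ σ / 64 := by
      rw [div_le_iff₀ hρpos]
      have h4 : σ / 64 * (z / 2) ≤ σ / 64 * (1 - ρ) := mul_le_mul_of_nonneg_left hρ1 (by positivity)
      refine le_trans ?_ h4
      have h5 : lam / (3 * ε3) ≤ z := by
        rw [hz]
        exact div_le_div_of_nonneg_left hlam0.le hD0 hD3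
      have h6 : ε2 ≤ σ / 64 * (lam / (3 * ε3) / 2) := by
        have h7 : σ / 64 * (lam / (3 * ε3) / 2) = lam * ε4 / (6 * ε3) := by
          rw [hε4]
          field_simp
          ring
        rw [h7, hε2, le_div_iff₀ (by positivity)]
        have h8 : 0 < lam * ε4 := by positivity
        nlinarith
      refine le_trans h6 ?_
      apply mul_le_mul_of_nonneg_left _ (by positivity)
      linarith
    push_cast
    have h4 : ((T1 : ℝ) + T2 + T2 - (T1 + T2)) * lam = T2 * lam := by ring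
    rw [h4]
    rw [h2] at h1
    linarith

end Pool.Agent.Lib_helper8.Vu
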