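import Pool.Agent.Lib_helper8.Vu.Round
import Pool.Agent.Lib_helper8.Vu.Seq

/-!
Iterating the rounds: the list colouring theorem for dense graphs.
-/

set_option autoImplicit false

namespace Pool.Agent.Lib_helper8.Vu

open Finset

theorem list_col_fixed (σ x0 : ℝ) (hσ : 0 < σ) (hσ1 : σ ≤ 1) (hx0 : 0 ≤ x0) (hx1 : x0 ≤ 1) :
    ∃ δ : ℝ, 0 < δ ∧ ∃ n0 : ℕ, ∀ (V : Type) [Fintype V] [DecidableEq V] (G : SimpleGraph V)
      [DecidableRel G.Adj] (L : V → Finset ℕ), n0 ≤ Fintype.card V →
      ((badp G univ (x0 * (Fintype.card V : ℝ))).card : ℝ) ≤ δ * (Fintype.card V : ℝ) ^ 2 →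
      (∀ v, (x0 + σ) * (Fintype.card V : ℝ) ≤ ((L v).card : ℝ)) →
      ∃ f : V → ℕ, (∀ v, f v ∈ L v) ∧ ∀ u v, G.Adj u v → f u ≠ f v := by
  classical
  obtain ⟨lam, ε1, ε2, T, K, hlam0, hlam1, hε1, hε2, hK1, hTK, hKlam, hys⟩ :=
    exists_params σ x0 hσ hσ1 hx0 hx1
  obtain ⟨δ, hδ, Kc, hKc, n1, hround⟩ := round_step ε1 ε2 hε1 hε2
  obtain ⟨n2, hsplit⟩ := split K hK1 (x0 + σ) lam hlam0 hKlam
  refine ⟨δ / 2, by positivity, max (max n1 n2) (max ⌈(T * Kc) / (δ / 2)⌉₊ 2), ?_⟩
  intro V _ _ G _ L hV hcod hL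
  set n := Fintype.card V with hn
  have hn1 : n1 ≤ n := le_trans (le_trans (le_max_left _ _) (le_max_left _ _)) hV
  have hn2 : n2 ≤ n := le_trans (le_trans (le_max_right _ _) (le_max_left _ _)) hV
  have hn3 : (T * Kc) / (δ / 2) ≤ (n : ℝ) := le_trans (Nat.le_ceil _)
    (by exact_mod_cast le_trans (le_trans (le_max_left _ _) (le_max_right _ _)) hV)
  have hn4 : 2 ≤ n := le_trans (le_trans (le_max_right _ _) (le_max_right _ _)) hV
  have hn4R : (2 : ℝ) ≤ (n : ℝ) := by exact_mod_cast hn4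
  have hnpos : (0 : ℝ) < (n : ℝ) := by linarith
  have hbadn : δ / 2 * (n : ℝ) ^ 2 + T * Kc * n ≤ δ * (n : ℝ) ^ 2 := by
    rw [div_le_iff₀ (by positivity)] at hn3
    have h0 : T * Kc * n ≤ (n * (δ / 2)) * n := mul_le_mul_of_nonneg_right hn3 hnpos.le
    have h1 : δ / 2 * (n : ℝ) ^ 2 + (n * (δ / 2)) * n = δ * (n : ℝ) ^ 2 := by ring
    linarith
  obtain ⟨g, hg⟩ := hsplit V L hn2 hL
  set ℓ : ℕ := ⌈lam * (n : ℝ)⌉₊ with hℓ
  have hℓlb : lam * (n : ℝ) ≤ ℓ := Nat.le_ceil _
  have hℓn : ℓ ≤ n := by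
    rw [hℓ, Nat.ceil_le]
    nlinarith
  have hsub : ∀ t, t < K → ∃ Lt : V → Finset ℕ, ∀ v, Lt v ⊆ (L v).filter (fun c => g c = t) ∧
      (Lt v).card = ℓ := by
    intro t ht
    have h1 : ∀ v, ∃ B ⊆ (L v).filter (fun c => g c = t), B.card = ℓ := by
      intro v
      apply exists_subset_card_eq
      rw [hℓ, Nat.ceil_le]
      exact hg v t ht
    choose B hB1 hB2 using h1
    exact ⟨B, fun v => ⟨hB1 v, hB2 v⟩⟩
  -- iteration
  have hiter : ∀ t ≤ T, ∃ (U : Finset V) (f : V → ℕ), (∀ v, v ∉ U → f v ∈ L v ∧ g (f v) < t) ∧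
      (∀ u v, u ∉ U → v ∉ U → G.Adj u v → f u ≠ f v) ∧
      (U.card : ℝ) ≤ ys lam ε1 ε2 x0 t * n ∧
      ((badp G U (xs lam ε1 ε2 x0 t * (n : ℝ))).card : ℝ) ≤ δ / 2 * (n : ℝ) ^ 2 + t * Kc * n := by
    intro t
    induction t with
    | zero =>
      intro _
      refine ⟨univ, fun _ => 0, ?_, ?_, ?_, ?_⟩
      · intro v hv
        exact absurd (mem_univ v) hv
      · intro u v hu
        exact absurd (mem_univ u) hu
      · simp only [ys, one_mul]
        rw [card_univ]
      · simp only [xs, Nat.cast_zero, zero_mul, add_zero]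
        exact hcod
    | succ t ih =>
      intro ht
      obtain ⟨U, f, h1, h2, h3, h4⟩ := ih (by omega)
      obtain ⟨Lt, hLt⟩ := hsub t (by omega)
      have hxt : 0 ≤ xs lam ε1 ε2 x0 t := xs_nonneg _ _ _ _ hx0 hε2.le t
      have hbad : ((badp G U (xs lam ε1 ε2 x0 t * (n : ℝ))).card : ℝ) ≤ δ * (n : ℝ) ^ 2 := by
        refine le_trans h4 (le_trans ?_ hbadn)
        have h5 : (t : ℝ) ≤ T := by exact_mod_cast (by omega : t ≤ T)
        have h6 := mul_le_mul_of_nonneg_right (mul_le_mul_of_nonneg_right h5 hKc.le) hnpos.le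
        linarith
      obtain ⟨U', hU', f', hf1, hf2, hf3, hf4⟩ := hround V G U (xs lam ε1 ε2 x0 t) lam (U.biUnion Lt)
        Lt ℓ hn1 hxt (fun v hv => subset_biUnion_of_mem Lt hv) (fun v _ => (hLt v).2) hℓlb hℓn hbad
      have hmem : ∀ v, v ∉ U' → v ∈ U → v ∈ U \ U' := fun v h1 h2 => mem_sdiff.2 ⟨h2, h1⟩
      have hf' : ∀ v, v ∈ U \ U' → f' v ∈ L v ∧ g (f' v) = t := by
        intro v hv
        have := (hLt v).1 (hf1 v hv)
        rw [mem_filter] at this
        exact this
      refine ⟨U', fun v => if v ∈ U then f' v else f v, ?_, ?_, ?_, ?_⟩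
      · intro v hv
        by_cases hvU : v ∈ U
        · simp only [hvU, if_true]
          have := hf' v (hmem v hv hvU)
          exact ⟨this.1, by omega⟩
        · simp only [hvU, if_false]
          have := h1 v hvU
          exact ⟨this.1, by omega⟩
      · intro u v hu hv huv
        by_cases huU : u ∈ U <;> by_cases hvU : v ∈ U
        · simp only [huU, hvU, if_true]
          exact hf2 u (hmem u hu huU) v (hmem v hv hvU) huv
        · simp only [huU, hvU, if_true, if_false]
          have h5 := (hf' u (hmem u hu huU)).2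
          have h6 := (h1 v hvU).2
          intro heq
          rw [heq] at h5
          omega
        · simp only [huU, hvU, if_true, if_false]
          have h5 := (hf' v (hmem v hv hvU)).2
          have h6 := (h1 u huU).2
          intro heq
          rw [← heq] at h5
          omega
        · simp only [huU, hvU, if_false]
          exact h2 u v huU hvU huv
      · simp only [ys]
        refine le_trans hf3 ?_
        have := mul_le_mul_of_nonneg_left h3
          (Real.exp_pos (-(lam / (xs lam ε1 ε2 x0 t + ε1)))).le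
        calc _ ≤ Real.exp (-(lam / (xs lam ε1 ε2 x0 t + ε1))) * (ys lam ε1 ε2 x0 t * n) + ε2 * n := by
              linarith
          _ = _ := by ring
      · simp only [xs]
        refine le_trans hf4 ?_
        push_cast
        calc _ ≤ (δ / 2 * (n : ℝ) ^ 2 + t * Kc * n) + Kc * n := by linarith
          _ = _ := by ring
  obtain ⟨U, f, h1, h2, h3, _⟩ := hiter T le_rfl
  -- greedy completion
  have hres : ∀ v, (U.card : ℝ) < (((L v).filter (fun c => T ≤ g c)).card : ℝ) := by
    intro v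
    have h4 : (U.card : ℝ) < ((K : ℝ) - T) * lam * n := by
      refine lt_of_le_of_lt h3 ?_
      exact mul_lt_mul_of_pos_right hys hnpos
    refine lt_of_lt_of_le h4 ?_
    have h5 : ∑ i ∈ Ico T K, ((L v).filter (fun c => g c = i)).card
        ≤ ((L v).filter (fun c => T ≤ g c)).card := by
      rw [← card_biUnion]
      · apply card_le_card
        intro c hc
        rw [mem_biUnion] at hc
        obtain ⟨i, hi, hci⟩ := hc
        rw [mem_filter] at hci
        rw [mem_Ico] at hi
        rw [mem_filter]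
        refine ⟨hci.1, ?_⟩
        rw [hci.2]
        exact hi.1
      · intro i _ j _ hij
        rw [Function.onFun, disjoint_left]
        intro c hc hc'
        rw [mem_filter] at hc hc'
        exact hij (hc.2.symm.trans hc'.2)
    have h6 : ((K : ℝ) - T) * lam * n ≤ ∑ i ∈ Ico T K, (((L v).filter (fun c => g c = i)).card : ℝ) := by
      have h7 := card_nsmul_le_sum (Ico T K)
        (fun i => (((L v).filter (fun c => g c = i)).card : ℝ)) (lam * n)
        (fun i hi => hg v i (mem_Ico.1 hi).2)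
      rw [Nat.card_Ico, nsmul_eq_mul, Nat.cast_sub hTK] at h7
      linarith
    refine le_trans h6 ?_
    exact_mod_cast h5
  obtain ⟨h, hh1, hh2⟩ := greedy_list G.Adj (fun a b hab => hab.symm) U
    (fun v => (L v).filter (fun c => T ≤ g c)) (fun v hv => by
      have h5 : (U.filter (fun b => b ≠ v ∧ G.Adj v b)).card ≤ U.card := card_filter_le _ _
      have h6 : U.card < ((L v).filter (fun c => T ≤ g c)).card := by exact_mod_cast hres v
      omega)
  refine ⟨fun v => if v ∈ U then h v else f v, ?_, ?_⟩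
  · intro v
    by_cases hvU : v ∈ U
    · simp only [hvU, if_true]
      exact (mem_filter.1 (hh1 v hvU)).1
    · simp only [hvU, if_false]
      exact (h1 v hvU).1
  · intro u v huv
    by_cases huU : u ∈ U <;> by_cases hvU : v ∈ U
    · simp only [huU, hvU, if_true]
      exact hh2 u huU v hvU huv.ne huv
    · simp only [huU, hvU, if_true, if_false]
      have h5 := (mem_filter.1 (hh1 u huU)).2
      have h6 := (h1 v hvU).2
      intro heq
      rw [heq] at h5
      omega
    · simp only [huU, hvU, if_true, if_false]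
      have h5 := (mem_filter.1 (hh1 v hvU)).2
      have h6 := (h1 u huU).2
      intro heq
      rw [← heq] at h5
      omega
    · simp only [huU, hvU, if_false]
      exact h2 u v huU hvU huv

/-- Greedy: lists at least as large as the number of vertices suffice. -/
theorem list_col_of_card_le {V : Type} [Fintype V] [DecidableEq V] (G : SimpleGraph V)
    [DecidableRel G.Adj] (L : V → Finset ℕ) (hL : ∀ v, Fintype.card V ≤ (L v).card) :
    ∃ f : V → ℕ, (∀ v, f v ∈ L v) ∧ ∀ u v, G.Adj u v → f u ≠ f v := by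
  obtain ⟨h, hh1, hh2⟩ := greedy_list G.Adj (fun a b hab => hab.symm) univ L (fun v _ => by
    refine lt_of_lt_of_le ?_ (hL v)
    rw [← card_univ]
    apply card_lt_card
    rw [ssubset_iff_of_subset (subset_univ _)]
    exact ⟨v, mem_univ v, by simp⟩)
  exact ⟨h, fun v => hh1 v (mem_univ v), fun u v huv => hh2 u (mem_univ u) v (mem_univ v) huv.ne huv⟩

/-- **Dense theorem**: lists of size `c + σ n` suffice when all but few edges lie in at most `c`
triangles. -/
theorem list_col_dense (σ : ℝ) (hσ : 0 < σ) :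
    ∃ δ : ℝ, 0 < δ ∧ ∃ n0 : ℕ, ∀ (V : Type) [Fintype V] [DecidableEq V] (G : SimpleGraph V)
      [DecidableRel G.Adj] (c : ℝ) (L : V → Finset ℕ), n0 ≤ Fintype.card V → 0 ≤ c →
      ((badp G univ c).card : ℝ) ≤ δ * (Fintype.card V : ℝ) ^ 2 →
      (∀ v, c + σ * (Fintype.card V : ℝ) ≤ ((L v).card : ℝ)) →
      ∃ f : V → ℕ, (∀ v, f v ∈ L v) ∧ ∀ u v, G.Adj u v → f u ≠ f v := by
  classical
  set σ' : ℝ := min (σ / 2) 1 with hσ'
  have hσ'0 : 0 < σ' := lt_min (by positivity) one_pos
  set J : ℕ := ⌈2 / σ⌉₊ with hJ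
  have hJ1 : 1 ≤ J := Nat.one_le_ceil_iff.2 (by positivity)
  have hJR : (0 : ℝ) < (J : ℝ) := by exact_mod_cast hJ1
  have hJσ : 1 / (J : ℝ) ≤ σ / 2 := by
    have h1 : 2 / σ ≤ (J : ℝ) := Nat.le_ceil _
    rw [div_le_iff₀ hσ] at h1
    rw [div_le_iff₀ hJR]
    linarith
  have hall : ∀ j : ℕ, ∃ δ : ℝ, 0 < δ ∧ ∃ n0 : ℕ, j ≤ J → ∀ (V : Type) [Fintype V]
      [DecidableEq V] (G : SimpleGraph V) [DecidableRel G.Adj]
      (L : V → Finset ℕ), n0 ≤ Fintype.card V →
      ((badp G univ ((j / J : ℝ) * (Fintype.card V : ℝ))).card : ℝ)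
        ≤ δ * (Fintype.card V : ℝ) ^ 2 →
      (∀ v, ((j / J : ℝ) + σ') * (Fintype.card V : ℝ) ≤ ((L v).card : ℝ)) →
      ∃ f : V → ℕ, (∀ v, f v ∈ L v) ∧ ∀ u v, G.Adj u v → f u ≠ f v := by
    intro j
    by_cases hj : j ≤ J
    · obtain ⟨δ, hδ, n0, h⟩ := list_col_fixed σ' (j / J : ℝ) hσ'0 (min_le_right _ _)
        (by positivity) (by
        rw [div_le_one hJR]
        exact_mod_cast hj)
      exact ⟨δ, hδ, n0, fun _ => h⟩
    · exact ⟨1, one_pos, 0, fun h => absurd h hj⟩
  choose δ hδ n0 hn0 using hall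
  have hne : (range (J + 1)).Nonempty := ⟨0, mem_range.2 (by omega)⟩
  refine ⟨(range (J + 1)).inf' hne δ, ?_, (range (J + 1)).sup n0, ?_⟩
  · rw [lt_inf'_iff]
    intro j _
    exact hδ j
  intro V _ _ G _ c L hV hc hcod hL
  rcases le_total (Fintype.card V : ℝ) c with hcn | hcn
  · apply list_col_of_card_le
    intro v
    have h1 := hL v
    have h2 : 0 ≤ σ * (Fintype.card V : ℝ) := by positivity
    have h3 : (Fintype.card V : ℝ) ≤ ((L v).card : ℝ) := by linarith
    exact_mod_cast h3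
  · set n := Fintype.card V with hn
    rcases Nat.eq_zero_or_pos n with hn00 | hnpos
    · have : IsEmpty V := Fintype.card_eq_zero_iff.1 hn00
      exact ⟨fun _ => 0, fun v => isEmptyElim v, fun v => isEmptyElim v⟩
    · have hnR : (0 : ℝ) < (n : ℝ) := by exact_mod_cast hnpos
      set j : ℕ := ⌈c * J / n⌉₊ with hj
      have hjJ : j ≤ J := by
        rw [hj, Nat.ceil_le, div_le_iff₀ hnR]
        have := mul_le_mul_of_nonneg_right hcn hJR.le
        linarith
      have hcj : c ≤ (j / J : ℝ) * n := by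
        have h1 : c * J / n ≤ (j : ℝ) := Nat.le_ceil _
        rw [div_le_iff₀ hnR] at h1
        rw [div_mul_eq_mul_div, le_div_iff₀ hJR]
        exact h1
      have hjc : (j / J : ℝ) * n ≤ c + σ / 2 * n := by
        have h1 : (j : ℝ) ≤ c * J / n + 1 := (Nat.ceil_lt_add_one (by positivity)).le
        have h2 : (j / J : ℝ) * n ≤ (c * J / n + 1) / J * n := by
          apply mul_le_mul_of_nonneg_right _ hnR.le
          exact div_le_div_of_nonneg_right h1 hJR.le
        have h3 : (c * J / n + 1) / J * n = c + 1 / J * n := by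
          field_simp
        have h4 : 1 / (J : ℝ) * n ≤ σ / 2 * n := mul_le_mul_of_nonneg_right hJσ hnR.le
        linarith
      refine hn0 j hjJ V G L ?_ ?_ ?_
      · refine le_trans ?_ hV
        exact le_sup (f := n0) (mem_range.2 (by omega))
      · have h1 : badp G univ ((j / J : ℝ) * (n : ℝ)) ⊆ badp G univ c := by
          intro q hq
          rw [badp, mem_filter] at hq ⊢
          exact ⟨hq.1, lt_of_le_of_lt hcj hq.2⟩
        have h2 : ((badp G univ ((j / J : ℝ) * (n : ℝ))).card : ℝ) ≤ ((badp G univ c).card : ℝ) := by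
          exact_mod_cast card_le_card h1
        refine le_trans h2 (le_trans hcod ?_)
        apply mul_le_mul_of_nonneg_right _ (by positivity)
        exact inf'_le δ (mem_range.2 (by omega))
      · intro v
        refine le_trans ?_ (hL v)
        have h1 : σ' * (n : ℝ) ≤ σ / 2 * n := mul_le_mul_of_nonneg_right (min_le_left _ _) hnR.le
        have h2 : ((j / J : ℝ) + σ') * (n : ℝ) = (j / J : ℝ) * n + σ' * n := by ring
        rw [h2]
        linarith

end Pool.Agent.Lib_helper8.Vu
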