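import Mathlib

/-!
Second moment computation for a random choice of one colour class for every colour.
-/

set_option autoImplicit false

namespace Pool.Agent.Lib_helper8.Vu

open Finset

theorem sum_prod_fun {ι κ : Type*} [Fintype ι] [DecidableEq ι] [Fintype κ] (f : ι → κ → ℝ) :
    ∑ τ : ι → κ, ∏ i, f i (τ i) = ∏ i, ∑ j, f i j := by
  rw [Finset.prod_univ_sum, Fintype.piFinset_univ]

section
variable {V ι : Type*} [Fintype ι] [DecidableEq ι] (N : ℕ) (M : V → Finset ι) (φ : ι → V → ℕ)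

/-- Indicator that `w` is not covered by the choice `τ`. -/
noncomputable def Z (τ : ι → Fin N) (w : V) : ℝ :=
  ∏ α, if α ∈ M w ∧ φ α w = (τ α : ℕ) then (0 : ℝ) else 1

/-- Number of colours for which `w` and `w'` are in the same class. -/
def same (w w' : V) : ℕ := ((M w ∩ M w').filter (fun α => φ α w = φ α w')).card

variable {N M φ}

theorem Z_eq_one {τ : ι → Fin N} {w : V} (h : ∀ α ∈ M w, φ α w ≠ (τ α : ℕ)) :
    Z N M φ τ w = 1 := by
  apply prod_eq_one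
  intro α _
  rw [if_neg]
  rintro ⟨h1, h2⟩
  exact h α h1 h2

theorem Z_eq_zero {τ : ι → Fin N} {w : V} (h : ¬ ∀ α ∈ M w, φ α w ≠ (τ α : ℕ)) :
    Z N M φ τ w = 0 := by
  push Not at h
  obtain ⟨α, h1, h2⟩ := h
  apply prod_eq_zero (mem_univ α)
  rw [if_pos ⟨h1, h2⟩]

theorem factor_one (a : ℕ) (ha : a < N) :
    ∑ j : Fin N, (if a = (j : ℕ) then (0 : ℝ) else 1) = N - 1 := by
  have h1 : ∀ j : Fin N, (if a = (j : ℕ) then (0 : ℝ) else 1)
      = 1 - (if (⟨a, ha⟩ : Fin N) = j then (1 : ℝ) else 0) := by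
    intro j
    by_cases h : a = (j : ℕ)
    · rw [if_pos h, if_pos (Fin.ext h)]
      simp
    · rw [if_neg h, if_neg (fun h' => h (by rw [← h']))]
      simp
  rw [sum_congr rfl fun j _ => h1 j, sum_sub_distrib, sum_ite_eq]
  simp

theorem factor_two (a b : ℕ) (ha : a < N) (hb : b < N) (hab : a ≠ b) :
    ∑ j : Fin N, (if a = (j : ℕ) then (0 : ℝ) else 1) * (if b = (j : ℕ) then (0 : ℝ) else 1)
      = N - 2 := by
  have h1 : ∀ j : Fin N, (if a = (j : ℕ) then (0 : ℝ) else 1) * (if b = (j : ℕ) then (0 : ℝ) else 1)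
      = 1 - (if (⟨a, ha⟩ : Fin N) = j then (1 : ℝ) else 0)
          - (if (⟨b, hb⟩ : Fin N) = j then (1 : ℝ) else 0) := by
    intro j
    by_cases h : a = (j : ℕ)
    · have h2 : ¬ b = (j : ℕ) := fun h' => hab (h.trans h'.symm)
      rw [if_pos h, if_neg h2, if_pos (Fin.ext h), if_neg (fun h' => h2 (by rw [← h']))]
      simp
    · by_cases h2 : b = (j : ℕ)
      · rw [if_neg h, if_pos h2, if_neg (fun h' => h (by rw [← h'])), if_pos (Fin.ext h2)]
        simp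
      · rw [if_neg h, if_neg h2, if_neg (fun h' => h (by rw [← h'])),
          if_neg (fun h' => h2 (by rw [← h']))]
        simp
  rw [sum_congr rfl fun j _ => h1 j, sum_sub_distrib, sum_sub_distrib, sum_ite_eq, sum_ite_eq]
  simp
  ring

theorem sum_Z (hN : 0 < N) (w : V) (hφ : ∀ α ∈ M w, φ α w < N) :
    ∑ τ : ι → Fin N, Z N M φ τ w
      = (N : ℝ) ^ Fintype.card ι * (1 - 1 / (N : ℝ)) ^ (M w).card := by
  have hNR : (0 : ℝ) < N := by exact_mod_cast hN
  unfold Z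
  rw [sum_prod_fun (fun α (j : Fin N) => if α ∈ M w ∧ φ α w = (j : ℕ) then (0 : ℝ) else 1)]
  have h1 : ∀ α : ι, ∑ j : Fin N, (if α ∈ M w ∧ φ α w = (j : ℕ) then (0 : ℝ) else 1)
      = (N : ℝ) * (1 - 1 / (N : ℝ)) ^ (if α ∈ M w then 1 else 0) := by
    intro α
    by_cases hα : α ∈ M w
    · simp only [hα, true_and, if_true, pow_one]
      rw [factor_one _ (hφ α hα)]
      field_simp
    · simp only [hα, false_and, if_false, pow_zero]
      simp
  rw [prod_congr rfl fun α _ => h1 α, prod_mul_distrib, prod_const, card_univ,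
    prod_pow_eq_pow_sum]
  congr 2
  rw [sum_boole]
  simp

theorem sum_ZZ (hN : 2 ≤ N) (w w' : V) (hφ : ∀ α ∈ M w, φ α w < N) (hφ' : ∀ α ∈ M w', φ α w' < N) :
    ∑ τ : ι → Fin N, Z N M φ τ w * Z N M φ τ w'
      ≤ (N : ℝ) ^ Fintype.card ι * ((1 - 1 / (N : ℝ)) ^ (M w).card * (1 - 1 / (N : ℝ)) ^ (M w').card
        * ((1 - 1 / (N : ℝ))⁻¹) ^ (same M φ w w')) := by
  have hNR : (2 : ℝ) ≤ N := by exact_mod_cast hN
  have hp : 0 < 1 - 1 / (N : ℝ) := by
    rw [sub_pos, div_lt_one (by linarith)]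
    linarith
  unfold Z
  have h0 : ∀ τ : ι → Fin N, (∏ α, if α ∈ M w ∧ φ α w = (τ α : ℕ) then (0 : ℝ) else 1)
      * (∏ α, if α ∈ M w' ∧ φ α w' = (τ α : ℕ) then (0 : ℝ) else 1)
      = ∏ α, ((if α ∈ M w ∧ φ α w = (τ α : ℕ) then (0 : ℝ) else 1)
        * (if α ∈ M w' ∧ φ α w' = (τ α : ℕ) then (0 : ℝ) else 1)) := by
    intro τ
    rw [prod_mul_distrib]
  rw [sum_congr rfl fun τ _ => h0 τ]
  rw [sum_prod_fun (fun α (j : Fin N) => (if α ∈ M w ∧ φ α w = (j : ℕ) then (0 : ℝ) else 1)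
        * (if α ∈ M w' ∧ φ α w' = (j : ℕ) then (0 : ℝ) else 1))]
  have h1 : ∀ α : ι, ∑ j : Fin N, ((if α ∈ M w ∧ φ α w = (j : ℕ) then (0 : ℝ) else 1)
        * (if α ∈ M w' ∧ φ α w' = (j : ℕ) then (0 : ℝ) else 1))
      ≤ (N : ℝ) * ((1 - 1 / (N : ℝ)) ^ (if α ∈ M w then 1 else 0)
          * (1 - 1 / (N : ℝ)) ^ (if α ∈ M w' then 1 else 0)
          * ((1 - 1 / (N : ℝ))⁻¹) ^ (if α ∈ M w ∩ M w' ∧ φ α w = φ α w' then 1 else 0)) := by
    intro α
    by_cases hα : α ∈ M w <;> by_cases hα' : α ∈ M w'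
    · by_cases hs : φ α w = φ α w'
      · have h2 : ∀ j : Fin N, (if φ α w = (j : ℕ) then (0 : ℝ) else 1)
            * (if φ α w' = (j : ℕ) then (0 : ℝ) else 1) = if φ α w = (j : ℕ) then (0 : ℝ) else 1 := by
          intro j
          rw [← hs]
          split_ifs <;> simp
        simp only [hα, hα', true_and, if_true, pow_one, mem_inter, and_self]
        rw [sum_congr rfl fun j _ => h2 j, factor_one _ (hφ α hα), if_pos hs, pow_one,
          mul_assoc, mul_inv_cancel₀ hp.ne', mul_one]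
        have : (N : ℝ) ≠ 0 := by linarith
        field_simp
        exact le_rfl
      · simp only [hα, hα', true_and, if_true, pow_one, mem_inter, and_self]
        rw [factor_two _ _ (hφ α hα) (hφ' α hα') hs, if_neg hs, pow_zero, mul_one]
        have hne : (N : ℝ) ≠ 0 := by linarith
        have : (N : ℝ) * ((1 - 1 / (N : ℝ)) * (1 - 1 / (N : ℝ))) = N - 2 + 1 / N := by
          field_simp
          ring
        rw [this]
        have : 0 < 1 / (N : ℝ) := by positivity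
        linarith
    · simp only [hα, hα', true_and, false_and, if_true, if_false, pow_one, mem_inter, mul_one,
        pow_zero, and_false]
      rw [factor_one _ (hφ α hα)]
      have : (N : ℝ) ≠ 0 := by linarith
      field_simp
      exact le_rfl
    · simp only [hα, hα', true_and, false_and, if_true, if_false, pow_one, mem_inter, mul_one,
        pow_zero, one_mul]
      rw [factor_one _ (hφ' α hα')]
      have : (N : ℝ) ≠ 0 := by linarith
      field_simp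
      exact le_rfl
    · simp only [hα, hα', false_and, if_false, mem_inter, mul_one, pow_zero]
      simp
  have h2 : ∏ α, ∑ j : Fin N, ((if α ∈ M w ∧ φ α w = (j : ℕ) then (0 : ℝ) else 1)
        * (if α ∈ M w' ∧ φ α w' = (j : ℕ) then (0 : ℝ) else 1))
      ≤ ∏ α, ((N : ℝ) * ((1 - 1 / (N : ℝ)) ^ (if α ∈ M w then 1 else 0)
          * (1 - 1 / (N : ℝ)) ^ (if α ∈ M w' then 1 else 0)
          * ((1 - 1 / (N : ℝ))⁻¹) ^ (if α ∈ M w ∩ M w' ∧ φ α w = φ α w' then 1 else 0))) := by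
    apply prod_le_prod
    · intro α _
      apply sum_nonneg
      intro j _
      positivity
    · intro α _
      exact h1 α
  refine le_trans h2 (le_of_eq ?_)
  rw [prod_mul_distrib, prod_mul_distrib, prod_mul_distrib, prod_const, card_univ,
    prod_pow_eq_pow_sum, prod_pow_eq_pow_sum, prod_pow_eq_pow_sum]
  have h3 : ∑ α : ι, (if α ∈ M w then 1 else 0) = (M w).card := by
    rw [sum_boole]; simp
  have h4 : ∑ α : ι, (if α ∈ M w' then 1 else 0) = (M w').card := by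
    rw [sum_boole]; simp
  have h5 : ∑ α : ι, (if α ∈ M w ∩ M w' ∧ φ α w = φ α w' then 1 else 0) = same M φ w w' := by
    rw [sum_boole, same]
    simp only [Nat.cast_id]
    congr 1
    ext α
    simp
  rw [h3, h4, h5]

/-- Variance bound for the number of uncovered vertices in `S`. -/
theorem variance_le [DecidableEq V] (hN : 2 ≤ N) (S U : Finset V) (hSU : S ⊆ U) (ℓ : ℕ)
    (hM : ∀ w ∈ U, (M w).card = ℓ) (hφ : ∀ w ∈ U, ∀ α ∈ M w, φ α w < N) :
    ∑ τ : ι → Fin N, ((∑ w ∈ S, Z N M φ τ w) - (1 - 1 / (N : ℝ)) ^ ℓ * (S.card : ℝ)) ^ 2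
      ≤ (N : ℝ) ^ Fintype.card ι *
        ∑ x ∈ U ×ˢ U, (((1 - 1 / (N : ℝ))⁻¹) ^ (same M φ x.1 x.2) - 1) := by
  have hNR : (2 : ℝ) ≤ N := by exact_mod_cast hN
  set p : ℝ := 1 - 1 / (N : ℝ) with hp
  have hp0 : 0 < p := by
    rw [hp, sub_pos, div_lt_one (by linarith)]
    linarith
  have hp1 : p ≤ 1 := by
    rw [hp]
    have : 0 < 1 / (N : ℝ) := by positivity
    linarith
  have hpinv : 1 ≤ p⁻¹ := (one_le_inv₀ hp0).2 hp1
  set q : ℝ := p ^ ℓ with hq
  have hq0 : 0 ≤ q := by positivity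
  have hq1 : q ≤ 1 := pow_le_one₀ hp0.le hp1
  set T : ℝ := (N : ℝ) ^ Fintype.card ι with hT
  have hT0 : 0 ≤ T := by positivity
  have hcardT : ∑ τ : ι → Fin N, (1 : ℝ) = T := by
    rw [sum_const, card_univ, Fintype.card_fun, Fintype.card_fin]
    simp [hT]
  -- expand the square
  have h1 : ∀ τ : ι → Fin N, ((∑ w ∈ S, Z N M φ τ w) - q * (S.card : ℝ)) ^ 2
      = (∑ x ∈ S ×ˢ S, Z N M φ τ x.1 * Z N M φ τ x.2)
        - 2 * (q * (S.card : ℝ)) * (∑ w ∈ S, Z N M φ τ w) + (q * (S.card : ℝ)) ^ 2 * 1 := by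
    intro τ
    rw [sum_product, ← sum_mul_sum]
    ring
  rw [sum_congr rfl fun τ _ => h1 τ, sum_add_distrib, sum_sub_distrib, ← mul_sum, ← mul_sum,
    hcardT, sum_comm, sum_comm (s := univ) (t := S)]
  have h2 : ∑ w ∈ S, ∑ τ : ι → Fin N, Z N M φ τ w = (S.card : ℝ) * (T * q) := by
    rw [sum_congr rfl fun w hw => sum_Z (by omega) w (hφ w (hSU hw)),
      sum_congr rfl fun w hw => by rw [hM w (hSU hw)], sum_const, nsmul_eq_mul]
  have h3 : ∑ x ∈ S ×ˢ S, ∑ τ : ι → Fin N, Z N M φ τ x.1 * Z N M φ τ x.2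
      ≤ ∑ x ∈ S ×ˢ S, T * (q * q * (p⁻¹) ^ (same M φ x.1 x.2)) := by
    apply sum_le_sum
    intro x hx
    rw [mem_product] at hx
    have := sum_ZZ hN x.1 x.2 (hφ _ (hSU hx.1)) (hφ _ (hSU hx.2))
    rwa [hM _ (hSU hx.1), hM _ (hSU hx.2)] at this
  have h4 : ∑ x ∈ S ×ˢ S, T * (q * q * (p⁻¹) ^ (same M φ x.1 x.2))
      = T * (q * q * ∑ x ∈ S ×ˢ S, ((p⁻¹) ^ (same M φ x.1 x.2) - 1)) + T * (q * (S.card : ℝ)) ^ 2 := by
    rw [← mul_sum, ← mul_sum, sum_sub_distrib, sum_const, card_product, nsmul_eq_mul]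
    push_cast
    ring
  have h5 : ∑ x ∈ S ×ˢ S, ((p⁻¹) ^ (same M φ x.1 x.2) - 1)
      ≤ ∑ x ∈ U ×ˢ U, ((p⁻¹) ^ (same M φ x.1 x.2) - 1) := by
    apply sum_le_sum_of_subset_of_nonneg (product_subset_product hSU hSU)
    intro x _ _
    have := one_le_pow₀ hpinv (n := same M φ x.1 x.2)
    linarith
  have h6 : 0 ≤ ∑ x ∈ U ×ˢ U, ((p⁻¹) ^ (same M φ x.1 x.2) - 1) := by
    apply sum_nonneg
    intro x _
    have := one_le_pow₀ hpinv (n := same M φ x.1 x.2)
    linarith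
  have h7 : q * q * ∑ x ∈ S ×ˢ S, ((p⁻¹) ^ (same M φ x.1 x.2) - 1)
      ≤ ∑ x ∈ U ×ˢ U, ((p⁻¹) ^ (same M φ x.1 x.2) - 1) := by
    have hqq0 : 0 ≤ q * q := by positivity
    have hqq1 : q * q ≤ 1 := by nlinarith
    have h8 : q * q * ∑ x ∈ S ×ˢ S, ((p⁻¹) ^ (same M φ x.1 x.2) - 1)
      ≤ q * q * ∑ x ∈ U ×ˢ U, ((p⁻¹) ^ (same M φ x.1 x.2) - 1) :=
      mul_le_mul_of_nonneg_left h5 hqq0
    nlinarith
  have h8 := mul_le_mul_of_nonneg_left h7 hT0
  rw [h2]
  have h9 : 2 * (q * (S.card : ℝ)) * ((S.card : ℝ) * (T * q)) = 2 * (T * (q * (S.card : ℝ)) ^ 2) := by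
    ring
  rw [h9]
  have h10 : (q * (S.card : ℝ)) ^ 2 * T = T * (q * (S.card : ℝ)) ^ 2 := by ring
  rw [h10]
  linarith

/-- Total number of coincidences. -/
theorem sum_same_le [DecidableEq V] (U : Finset V) (ℓ r : ℕ) (hM : ∀ w ∈ U, (M w).card = ℓ)
    (hr : ∀ α, ∀ i, ((U.filter (fun w => α ∈ M w)).filter (fun w => φ α w = i)).card ≤ r) :
    ∑ x ∈ U ×ˢ U, same M φ x.1 x.2 ≤ U.card * ℓ * r := by
  have h1 : ∀ x ∈ U ×ˢ U, same M φ x.1 x.2
      = ∑ α : ι, if (α ∈ M x.1 ∧ α ∈ M x.2 ∧ φ α x.1 = φ α x.2) then 1 else 0 := by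
    intro x _
    rw [same, sum_boole]
    simp only [Nat.cast_id]
    congr 1
    ext α
    simp [and_assoc]
  rw [sum_congr rfl h1, sum_comm]
  have h2 : ∀ α : ι, ∑ x ∈ U ×ˢ U, (if (α ∈ M x.1 ∧ α ∈ M x.2 ∧ φ α x.1 = φ α x.2) then 1 else 0)
      ≤ ∑ w ∈ U, if α ∈ M w then r else 0 := by
    intro α
    rw [sum_product]
    apply sum_le_sum
    intro w _
    by_cases hw : α ∈ M w
    · simp only [hw, true_and, if_true]
      rw [← card_filter]
      refine le_trans (card_le_card ?_) (hr α (φ α w))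
      intro v hv
      rw [mem_filter] at hv
      rw [mem_filter, mem_filter]
      exact ⟨⟨hv.1, hv.2.1⟩, hv.2.2.symm⟩
    · simp [hw]
  refine le_trans (sum_le_sum fun α _ => h2 α) ?_
  rw [sum_comm]
  have h3 : ∀ w ∈ U, ∑ α : ι, (if α ∈ M w then r else 0) = ℓ * r := by
    intro w hw
    rw [← sum_filter, sum_const, smul_eq_mul]
    congr 1
    rw [← hM w hw]
    congr 1
    ext α
    simp
  rw [sum_congr rfl h3, sum_const, smul_eq_mul, mul_assoc]

end

end Pool.Agent.Lib_helper8.Vu
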