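import Pool.Agent.Lib_helper8.Vu.Iterate

/-!
Vu's bound for graphs that split into dense pieces with few edges to earlier pieces.
-/

set_option autoImplicit false

namespace Pool.Agent.Lib_helper8.Vu

open Finset

theorem cod_eq_inter {V : Type*} [Fintype V] [DecidableEq V] (G : SimpleGraph V)
    [DecidableRel G.Adj] (u v : V) :
    cod G univ u v = (G.neighborFinset u ∩ G.neighborFinset v).card := by
  unfold cod
  congr 1
  ext w
  simp

theorem list_col_pieces (ζ ε θ C : ℝ) (hζ : 0 ≤ ζ) (hθ : 0 ≤ θ) (hθε : θ < ε) :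
    ∃ D0 : ℕ, ∀ D : ℕ, D0 ≤ D → ∀ (V : Type) [Fintype V] [DecidableEq V] (G : SimpleGraph V)
      [DecidableRel G.Adj],
      ∀ p : V → ℕ,
      (∀ u v, G.Adj u v → p u = p v → (cod G univ u v : ℝ) ≤ ζ * (D : ℝ)) →
      (∀ i, ((univ.filter (fun v => p v = i)).card : ℝ) ≤ C * (D : ℝ)) →
      (∀ v, ((univ.filter (fun u => G.Adj v u ∧ p u < p v)).card : ℝ) ≤ θ * (D : ℝ)) →
      ∀ L : V → Finset ℕ, (∀ v, ⌊(ζ + ε) * (D : ℝ)⌋₊ ≤ (L v).card) →
        ∃ f : V → ℕ, (∀ v, f v ∈ L v) ∧ ∀ u v, G.Adj u v → f u ≠ f v := by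
  set C' : ℝ := max C 1 with hC'
  have hC'1 : 1 ≤ C' := le_max_right _ _
  set d : ℝ := ε - θ with hd
  have hd0 : 0 < d := by rw [hd]; linarith
  set σ : ℝ := d / (2 * C') with hσ
  have hσ0 : 0 < σ := by positivity
  obtain ⟨δ, hδ, n0, hdense⟩ := list_col_dense σ hσ0
  refine ⟨⌈2 * ((n0 : ℝ) + 1) / d⌉₊, ?_⟩
  intro D hD V _ _ G _ p hcod hp1 hp2 L hL
  have hDbig : 2 * ((n0 : ℝ) + 1) ≤ d * D := by
    have h1 : 2 * ((n0 : ℝ) + 1) / d ≤ (D : ℝ) := le_trans (Nat.le_ceil _) (by exact_mod_cast hD)
    rw [div_le_iff₀ hd0] at h1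
    linarith
  have hn00 : (0 : ℝ) ≤ (n0 : ℝ) := Nat.cast_nonneg _
  have hD0 : (0 : ℝ) ≤ (D : ℝ) := Nat.cast_nonneg _
  have key : ∀ m : ℕ, ∃ f : V → ℕ, (∀ v, p v < m → f v ∈ L v) ∧
      ∀ u v, p u < m → p v < m → G.Adj u v → f u ≠ f v := by
    intro m
    induction m with
    | zero => exact ⟨fun _ => 0, fun v hv => absurd hv (Nat.not_lt_zero _),
        fun u v hu => absurd hu (Nat.not_lt_zero _)⟩
    | succ m ih =>
      obtain ⟨f, hf1, hf2⟩ := ih
      set S : Finset V := univ.filter (fun v => p v = m) with hS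
      have hmemS : ∀ v, v ∈ S ↔ p v = m := by
        intro v
        simp [hS]
      let G' : SimpleGraph ↥S := G.comap Subtype.val
      let L' : ↥S → Finset ℕ := fun v =>
        L v.1 \ (univ.filter (fun u => G.Adj v.1 u ∧ p u < p v.1)).image f
      have hcardS : Fintype.card ↥S = S.card := Fintype.card_coe S
      have hL' : ∀ v : ↥S, ζ * D + d / 2 * D + n0 ≤ ((L' v).card : ℝ) := by
        intro v
        have h1 : (L v.1).card ≤ (L' v).card
            + (univ.filter (fun u => G.Adj v.1 u ∧ p u < p v.1)).card := by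
          have h2 := le_card_sdiff ((univ.filter (fun u => G.Adj v.1 u ∧ p u < p v.1)).image f)
            (L v.1)
          have h3 : ((univ.filter (fun u => G.Adj v.1 u ∧ p u < p v.1)).image f).card
            ≤ (univ.filter (fun u => G.Adj v.1 u ∧ p u < p v.1)).card := card_image_le
          have h4 : (L' v).card = (L v.1 \ (univ.filter
            (fun u => G.Adj v.1 u ∧ p u < p v.1)).image f).card := rfl
          omega
        have h2 : ((L v.1).card : ℝ) ≤ ((L' v).card : ℝ)
            + ((univ.filter (fun u => G.Adj v.1 u ∧ p u < p v.1)).card : ℝ) := by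
          exact_mod_cast h1
        have h3 := hp2 v.1
        have h4 : (ζ + ε) * (D : ℝ) - 1 ≤ ((L v.1).card : ℝ) := by
          have h5 := Nat.lt_floor_add_one ((ζ + ε) * (D : ℝ))
          have h6 : (⌊(ζ + ε) * (D : ℝ)⌋₊ : ℝ) ≤ ((L v.1).card : ℝ) := by exact_mod_cast hL v.1
          linarith
        have h5 : ε = θ + d := by rw [hd]; ring
        rw [h5] at h4
        have h6 : (ζ + (θ + d)) * (D : ℝ) = ζ * D + θ * D + d * D := by ring
        rw [h6] at h4
        linarith
      obtain ⟨h, hh1, hh2⟩ : ∃ h : ↥S → ℕ, (∀ v, h v ∈ L' v) ∧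
          ∀ u v, G'.Adj u v → h u ≠ h v := by
        rcases le_total n0 (Fintype.card ↥S) with hbig | hsmall
        · refine hdense ↥S G' (ζ * D) L' hbig (by positivity) ?_ ?_
          · have hempty : badp G' univ (ζ * D) = ∅ := by
              rw [eq_empty_iff_forall_notMem]
              rintro ⟨u, v⟩ huv
              rw [badp, mem_filter, adjp, mem_filter] at huv
              have h1 : G.Adj u.1 v.1 := huv.1.2
              have h2 : p u.1 = p v.1 := by
                rw [(hmemS u.1).1 u.2, (hmemS v.1).1 v.2]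
              have h3 := hcod u.1 v.1 h1 h2
              have h4 : cod G' univ u v ≤ cod G univ u.1 v.1 := by
                unfold cod
                apply card_le_card_of_injOn Subtype.val
                · intro w hw
                  rw [mem_coe, mem_filter] at hw ⊢
                  exact ⟨mem_univ _, hw.2⟩
                · intro a _ b _ hab
                  exact Subtype.ext hab
              have h5 : (cod G' univ u v : ℝ) ≤ (cod G univ u.1 v.1 : ℝ) := by exact_mod_cast h4
              have h6 : ζ * (D : ℝ) < (cod G' univ u v : ℝ) := huv.2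
              linarith
            rw [hempty, card_empty]
            have : 0 ≤ δ * (Fintype.card ↥S : ℝ) ^ 2 := by positivity
            simpa using this
          · intro v
            refine le_trans ?_ (hL' v)
            have h1 : (Fintype.card ↥S : ℝ) ≤ C' * D := by
              rw [hcardS]
              exact le_trans (hp1 m) (mul_le_mul_of_nonneg_right (le_max_left _ _) hD0)
            have h2 : σ * (Fintype.card ↥S : ℝ) ≤ σ * (C' * D) := mul_le_mul_of_nonneg_left h1 hσ0.le
            have h3 : σ * (C' * D) = d / 2 * D := by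
              rw [hσ]
              field_simp
            linarith
        · apply list_col_of_card_le
          intro v
          have h1 := hL' v
          have h2 : (Fintype.card ↥S : ℝ) ≤ (n0 : ℝ) := by exact_mod_cast hsmall
          have h3 : 0 ≤ ζ * (D : ℝ) := by positivity
          have h4 : 0 ≤ d / 2 * (D : ℝ) := by positivity
          have h5 : (Fintype.card ↥S : ℝ) ≤ ((L' v).card : ℝ) := by linarith
          exact_mod_cast h5
      refine ⟨fun v => if hv : v ∈ S then h ⟨v, hv⟩ else f v, ?_, ?_⟩
      · intro v hv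
        by_cases hvS : v ∈ S
        · simp only [hvS, dif_pos]
          exact (mem_sdiff.1 (hh1 ⟨v, hvS⟩)).1
        · simp only [hvS, dif_neg, not_false_eq_true]
          apply hf1
          have : p v ≠ m := fun h => hvS ((hmemS v).2 h)
          omega
      · have hcross : ∀ u v, ∀ hu : u ∈ S, v ∉ S → p v < m + 1 → G.Adj u v →
            h ⟨u, hu⟩ ≠ f v := by
          intro u v hu hv hvm huv heq
          have hpu : p u = m := (hmemS u).1 hu
          have hpv : p v ≠ m := fun h => hv ((hmemS v).2 h)
          have h1 := (mem_sdiff.1 (hh1 ⟨u, hu⟩)).2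
          apply h1
          rw [mem_image]
          refine ⟨v, mem_filter.2 ⟨mem_univ _, huv, ?_⟩, heq.symm⟩
          change p v < p u
          omega
        intro u v hu hv huv
        by_cases huS : u ∈ S <;> by_cases hvS : v ∈ S
        · simp only [huS, hvS, dif_pos]
          exact hh2 ⟨u, huS⟩ ⟨v, hvS⟩ huv
        · simp only [huS, hvS, dif_pos, dif_neg, not_false_eq_true]
          exact hcross u v huS hvS hv huv
        · simp only [huS, hvS, dif_pos, dif_neg, not_false_eq_true]
          exact (hcross v u hvS huS hu huv.symm).symm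
        · simp only [huS, hvS, dif_neg, not_false_eq_true]
          have h1 : p u ≠ m := fun h => huS ((hmemS u).2 h)
          have h2 : p v ≠ m := fun h => hvS ((hmemS v).2 h)
          exact hf2 u v (by omega) (by omega) huv
  obtain ⟨f, hf1, hf2⟩ := key (univ.sup p + 1)
  have hlt : ∀ v, p v < univ.sup p + 1 := fun v =>
    Nat.lt_succ_of_le (le_sup (f := p) (mem_univ v))
  exact ⟨f, fun v => hf1 v (hlt v), fun u v huv => hf2 u v (hlt u) (hlt v) huv⟩

end Pool.Agent.Lib_helper8.Vu
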