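import Pool.Agent.Lib_helper8.Vu.Codeg

/-!
Dense graphs in which almost all adjacent pairs have codegree at most `c` have colourings with
`c + o(n)` colours and colour classes of bounded size.
-/

set_option autoImplicit false

namespace Pool.Agent.Lib_helper8.Vu

open Finset

/-- Final numerical inequality. -/
theorem numeric_A (ε c w k m r D t0 X κ e5 β M : ℝ) (hε : 0 < ε) (hc : 0 ≤ c) (hcw : c ≤ w)
    (hκ0 : 0 ≤ κ) (hκ : κ ≤ 1 / 2) (hκε : 32 * κ ≤ ε) (hr : 1 ≤ r) (hrε : 32 ≤ ε * r)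
    (he5 : 0 ≤ e5) (he5ε : 24 * e5 ≤ ε) (hβ : 0 < β) (hβε : 48 * r * β ≤ ε)
    (hk1 : 1 ≤ k) (hkl : 8 ≤ ε * k) (hkM : k ≤ M) (hm : 1 ≤ m) (hkm : k * m ≤ w)
    (ht0 : t0 ≤ β * (m + 1) + 1) (hD : 0 ≤ D) (hDk : D ≤ k)
    (hDm : D * m * (1 - κ) ≤ e5 * (k * m) * (1 - κ) + c + ε / 16 * w)
    (hX : X ≤ e5 * k * (m + 1) + (w / r + ε / 32 * w + M)) (hw : 48 * M * r ≤ ε * w) :
    (k / r + D + 1) * (m + r * t0 + r) + X ≤ c + ε * w := by
  have hr0 : 0 < r := by linarith
  have hk : 0 < k := by linarith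
  have hw0 : 0 ≤ w := le_trans hc hcw
  have hm0 : 0 < m := by linarith
  have hεw : 0 ≤ ε * w := by positivity
  -- D * m
  have hs : 0 < 1 - κ := by linarith
  have hs2 : 1 ≤ (1 - κ) * (1 + 2 * κ) := by nlinarith
  have hDm' : D * m ≤ e5 * w + (c + ε / 16 * w) * (1 + 2 * κ) := by
    have h1 : D * m * (1 - κ) ≤ (e5 * w + (c + ε / 16 * w) * (1 + 2 * κ)) * (1 - κ) := by
      have h2 : e5 * (k * m) * (1 - κ) ≤ e5 * w * (1 - κ) :=
        mul_le_mul_of_nonneg_right (mul_le_mul_of_nonneg_left hkm he5) hs.le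
      have h3 : c + ε / 16 * w ≤ (c + ε / 16 * w) * (1 + 2 * κ) * (1 - κ) := by
        have h4 : 0 ≤ c + ε / 16 * w := by positivity
        nlinarith
      nlinarith
    exact le_of_mul_le_mul_right h1 hs
  have hDm2 : D * m ≤ c + ε * w * (1 / 24 + 1 / 16 + 1 / 8) := by
    have h1 : c * (2 * κ) ≤ w * (ε / 16) := by
      have : 2 * κ ≤ ε / 16 := by linarith
      exact mul_le_mul hcw this (by positivity) hw0
    have h2 : ε / 16 * w * (2 * κ) ≤ ε * w * (1 / 16) := by
      have h4 : 0 ≤ ε / 16 * w := by positivity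
      nlinarith
    have h3 : e5 * w ≤ ε / 24 * w := by
      apply mul_le_mul_of_nonneg_right _ hw0
      linarith
    nlinarith
  -- w / r
  have hwr : w / r ≤ ε * w / 32 := by
    rw [div_le_iff₀ hr0]
    have h2 : ε * w / 32 * r = (ε * r) * w / 32 := by ring
    rw [h2]
    nlinarith
  -- k / r * m
  have hkr : k / r * m ≤ ε * w / 32 := by
    have h1 : k / r * m = k * m / r := by ring
    rw [h1]
    refine le_trans ?_ hwr
    exact div_le_div_of_nonneg_right hkm hr0.le
  have hm8 : m ≤ ε * w / 8 := by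
    have h1 : (ε * k) * m ≤ ε * w := by
      calc (ε * k) * m = ε * (k * m) := by ring
        _ ≤ ε * w := mul_le_mul_of_nonneg_left hkm hε.le
    nlinarith
  -- the sum of lower order terms
  have hkD : k / r + D + 1 ≤ 2 * k + 1 := by
    have : k / r ≤ k := div_le_self hk.le hr
    linarith
  have hlow : (k / r + D + 1) * (r * t0 + r) ≤ ε * w / 4 := by
    have h1 : r * t0 + r ≤ r * (β * (m + 1) + 2) := by nlinarith
    have h2 : 0 ≤ r * (β * (m + 1) + 2) := by positivity
    have h3 : 0 ≤ k / r + D + 1 := by positivity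
    have h4 : (k / r + D + 1) * (r * t0 + r) ≤ (2 * k + 1) * (r * (β * (m + 1) + 2)) := by
      calc (k / r + D + 1) * (r * t0 + r) ≤ (k / r + D + 1) * (r * (β * (m + 1) + 2)) :=
            mul_le_mul_of_nonneg_left h1 h3
        _ ≤ _ := mul_le_mul_of_nonneg_right hkD h2
    have h5 : β * (m + 1) + 2 ≤ 2 * (β * m) + 2 := by nlinarith
    have h6 : (2 * k + 1) * (r * (β * (m + 1) + 2)) ≤ (2 * k + 1) * (r * (2 * (β * m) + 2)) := by
      apply mul_le_mul_of_nonneg_left _ (by positivity)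
      exact mul_le_mul_of_nonneg_left h5 hr0.le
    have h7 : r * β * (k * m) ≤ ε / 48 * w := by
      have : r * β ≤ ε / 48 := by linarith
      exact mul_le_mul this hkm (by positivity) (by positivity)
    have h8 : r * β * m ≤ ε / 48 * w := by
      refine le_trans ?_ h7
      have h0 : 0 ≤ r * β := by positivity
      apply mul_le_mul_of_nonneg_left _ h0
      nlinarith
    have h9 : (2 * k + 1) * (r * 2) ≤ ε * w / 8 := by
      have h10 : (2 * k + 1) * (r * 2) ≤ 6 * (M * r) := by nlinarith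
      linarith
    have h11 : (2 * k + 1) * (r * (2 * (β * m) + 2))
        = 4 * (r * β * (k * m)) + 2 * (r * β * m) + (2 * k + 1) * (r * 2) := by ring
    linarith
  have hXle : X ≤ ε * w / 12 + (ε * w / 32 + ε * w / 32 + ε * w / 48) := by
    have h1 : e5 * k * (m + 1) ≤ e5 * (2 * (k * m)) := by
      have : k * (m + 1) ≤ 2 * (k * m) := by nlinarith
      calc e5 * k * (m + 1) = e5 * (k * (m + 1)) := by ring
        _ ≤ _ := mul_le_mul_of_nonneg_left this he5
    have h2 : e5 * (2 * (k * m)) ≤ e5 * (2 * w) := by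
      apply mul_le_mul_of_nonneg_left _ he5
      linarith
    have h3 : e5 * (2 * w) ≤ ε * w / 12 := by nlinarith
    have hM0 : 0 ≤ M := by linarith
    have h4 : M ≤ ε * w / 48 := by nlinarith
    linarith
  have hfin : (k / r + D + 1) * (m + r * t0 + r)
      = k / r * m + D * m + m + (k / r + D + 1) * (r * t0 + r) := by ring
  rw [hfin]
  linarith

section
variable {W : Type*} [Fintype W] [DecidableEq W] (G : SimpleGraph W) [DecidableRel G.Adj]

/-- Few parts are non-uniform with many others. -/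
theorem card_exceptional_le (P : Finpartition (univ : Finset W)) (εr e5 : ℝ) (he5 : 0 < e5)
    (hεr : εr ≤ e5 ^ 2) (hεr0 : 0 ≤ εr) (hU : P.IsUniform G εr) (hk : 0 < P.parts.card) (Ex : Finset (Finset W))
    (hEx : Ex ⊆ P.parts) (N : Finset W → Finset (Finset W))
    (hN : ∀ A ∈ Ex, ∀ B ∈ N A, B ∈ P.parts ∧ A ≠ B ∧ ¬ G.IsUniform εr A B)
    (hcard : ∀ A ∈ Ex, e5 * (P.parts.card : ℝ) ≤ ((N A).card : ℝ)) :
    (Ex.card : ℝ) ≤ e5 * P.parts.card := by
  have h1 : ∑ A ∈ Ex, (N A).card ≤ (P.nonUniforms G εr).card := by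
    rw [← card_sigma]
    apply card_le_card_of_injOn (fun x => (x.1, x.2))
    · rintro ⟨A, B⟩ hx
      rw [mem_coe, mem_sigma] at hx
      obtain ⟨hA, hB⟩ := hx
      have := hN A hA B hB
      rw [mem_coe, Finpartition.mk_mem_nonUniforms]
      exact ⟨hEx hA, this.1, this.2.1, this.2.2⟩
    · rintro ⟨A, B⟩ _ ⟨A', B'⟩ _ hxx
      simp only [Prod.mk.injEq] at hxx
      obtain ⟨rfl, rfl⟩ := hxx
      rfl
  have h2 : (Ex.card : ℝ) * (e5 * (P.parts.card : ℝ)) ≤ ((∑ A ∈ Ex, (N A).card : ℕ) : ℝ) := by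
    have := card_nsmul_le_sum Ex (fun A => ((N A).card : ℝ)) _ hcard
    rw [nsmul_eq_mul] at this
    exact_mod_cast this
  have h3 : ((P.nonUniforms G εr).card : ℝ) ≤ (P.parts.card : ℝ) * (P.parts.card : ℝ) * e5 ^ 2 := by
    refine le_trans hU ?_
    have h4 : ((P.parts.card * (P.parts.card - 1) : ℕ) : ℝ) ≤ (P.parts.card : ℝ) * (P.parts.card : ℝ) := by
      have : P.parts.card * (P.parts.card - 1) ≤ P.parts.card * P.parts.card :=
        Nat.mul_le_mul_left _ (Nat.sub_le _ _)
      exact_mod_cast this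
    exact mul_le_mul h4 hεr hεr0 (by positivity)
  have h5 : (Ex.card : ℝ) * (e5 * (P.parts.card : ℝ)) ≤ (e5 * P.parts.card) * (e5 * (P.parts.card : ℝ)) := by
    have h6 : ((∑ A ∈ Ex, (N A).card : ℕ) : ℝ) ≤ ((P.nonUniforms G εr).card : ℝ) := by
      exact_mod_cast h1
    calc (Ex.card : ℝ) * (e5 * (P.parts.card : ℝ)) ≤ _ := h2
      _ ≤ _ := h6
      _ ≤ _ := h3
      _ = _ := by ring
  have hkpos : (0 : ℝ) < (P.parts.card : ℝ) := by exact_mod_cast hk
  exact le_of_mul_le_mul_right h5 (mul_pos he5 hkpos)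

open scoped Classical in
theorem dense_col_aux (ε c δ η γ e5 β εr M : ℝ) (r : ℕ) (hε : 0 < ε) (hc : 0 ≤ c)
    (hcw : c ≤ (Fintype.card W : ℝ)) (hη : 0 < η) (hη1 : η ≤ 1 / 16) (hγ : 0 < γ)
    (hηγ : 8 * η ≤ γ) (hηγε : 128 * η ≤ ε * γ)
    (hr : 1 ≤ r) (hrε : 32 ≤ ε * r) (hγr : 32768 * γ * r ≤ ε ^ 2)
    (he5 : 0 < e5) (he5ε : 24 * e5 ≤ ε) (hβ : 0 < β)
    (hβε : 48 * r * β ≤ ε) (hεr : 0 < εr) (hεre5 : εr ≤ e5 ^ 2) (hεrη : εr ≤ η)
    (hrεr : (r : ℝ) * εr ≤ β * η ^ r) (hδ : 0 ≤ δ) (hδM : 64 * M ^ 2 * δ ≤ ε * γ)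
    (P : Finpartition (univ : Finset W)) (hP : P.IsEquipartition) (hU : P.IsUniform G εr)
    (hk1 : 1 ≤ P.parts.card) (hkl : 8 ≤ ε * P.parts.card) (hkM : (P.parts.card : ℝ) ≤ M)
    (hw : 256 * M * r ≤ ε * (Fintype.card W : ℝ))
    (hbad : (((adjp G univ).filter (fun p : W × W => c < (cod G univ p.1 p.2 : ℝ))).card : ℝ)
      ≤ δ * (Fintype.card W : ℝ) ^ 2) :
    Col G univ r ⌊c + ε * (Fintype.card W : ℝ)⌋₊ := by
  set n := Fintype.card W with hn
  set k := P.parts.card with hk
  set m := n / k with hm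
  have hkn : k ≤ n := by
    have := P.card_parts_le_card
    rwa [card_univ] at this
  have hm1 : 1 ≤ m := (Nat.one_le_div_iff (by omega)).2 hkn
  have hkm : k * m ≤ n := Nat.mul_div_le n k
  have hnkm : n < k * (m + 1) := by
    have := Nat.lt_mul_div_succ n (show 0 < k by omega)
    simpa [hm] using this
  have hlow : ∀ A ∈ P.parts, m ≤ A.card := by
    intro A hA
    have := hP.average_le_card_part hA
    rwa [card_univ] at this
  have hup : ∀ A ∈ P.parts, A.card ≤ m + 1 := by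
    intro A hA
    have := hP.card_part_le_average_add_one hA
    rwa [card_univ] at this
  -- real versions
  have hk1R : (1 : ℝ) ≤ (k : ℝ) := by exact_mod_cast hk1
  have hm1R : (1 : ℝ) ≤ (m : ℝ) := by exact_mod_cast hm1
  have hrR : (1 : ℝ) ≤ (r : ℝ) := by exact_mod_cast hr
  have hM1 : 1 ≤ M := le_trans hk1R hkM
  have hkmR : (k : ℝ) * (m : ℝ) ≤ (n : ℝ) := by exact_mod_cast hkm
  have hnkmR : (n : ℝ) ≤ (k : ℝ) * ((m : ℝ) + 1) := by exact_mod_cast hnkm.le
  have hn2Mm : (n : ℝ) ≤ 2 * M * m := by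
    have h1 : (k : ℝ) * ((m : ℝ) + 1) ≤ M * (2 * m) := by
      apply mul_le_mul hkM (by linarith) (by positivity) (by linarith)
    linarith
  have hmbig : 256 * (r : ℝ) ≤ ε * (m + 1) := by
    have h1 : 256 * M * r ≤ ε * (M * (m + 1)) := by
      refine le_trans hw ?_
      apply mul_le_mul_of_nonneg_left _ hε.le
      exact le_trans hnkmR (mul_le_mul_of_nonneg_right hkM (by positivity))
    have h2 : M * (256 * (r : ℝ)) ≤ M * (ε * (m + 1)) := by
      calc M * (256 * (r : ℝ)) = 256 * M * r := by ring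
        _ ≤ _ := h1
        _ = _ := by ring
    exact le_of_mul_le_mul_left h2 (by linarith)
  have hη2 : (0 : ℝ) < 1 - 2 * η := by linarith
  set κ : ℝ := 4 * η / γ with hκdef
  have hκ0 : 0 ≤ κ := by positivity
  have hκhalf : κ ≤ 1 / 2 := by
    rw [hκdef, div_le_iff₀ hγ]
    linarith
  have hκε : 32 * κ ≤ ε := by
    rw [hκdef]
    have : 32 * (4 * η / γ) = 128 * η / γ := by ring
    rw [this, div_le_iff₀ hγ]
    exact hηγε
  have hκpos : 0 < 1 - κ := by linarith
  -- conflict relation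
  let R : Finset W → Finset W → Prop := fun A B =>
    ¬ G.IsUniform εr A B ∨ 1 - 2 * η < (G.edgeDensity A B : ℝ)
  have hRsymm : ∀ A B, R A B → R B A := by
    intro A B h
    rcases h with h | h
    · exact Or.inl fun h' => h h'.symm
    · right
      rwa [G.edgeDensity_comm]
  let NU : Finset W → Finset (Finset W) := fun A =>
    P.parts.filter (fun B => A ≠ B ∧ ¬ G.IsUniform εr A B)
  let J : Finset W → Finset (Finset W) := fun A =>
    P.parts.filter (fun B => 1 - 2 * η < (G.edgeDensity A B : ℝ))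
  let Ex : Finset (Finset W) := P.parts.filter (fun A => e5 * (k : ℝ) < ((NU A).card : ℝ))
  let Sp : Finset (Finset W) := P.parts.filter
    (fun A => ((adjp G A).card : ℝ) ≤ γ * (A.card : ℝ) ^ 2)
  let Gd : Finset (Finset W) := P.parts.filter (fun A => ¬ e5 * (k : ℝ) < ((NU A).card : ℝ)
    ∧ ¬ ((adjp G A).card : ℝ) ≤ γ * (A.card : ℝ) ^ 2)
  have hExcard : (Ex.card : ℝ) ≤ e5 * k := by
    refine card_exceptional_le G P εr e5 he5 hεre5 hεr.le hU hk1 Ex (filter_subset _ _) NU ?_ ?_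
    · intro A _ B hB
      have := mem_filter.1 hB
      exact ⟨this.1, this.2.1, this.2.2⟩
    · intro A hA
      exact (mem_filter.1 hA).2.le
  -- dense partners
  have hJcard : ∀ A ∈ P.parts, γ * (A.card : ℝ) ^ 2 < ((adjp G A).card : ℝ) →
      ((J A).card : ℝ) * (m * (1 - κ)) ≤ c + ε / 16 * n := by
    intro A hA hAd
    have hApos : (0 : ℝ) < (A.card : ℝ) := by
      have := hlow A hA
      exact_mod_cast (show 0 < A.card by omega)
    set e : ℝ := ((adjp G A).card : ℝ) with he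
    have hepos : 0 < e := lt_trans (by positivity) hAd
    have hκe : 4 * η * (A.card : ℝ) ^ 2 ≤ κ * e := by
      have h1 : κ * (γ * (A.card : ℝ) ^ 2) ≤ κ * e := mul_le_mul_of_nonneg_left hAd.le hκ0
      have h2 : κ * (γ * (A.card : ℝ) ^ 2) = 4 * η * (A.card : ℝ) ^ 2 := by
        rw [hκdef]
        field_simp
      linarith
    have hpos : 0 ≤ e - 4 * η * (A.card : ℝ) ^ 2 := by
      have : κ * e ≤ 1 / 2 * e := mul_le_mul_of_nonneg_right hκhalf hepos.le
      linarith
    have h1 := dense_parts_bound (G := G) A (J A) univ m η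
      (fun B _ => subset_univ _)
      (fun B hB B' hB' hne => P.disjoint (mem_filter.1 hB).1 (mem_filter.1 hB').1 hne)
      (fun B hB => hlow B (mem_filter.1 hB).1) hpos
      (fun B hB => by
        have hd := (mem_filter.1 hB).2
        have hBpos : (0 : ℝ) < (B.card : ℝ) := by
          have := hlow B (mem_filter.1 hB).1
          exact_mod_cast (show 0 < B.card by omega)
        have h5 : (G.interedges A B).card = ∑ a ∈ A, (B.filter (fun b => G.Adj a b)).card := by
          rw [SimpleGraph.interedges_def, card_filter, sum_product]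
          refine sum_congr rfl fun a _ => ?_
          rw [card_filter]
        rw [SimpleGraph.edgeDensity_def, h5] at hd
        push_cast at hd ⊢
        rw [lt_div_iff₀ (mul_pos hApos hBpos)] at hd
        exact hd.le)
    have h2 := sum_cod_le (G := G) A univ c n (δ * (n : ℝ) ^ 2) hc (by rw [card_univ]) (by
      refine le_trans ?_ hbad
      exact_mod_cast card_le_card (filter_subset_filter _ (adjp_mono (subset_univ _))))
    have h3 := le_trans h1 h2
    rw [← he] at h3
    -- absorb the error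
    have h4 : δ * (n : ℝ) ^ 2 * n ≤ ε / 16 * n * e := by
      have h5 : (m : ℝ) ≤ (A.card : ℝ) := by exact_mod_cast hlow A hA
      have h6 : (n : ℝ) ^ 2 ≤ 4 * M ^ 2 * (A.card : ℝ) ^ 2 := by
        have h7 : (n : ℝ) ≤ 2 * M * (A.card : ℝ) := by
          refine le_trans hn2Mm ?_
          apply mul_le_mul_of_nonneg_left h5
          linarith
        calc (n : ℝ) ^ 2 ≤ (2 * M * (A.card : ℝ)) ^ 2 := pow_le_pow_left₀ (Nat.cast_nonneg _) h7 2
          _ = _ := by ring
      have h8 : δ * (n : ℝ) ^ 2 ≤ δ * (4 * M ^ 2 * (A.card : ℝ) ^ 2) :=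
        mul_le_mul_of_nonneg_left h6 hδ
      have h9 : δ * (4 * M ^ 2 * (A.card : ℝ) ^ 2) ≤ ε / 16 * e := by
        have h10 : δ * (4 * M ^ 2) ≤ ε * γ / 16 := by linarith
        calc δ * (4 * M ^ 2 * (A.card : ℝ) ^ 2) = δ * (4 * M ^ 2) * (A.card : ℝ) ^ 2 := by ring
          _ ≤ ε * γ / 16 * (A.card : ℝ) ^ 2 := mul_le_mul_of_nonneg_right h10 (by positivity)
          _ = ε / 16 * (γ * (A.card : ℝ) ^ 2) := by ring
          _ ≤ ε / 16 * e := mul_le_mul_of_nonneg_left hAd.le (by positivity)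
      calc δ * (n : ℝ) ^ 2 * n ≤ ε / 16 * e * n :=
            mul_le_mul_of_nonneg_right (le_trans h8 h9) (Nat.cast_nonneg _)
        _ = _ := by ring
    have h5 : (((J A).card : ℝ) * (m * (1 - κ))) * e ≤ (c + ε / 16 * n) * e := by
      have h6 : (1 - κ) * e ≤ e - 4 * η * (A.card : ℝ) ^ 2 := by linarith
      calc (((J A).card : ℝ) * (m * (1 - κ))) * e = ((J A).card : ℝ) * (m * ((1 - κ) * e)) := by ring
        _ ≤ ((J A).card : ℝ) * (m * (e - 4 * η * (A.card : ℝ) ^ 2)) := by
            apply mul_le_mul_of_nonneg_left _ (Nat.cast_nonneg _)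
            exact mul_le_mul_of_nonneg_left h6 (Nat.cast_nonneg _)
        _ ≤ c * e + δ * (n : ℝ) ^ 2 * n := h3
        _ ≤ c * e + ε / 16 * n * e := by linarith
        _ = _ := by ring
    exact le_of_mul_le_mul_right h5 hepos
  -- the degree bound
  have hpos2 : 0 < (m : ℝ) * (1 - κ) := by positivity
  set Dr : ℝ := e5 * k + (c + ε / 16 * n) / (m * (1 - κ)) with hDr
  have hDr0 : 0 ≤ Dr := by positivity
  set D : ℕ := min k ⌊Dr⌋₊ with hD
  have hdeg : ∀ A ∈ Gd, (Gd.filter (fun B => B ≠ A ∧ R A B)).card ≤ D := by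
    intro A hA
    have hAP := (mem_filter.1 hA).1
    refine le_min ?_ ?_
    · exact card_le_card ((filter_subset _ _).trans (filter_subset _ _))
    · apply Nat.le_floor
      have h1 : (Gd.filter (fun B => B ≠ A ∧ R A B)) ⊆ NU A ∪ J A := by
        intro B hB
        rw [mem_filter] at hB
        obtain ⟨hBG, hBA, hBR⟩ := hB
        have hBP := (mem_filter.1 hBG).1
        rw [mem_union]
        rcases hBR with h | h
        · exact Or.inl (mem_filter.2 ⟨hBP, hBA.symm, h⟩)
        · exact Or.inr (mem_filter.2 ⟨hBP, h⟩)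
      have h2 : ((Gd.filter (fun B => B ≠ A ∧ R A B)).card : ℝ)
          ≤ ((NU A).card : ℝ) + ((J A).card : ℝ) := by
        exact_mod_cast le_trans (card_le_card h1) (card_union_le _ _)
      have h3 : ((NU A).card : ℝ) ≤ e5 * k := not_lt.1 (mem_filter.1 hA).2.1
      have h4 : ((J A).card : ℝ) ≤ (c + ε / 16 * n) / (m * (1 - κ)) := by
        rw [le_div_iff₀ hpos2]
        exact hJcard A hAP (not_le.1 (mem_filter.1 hA).2.2)
      rw [hDr]
      linarith
  obtain ⟨g, hg1, hg2⟩ := greedy_nat R hRsymm Gd D hdeg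
  -- colour each class
  set t0 : ℕ := ⌈β * ((m : ℝ) + 1)⌉₊ with ht0
  have hclass : ∀ i ∈ range (D + 1), Col G ((Gd.filter (fun A => g A = i)).biUnion id) r
      (((Gd.filter (fun A => g A = i)).card / r + 1) * (m + r * t0 + r)) := by
    intro i _
    refine class_col (G := G) εr η β hεr hη (by linarith) hβ r hr hrεr m t0 (Nat.le_ceil _) _ _ ?_ ?_ ?_ ?_
    · have := Nat.lt_mul_div_succ (Gd.filter (fun A => g A = i)).card (show 0 < r by omega)
      rw [mul_comm] at this
      exact this.le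
    · intro A hA
      exact hlow A (mem_filter.1 (mem_filter.1 hA).1).1
    · intro A hA
      exact hup A (mem_filter.1 (mem_filter.1 hA).1).1
    · intro A hA B hB hAB
      have hA' := mem_filter.1 hA
      have hB' := mem_filter.1 hB
      have hnR : ¬ R A B := fun h => hg2 A hA'.1 B hB'.1 hAB h (hA'.2.trans hB'.2.symm)
      have h1 : G.IsUniform εr A B := by
        by_contra h
        exact hnR (Or.inl h)
      have h2 : (G.edgeDensity A B : ℝ) ≤ 1 - 2 * η := by
        by_contra h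
        push Not at h
        exact hnR (Or.inr h)
      exact notDense_of_isUniform h1 h2 hεrη
  have hall := Col.biUnion (G := G) (range (D + 1)) _ r _ hclass
  have hEx : Col G (Ex.biUnion id) r (Ex.biUnion id).card := Col.singletons _ hr
  -- sparse parts
  set t1 : ℕ := ⌈ε / 64 * ((m : ℝ) + 1)⌉₊ with ht1
  have ht1pos : 1 ≤ t1 := Nat.one_le_ceil_iff.2 (by positivity)
  have ht1R : ε / 64 * ((m : ℝ) + 1) ≤ (t1 : ℝ) := Nat.le_ceil _
  have hspc : ∀ A ∈ Sp, Col G (id A) r (A.card / r + t1) := by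
    intro A hA
    have hA' := mem_filter.1 hA
    have hAm : (A.card : ℝ) ≤ m + 1 := by exact_mod_cast hup A hA'.1
    refine sparse_col A γ hγ.le r t1 hr ht1pos hA'.2 ?_ A.card A rfl (subset_refl _)
    have ht1pos' : (0 : ℝ) < (t1 : ℝ) := by exact_mod_cast ht1pos
    have h1 : 2 * γ * (A.card : ℝ) ^ 2 / t1 ≤ 128 * γ * (m + 1) / ε := by
      rw [div_le_div_iff₀ ht1pos' hε]
      have h2 : (A.card : ℝ) ^ 2 ≤ ((m : ℝ) + 1) ^ 2 := pow_le_pow_left₀ (Nat.cast_nonneg _) hAm 2
      have h3 : 2 * γ * (A.card : ℝ) ^ 2 * ε ≤ 2 * γ * ((m : ℝ) + 1) ^ 2 * ε := by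
        apply mul_le_mul_of_nonneg_right _ hε.le
        exact mul_le_mul_of_nonneg_left h2 (by positivity)
      have h4 : 128 * γ * ((m : ℝ) + 1) * (ε / 64 * ((m : ℝ) + 1)) ≤ 128 * γ * ((m : ℝ) + 1) * t1 :=
        mul_le_mul_of_nonneg_left ht1R (by positivity)
      refine le_trans h3 (le_trans (le_of_eq ?_) h4)
      ring
    have h2 : (r : ℝ) * (128 * γ * (m + 1) / ε) ≤ ε / 256 * (m + 1) := by
      have h3 : (r : ℝ) * (128 * γ * (m + 1) / ε) = (128 * γ * r) / ε * (m + 1) := by ring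
      rw [h3]
      apply mul_le_mul_of_nonneg_right _ (by positivity)
      rw [div_le_iff₀ hε]
      have h4 : ε / 256 * ε = ε ^ 2 / 256 := by ring
      rw [h4]
      linarith
    have h3 : (r : ℝ) ≤ ε / 256 * (m + 1) := by linarith
    have h4 : (r : ℝ) * (2 * γ * (A.card : ℝ) ^ 2 / t1 + 1)
        ≤ (r : ℝ) * (128 * γ * (m + 1) / ε + 1) := by
      apply mul_le_mul_of_nonneg_left _ (Nat.cast_nonneg _)
      linarith
    have h5 : (r : ℝ) * (128 * γ * (m + 1) / ε + 1) = (r : ℝ) * (128 * γ * (m + 1) / ε) + r := by ring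
    linarith
  have hSp := Col.biUnion (G := G) Sp id r _ hspc
  have htot := (hall.union hEx).union hSp
  refine htot.mono ?_ le_rfl ?_
  · intro v _
    obtain ⟨A, hA, hvA⟩ := P.exists_mem (mem_univ v)
    rw [mem_union, mem_union]
    by_cases hAE : e5 * (k : ℝ) < ((NU A).card : ℝ)
    · left; right
      rw [mem_biUnion]
      exact ⟨A, mem_filter.2 ⟨hA, hAE⟩, hvA⟩
    · by_cases hAS : ((adjp G A).card : ℝ) ≤ γ * (A.card : ℝ) ^ 2
      · right
        rw [mem_biUnion]
        exact ⟨A, mem_filter.2 ⟨hA, hAS⟩, hvA⟩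
      · left; left
        have hAG : A ∈ Gd := mem_filter.2 ⟨hA, hAE, hAS⟩
        rw [mem_biUnion]
        refine ⟨g A, mem_range.2 (hg1 A hAG), ?_⟩
        rw [mem_biUnion]
        exact ⟨A, mem_filter.2 ⟨hAG, rfl⟩, hvA⟩
  · apply Nat.le_floor
    have hsum1 : ((∑ i ∈ range (D + 1), ((Gd.filter (fun A => g A = i)).card / r + 1)
        * (m + r * t0 + r) : ℕ) : ℝ) ≤ ((k : ℝ) / r + D + 1) * (m + r * t0 + r) := by
      rw [← sum_mul]
      push_cast
      apply mul_le_mul_of_nonneg_right _ (by positivity)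
      rw [sum_add_distrib]
      have h1 : ∑ i ∈ range (D + 1), (((Gd.filter (fun A => g A = i)).card / r : ℕ) : ℝ)
          ≤ (k : ℝ) / r := by
        have h2 : ∀ i ∈ range (D + 1), (((Gd.filter (fun A => g A = i)).card / r : ℕ) : ℝ)
            ≤ ((Gd.filter (fun A => g A = i)).card : ℝ) / r := fun i _ => Nat.cast_div_le
        refine le_trans (sum_le_sum h2) ?_
        rw [← sum_div]
        apply div_le_div_of_nonneg_right _ (by positivity)
        have h3 : ∑ i ∈ range (D + 1), (Gd.filter (fun A => g A = i)).card = Gd.card := by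
          symm
          apply card_eq_sum_card_fiberwise
          intro A hA
          exact mem_coe.2 (mem_range.2 (hg1 A (mem_coe.1 hA)))
        have h4 : Gd.card ≤ k := card_le_card (filter_subset _ _)
        have h5 : ((∑ i ∈ range (D + 1), (Gd.filter (fun A => g A = i)).card : ℕ) : ℝ) ≤ (k : ℝ) := by
          rw [h3]
          exact_mod_cast h4
        push_cast at h5
        exact h5
      have h6 : ∑ i ∈ range (D + 1), (1 : ℝ) = (D : ℝ) + 1 := by
        rw [sum_const, card_range]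
        simp
      rw [h6]
      linarith
    have hX1 : ((Ex.biUnion id).card : ℝ) ≤ e5 * k * (m + 1) := by
      have h1 : ((Ex.biUnion id).card : ℝ) ≤ (Ex.card : ℝ) * ((m : ℝ) + 1) := by
        have h2 : (Ex.biUnion id).card ≤ Ex.card * (m + 1) := by
          apply card_biUnion_le_card_mul
          intro A hA
          exact hup A (mem_filter.1 hA).1
        exact_mod_cast h2
      refine le_trans h1 ?_
      exact mul_le_mul_of_nonneg_right hExcard (by positivity)
    have hX2 : ((∑ A ∈ Sp, (A.card / r + t1) : ℕ) : ℝ) ≤ (n : ℝ) / r + ε / 32 * n + M := by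
      push_cast
      rw [sum_add_distrib]
      have h1 : ∑ A ∈ Sp, ((A.card / r : ℕ) : ℝ) ≤ (n : ℝ) / r := by
        have h2 : ∀ A ∈ Sp, ((A.card / r : ℕ) : ℝ) ≤ (A.card : ℝ) / r := fun i _ => Nat.cast_div_le
        refine le_trans (sum_le_sum h2) ?_
        rw [← sum_div]
        apply div_le_div_of_nonneg_right _ (by positivity)
        have h3 : ∑ A ∈ Sp, A.card ≤ n := by
          have h4 : ∑ A ∈ Sp, A.card ≤ ∑ A ∈ P.parts, A.card :=
            sum_le_sum_of_subset (filter_subset _ _)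
          rw [P.sum_card_parts, card_univ] at h4
          exact h4
        exact_mod_cast h3
      have h2 : ∑ A ∈ Sp, (t1 : ℝ) ≤ ε / 32 * n + M := by
        rw [sum_const, nsmul_eq_mul]
        have h3 : (Sp.card : ℝ) ≤ k := by exact_mod_cast card_le_card (filter_subset _ _)
        have h4 : (t1 : ℝ) ≤ ε / 64 * ((m : ℝ) + 1) + 1 := (Nat.ceil_lt_add_one (by positivity)).le
        have h5 : (Sp.card : ℝ) * (t1 : ℝ) ≤ k * (ε / 64 * ((m : ℝ) + 1) + 1) :=
          mul_le_mul h3 h4 (Nat.cast_nonneg _) (by positivity)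
        have h6 : (k : ℝ) * (ε / 64 * ((m : ℝ) + 1) + 1) ≤ ε / 32 * (k * m) + k := by
          have h7 : (k : ℝ) * ((m : ℝ) + 1) ≤ 2 * (k * m) := by nlinarith
          have h8 : ε / 64 * ((k : ℝ) * ((m : ℝ) + 1)) ≤ ε / 64 * (2 * (k * m)) :=
            mul_le_mul_of_nonneg_left h7 (by positivity)
          calc (k : ℝ) * (ε / 64 * ((m : ℝ) + 1) + 1) = ε / 64 * ((k : ℝ) * ((m : ℝ) + 1)) + k := by ring
            _ ≤ ε / 64 * (2 * (k * m)) + k := by linarith
            _ = _ := by ring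
        have h7 : ε / 32 * ((k : ℝ) * m) ≤ ε / 32 * n := mul_le_mul_of_nonneg_left hkmR (by positivity)
        linarith
      linarith
    have hDle : (D : ℝ) ≤ Dr := le_trans (by exact_mod_cast min_le_right _ _) (Nat.floor_le hDr0)
    have hDk : (D : ℝ) ≤ k := by exact_mod_cast min_le_left _ _
    have hDm : (D : ℝ) * m * (1 - κ) ≤ e5 * (k * m) * (1 - κ) + c + ε / 16 * n := by
      have h1 : (D : ℝ) * (m * (1 - κ)) ≤ Dr * (m * (1 - κ)) :=
        mul_le_mul_of_nonneg_right hDle hpos2.le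
      rw [hDr, add_mul, div_mul_cancel₀ _ hpos2.ne'] at h1
      calc (D : ℝ) * m * (1 - κ) = (D : ℝ) * (m * (1 - κ)) := by ring
        _ ≤ _ := h1
        _ = _ := by ring
    have ht0' : (t0 : ℝ) ≤ β * (m + 1) + 1 := (Nat.ceil_lt_add_one (by positivity)).le
    have hw48 : 48 * M * r ≤ ε * n := by
      refine le_trans ?_ hw
      have : 0 ≤ M * r := by positivity
      nlinarith
    have hnum := numeric_A ε c n k m r D t0
      (((Ex.biUnion id).card : ℝ) + ((∑ A ∈ Sp, (A.card / r + t1) : ℕ) : ℝ)) κ e5 β M hε hc hcw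
      hκ0 hκhalf hκε hrR hrε he5.le he5ε hβ hβε hk1R hkl hkM hm1R hkmR ht0' (Nat.cast_nonneg _)
      hDk hDm (by linarith) hw48
    push_cast at hsum1 hnum ⊢
    linarith

end

end Pool.Agent.Lib_helper8.Vu
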