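import Pool.Agent.Lib_helper8.Vu.DenseCol
import Pool.Agent.Lib_helper8.Vu.Moment

/-!
One round of the semi-random list colouring procedure.
-/

set_option autoImplicit false

namespace Pool.Agent.Lib_helper8.Vu

open Finset

open scoped Classical in
/-- Adjacent pairs with codegree larger than `y` inside `U`. -/
noncomputable def badp {V : Type*} [Fintype V] [DecidableEq V] (G : SimpleGraph V)
    [DecidableRel G.Adj] (U : Finset V) (y : ℝ) : Finset (V × V) :=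
  (adjp G univ).filter (fun p => y < (cod G U p.1 p.2 : ℝ))

theorem exp_sub_one_le {z B : ℝ} (hz : 0 ≤ z) (hzB : z ≤ B) :
    Real.exp z - 1 ≤ z * Real.exp B := by
  have h1 : 1 - z ≤ Real.exp (-z) := Real.one_sub_le_exp_neg z
  have h2 : Real.exp (-z) * Real.exp z = 1 := by
    rw [← Real.exp_add]
    simp
  have h3 : 0 < Real.exp z := Real.exp_pos z
  have h4 : Real.exp z - 1 ≤ z * Real.exp z := by nlinarith
  have h5 : Real.exp z ≤ Real.exp B := Real.exp_le_exp.2 hzB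
  have h6 : z * Real.exp z ≤ z * Real.exp B := mul_le_mul_of_nonneg_left h5 hz
  linarith

theorem inv_pow_sub_one_le (N s : ℕ) (B : ℝ) (hN : 2 ≤ N) (hs : 2 * (s : ℝ) / N ≤ B) :
    ((1 - 1 / (N : ℝ))⁻¹) ^ s - 1 ≤ 2 * (s : ℝ) / N * Real.exp B := by
  have hNR : (2 : ℝ) ≤ N := by exact_mod_cast hN
  have hp : 0 < 1 - 1 / (N : ℝ) := by
    rw [sub_pos, div_lt_one (by linarith)]
    linarith
  have h1 : (1 - 1 / (N : ℝ))⁻¹ ≤ Real.exp (2 / N) := by
    rw [inv_le_comm₀ hp (Real.exp_pos _), ← Real.exp_neg]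
    -- exp (-2/N) ≤ 1 - 1/N
    have hN0 : (0 : ℝ) < N := by linarith
    have h2 : 1 + 2 / (N : ℝ) ≤ Real.exp (2 / N) := by
      have := Real.add_one_le_exp (2 / (N : ℝ))
      linarith
    rw [Real.exp_neg, inv_le_comm₀ (Real.exp_pos _) hp]
    refine le_trans ?_ h2
    rw [inv_le_comm₀ hp (by positivity)]
    rw [inv_eq_one_div, div_le_iff₀ (by positivity)]
    have h3 : (1 - 1 / (N : ℝ)) * (1 + 2 / (N : ℝ)) = 1 + (N - 2) / (N : ℝ) ^ 2 := by
      field_simp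
      ring
    rw [h3]
    have : 0 ≤ ((N : ℝ) - 2) / (N : ℝ) ^ 2 := div_nonneg (by linarith) (by positivity)
    linarith
  have h2 : ((1 - 1 / (N : ℝ))⁻¹) ^ s ≤ Real.exp (2 * (s : ℝ) / N) := by
    calc ((1 - 1 / (N : ℝ))⁻¹) ^ s ≤ (Real.exp (2 / N)) ^ s :=
          pow_le_pow_left₀ (inv_nonneg.2 hp.le) h1 s
      _ = Real.exp (2 * (s : ℝ) / N) := by
          rw [← Real.exp_nat_mul]
          congr 1
          ring
  have h3 := exp_sub_one_le (z := 2 * (s : ℝ) / N) (B := B) (by positivity) hs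
  linarith

theorem one_sub_pow_le (N ℓ : ℕ) (lam y : ℝ) (hN : 2 ≤ N) (hy : 0 < y)
    (h : lam * (N : ℝ) ≤ y * ℓ) :
    (1 - 1 / (N : ℝ)) ^ ℓ ≤ Real.exp (-(lam / y)) := by
  have hNR : (2 : ℝ) ≤ N := by exact_mod_cast hN
  have hN0 : (0 : ℝ) < N := by linarith
  have hp : 0 ≤ 1 - 1 / (N : ℝ) := by
    rw [sub_nonneg, div_le_one (by linarith)]
    linarith
  calc (1 - 1 / (N : ℝ)) ^ ℓ ≤ (Real.exp (-(1 / (N : ℝ)))) ^ ℓ :=
        pow_le_pow_left₀ hp (Real.one_sub_le_exp_neg _) ℓ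
    _ = Real.exp (-((ℓ : ℝ) / N)) := by
        rw [← Real.exp_nat_mul]
        congr 1
        ring
    _ ≤ _ := by
        apply Real.exp_le_exp.2
        apply neg_le_neg
        rw [div_le_div_iff₀ hy hN0]
        linarith

open scoped Classical in
theorem round_step (ε1 ε2 : ℝ) (hε1 : 0 < ε1) (hε2 : 0 < ε2) : ∃ δ : ℝ, 0 < δ ∧ ∃ K : ℝ, 0 < K ∧
    ∃ n1 : ℕ, ∀ (V : Type) [Fintype V] [DecidableEq V] (G : SimpleGraph V) [DecidableRel G.Adj]
      (U : Finset V) (x lam : ℝ) (P : Finset ℕ) (L : V → Finset ℕ) (ℓ : ℕ),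
      n1 ≤ Fintype.card V → 0 ≤ x → (∀ v ∈ U, L v ⊆ P) → (∀ v ∈ U, (L v).card = ℓ) →
      lam * (Fintype.card V : ℝ) ≤ ℓ → ℓ ≤ Fintype.card V →
      ((badp G U (x * (Fintype.card V : ℝ))).card : ℝ) ≤ δ * (Fintype.card V : ℝ) ^ 2 →
      ∃ U' ⊆ U, ∃ f : V → ℕ, (∀ v ∈ U \ U', f v ∈ L v) ∧
        (∀ u ∈ U \ U', ∀ v ∈ U \ U', G.Adj u v → f u ≠ f v) ∧
        (U'.card : ℝ) ≤ Real.exp (-(lam / (x + ε1))) * U.card + ε2 * (Fintype.card V : ℝ) ∧
        ((badp G U' ((x * Real.exp (-(lam / (x + ε1))) + ε2) * (Fintype.card V : ℝ))).card : ℝ)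
          ≤ (badp G U (x * (Fintype.card V : ℝ))).card + K * (Fintype.card V : ℝ) := by
  obtain ⟨δ, hδ, r, hr, n0, hcol⟩ := dense_col_subset ε1 hε1
  set K1 : ℝ := 4 * r * Real.exp (4 / ε1) / ε1 with hK1
  have hrR : (1 : ℝ) ≤ (r : ℝ) := by exact_mod_cast hr
  have hK1pos : 0 < K1 := by
    have := Real.exp_pos (4 / ε1)
    positivity
  refine ⟨δ, hδ, 2 * K1 / ε2 ^ 2, by positivity, max n0 (max ⌈4 / ε1⌉₊ ⌈2 * K1 / ε2 ^ 2⌉₊), ?_⟩
  intro V _ _ G _ U x lam P L ℓ hn1 hx hLP hLcard hlam hℓn hbad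
  set n := Fintype.card V with hn
  have hn0 : n0 ≤ n := le_trans (le_max_left _ _) hn1
  have hn4 : 4 ≤ ε1 * n := by
    have h1 : 4 / ε1 ≤ (n : ℝ) := le_trans (Nat.le_ceil _)
      (by exact_mod_cast le_trans (le_trans (le_max_left _ _) (le_max_right _ _)) hn1)
    rw [div_le_iff₀ hε1] at h1
    linarith
  have hnK : 2 * K1 ≤ ε2 ^ 2 * n := by
    have h1 : 2 * K1 / ε2 ^ 2 ≤ (n : ℝ) := le_trans (Nat.le_ceil _)
      (by exact_mod_cast le_trans (le_trans (le_max_right _ _) (le_max_right _ _)) hn1)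
    rw [div_le_iff₀ (by positivity)] at h1
    linarith
  have hnpos : (0 : ℝ) < n := by
    by_contra h
    push Not at h
    nlinarith
  set N : ℕ := ⌊x * (n : ℝ) + ε1 * (n : ℝ)⌋₊ with hN
  have hxn : 0 ≤ x * (n : ℝ) := by positivity
  have hNle : (N : ℝ) ≤ (x + ε1) * n := by
    have : (N : ℝ) ≤ x * (n : ℝ) + ε1 * (n : ℝ) := Nat.floor_le (by positivity)
    linarith
  have hNgt : x * (n : ℝ) + ε1 * (n : ℝ) - 1 < N := by
    have := Nat.lt_floor_add_one (x * (n : ℝ) + ε1 * (n : ℝ))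
    linarith
  have hNhalf : ε1 * n / 2 ≤ (N : ℝ) := by linarith
  have hN2 : 2 ≤ N := by
    have : (2 : ℝ) ≤ (N : ℝ) := by linarith
    exact_mod_cast this
  have hN0 : (0 : ℝ) < (N : ℝ) := by
    have : (2 : ℝ) ≤ (N : ℝ) := by exact_mod_cast hN2
    linarith
  -- colour classes
  have hφex : ∀ α : ↥P, Col G (U.filter (fun v => α.1 ∈ L v)) r N := by
    intro α
    apply hcol V G _ _ hxn hn0
    refine le_trans ?_ hbad
    have h1 : ((adjp G (U.filter (fun v => α.1 ∈ L v))).filter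
        (fun p : V × V => x * (n : ℝ) < (cod G (U.filter (fun v => α.1 ∈ L v)) p.1 p.2 : ℝ)))
        ⊆ badp G U (x * (n : ℝ)) := by
      intro p hp
      rw [mem_filter] at hp
      rw [badp, mem_filter]
      refine ⟨adjp_mono (subset_univ _) hp.1, lt_of_lt_of_le hp.2 ?_⟩
      exact_mod_cast cod_mono (filter_subset _ _) _ _
    exact_mod_cast card_le_card h1
  choose φ hφ1 hφ2 hφ3 using hφex
  set M : V → Finset ↥P := fun v => univ.filter (fun α : ↥P => α.1 ∈ L v) with hM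
  have hmemM : ∀ (v : V) (α : ↥P), α ∈ M v ↔ α.1 ∈ L v := by
    intro v α
    simp [hM]
  have hMcard : ∀ w ∈ U, (M w).card = ℓ := by
    intro w hw
    rw [← hLcard w hw]
    refine card_bij' (fun α _ => α.1) (fun c hc => ⟨c, hLP w hw hc⟩) ?_ ?_ ?_ ?_
    · intro α hα
      exact (hmemM w α).1 hα
    · intro c hc
      exact (hmemM w _).2 hc
    · intro α _
      rfl
    · intro c _
      rfl
  have hφN : ∀ w ∈ U, ∀ α ∈ M w, φ α w < N := by
    intro w hw α hα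
    exact hφ1 α w (mem_filter.2 ⟨hw, (hmemM w α).1 hα⟩)
  have hclass : ∀ α, ∀ i, ((U.filter (fun w => α ∈ M w)).filter (fun w => φ α w = i)).card ≤ r := by
    intro α i
    refine le_trans (card_le_card ?_) (hφ3 α i)
    intro w hw
    rw [mem_filter, mem_filter] at hw
    rw [mem_filter, mem_filter]
    exact ⟨⟨hw.1.1, (hmemM w α).1 hw.1.2⟩, hw.2⟩
  -- bound on the variance parameter
  set p : ℝ := 1 - 1 / (N : ℝ) with hp
  set Sgs : ℝ := ∑ y ∈ U ×ˢ U, ((p⁻¹) ^ (same M φ y.1 y.2) - 1) with hSgs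
  have hUn : (U.card : ℝ) ≤ n := by exact_mod_cast card_le_univ U
  have hℓnR : (ℓ : ℝ) ≤ n := by exact_mod_cast hℓn
  have hSg : Sgs ≤ K1 * n := by
    have h1 : ∀ y ∈ U ×ˢ U, ((p⁻¹) ^ (same M φ y.1 y.2) - 1)
        ≤ 2 / (N : ℝ) * Real.exp (4 / ε1) * (same M φ y.1 y.2 : ℝ) := by
      intro y hy
      rw [mem_product] at hy
      have hs : same M φ y.1 y.2 ≤ ℓ := by
        rw [← hMcard y.1 hy.1]
        exact card_le_card ((filter_subset _ _).trans inter_subset_left)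
      have hsR : (same M φ y.1 y.2 : ℝ) ≤ n := le_trans (by exact_mod_cast hs) hℓnR
      have h2 : 2 * (same M φ y.1 y.2 : ℝ) / N ≤ 4 / ε1 := by
        rw [div_le_div_iff₀ hN0 hε1]
        nlinarith
      have h3 := inv_pow_sub_one_le N (same M φ y.1 y.2) (4 / ε1) hN2 h2
      refine le_trans h3 (le_of_eq ?_)
      ring
    have h2 : ((∑ y ∈ U ×ˢ U, same M φ y.1 y.2 : ℕ) : ℝ) ≤ n * n * r := by
      have h3 := sum_same_le (M := M) (φ := φ) U ℓ r hMcard hclass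
      have h4 : ((∑ y ∈ U ×ˢ U, same M φ y.1 y.2 : ℕ) : ℝ) ≤ (U.card : ℝ) * ℓ * r := by
        exact_mod_cast h3
      refine le_trans h4 ?_
      apply mul_le_mul_of_nonneg_right _ (by positivity)
      exact mul_le_mul hUn hℓnR (Nat.cast_nonneg _) hnpos.le
    calc Sgs ≤ ∑ y ∈ U ×ˢ U, 2 / (N : ℝ) * Real.exp (4 / ε1) * (same M φ y.1 y.2 : ℝ) := sum_le_sum h1
      _ = 2 / (N : ℝ) * Real.exp (4 / ε1) * ((∑ y ∈ U ×ˢ U, same M φ y.1 y.2 : ℕ) : ℝ) := by
          rw [← mul_sum]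
          push_cast
          rfl
      _ ≤ 2 / (N : ℝ) * Real.exp (4 / ε1) * (n * n * r) := by
          apply mul_le_mul_of_nonneg_left h2
          have := Real.exp_pos (4 / ε1)
          positivity
      _ ≤ (4 / (ε1 * n)) * Real.exp (4 / ε1) * (n * n * r) := by
          apply mul_le_mul_of_nonneg_right _ (by positivity)
          apply mul_le_mul_of_nonneg_right _ (Real.exp_pos _).le
          rw [div_le_div_iff₀ hN0 (by positivity)]
          linarith
      _ = K1 * n := by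
          rw [hK1]
          field_simp
  -- averaging
  set q : ℝ := p ^ ℓ with hq
  let Sp : V × V → Finset V := fun y => U.filter (fun w => G.Adj y.1 w ∧ G.Adj y.2 w)
  have hSp : ∀ y, Sp y ⊆ U := fun y => filter_subset _ _
  let F : (↥P → Fin N) → ℝ := fun τ =>
    (∑ y : V × V, ((∑ w ∈ Sp y, Z N M φ τ w) - q * ((Sp y).card : ℝ)) ^ 2)
      + (n : ℝ) ^ 2 * ((∑ w ∈ U, Z N M φ τ w) - q * (U.card : ℝ)) ^ 2
  set T : ℝ := (N : ℝ) ^ Fintype.card ↥P with hT
  have hT0 : 0 < T := by positivity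
  have hFsum : ∑ τ : ↥P → Fin N, F τ ≤ ∑ τ : ↥P → Fin N, (2 * K1 * (n : ℝ) ^ 3) := by
    have hcardT : ∑ τ : ↥P → Fin N, (2 * K1 * (n : ℝ) ^ 3) = T * (2 * K1 * (n : ℝ) ^ 3) := by
      rw [sum_const, card_univ, Fintype.card_fun, Fintype.card_fin, nsmul_eq_mul]
      simp [hT]
    rw [hcardT]
    simp only [F]
    rw [sum_add_distrib, sum_comm, ← mul_sum]
    have h1 : ∑ y : V × V, ∑ τ : ↥P → Fin N,
        ((∑ w ∈ Sp y, Z N M φ τ w) - q * ((Sp y).card : ℝ)) ^ 2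
        ≤ ∑ y : V × V, T * Sgs := by
      apply sum_le_sum
      intro y _
      exact variance_le hN2 (Sp y) U (hSp y) ℓ hMcard hφN
    have h2 : ∑ τ : ↥P → Fin N, ((∑ w ∈ U, Z N M φ τ w) - q * (U.card : ℝ)) ^ 2 ≤ T * Sgs :=
      variance_le hN2 U U (subset_refl _) ℓ hMcard hφN
    have h3 : ∑ y : V × V, T * Sgs = (n : ℝ) ^ 2 * (T * Sgs) := by
      rw [sum_const, card_univ, Fintype.card_prod, nsmul_eq_mul]
      push_cast
      rw [← hn]
      ring
    have h4 : T * Sgs ≤ T * (K1 * n) := mul_le_mul_of_nonneg_left hSg hT0.le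
    have h5 : (n : ℝ) ^ 2 * (T * Sgs) ≤ (n : ℝ) ^ 2 * (T * (K1 * n)) :=
      mul_le_mul_of_nonneg_left h4 (by positivity)
    have h6 : (n : ℝ) ^ 2 * ∑ τ : ↥P → Fin N, ((∑ w ∈ U, Z N M φ τ w) - q * (U.card : ℝ)) ^ 2
        ≤ (n : ℝ) ^ 2 * (T * (K1 * n)) :=
      mul_le_mul_of_nonneg_left (le_trans h2 h4) (by positivity)
    calc _ ≤ (n : ℝ) ^ 2 * (T * (K1 * n)) + (n : ℝ) ^ 2 * (T * (K1 * n)) := by
          apply add_le_add _ h6
          rw [h3] at h1
          exact le_trans h1 h5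
      _ = _ := by ring
  obtain ⟨τ, _, hτ⟩ := exists_le_of_sum_le (s := (univ : Finset (↥P → Fin N))) (by
    have : Nonempty (Fin N) := ⟨⟨0, by omega⟩⟩
    exact univ_nonempty) hFsum
  -- the uncovered set
  set U' : Finset V := U.filter (fun w => ∀ α ∈ M w, φ α w ≠ (τ α : ℕ)) with hU'
  have hZsum : ∀ S ⊆ U, ∑ w ∈ S, Z N M φ τ w
      = ((S.filter (fun w => ∀ α ∈ M w, φ α w ≠ (τ α : ℕ))).card : ℝ) := by
    intro S _
    rw [card_filter]
    push_cast
    apply sum_congr rfl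
    intro w _
    by_cases h : ∀ α ∈ M w, φ α w ≠ (τ α : ℕ)
    · rw [if_pos h, Z_eq_one h]
    · rw [if_neg h, Z_eq_zero h]
  have hqexp : q ≤ Real.exp (-(lam / (x + ε1))) := by
    apply one_sub_pow_le N ℓ lam (x + ε1) hN2 (by positivity)
    calc lam * (N : ℝ) ≤ max lam 0 * (N : ℝ) :=
          mul_le_mul_of_nonneg_right (le_max_left _ _) hN0.le
      _ ≤ max lam 0 * ((x + ε1) * n) := mul_le_mul_of_nonneg_left hNle (le_max_right _ _)
      _ = (x + ε1) * (max lam 0 * n) := by ring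
      _ ≤ (x + ε1) * ℓ := by
          apply mul_le_mul_of_nonneg_left _ (by positivity)
          rcases max_cases lam 0 with h | h
          · rw [h.1]; exact hlam
          · rw [h.1]; simp
  have hp0 : 0 ≤ p := by
    rw [hp, sub_nonneg, div_le_one hN0]
    have : (2 : ℝ) ≤ (N : ℝ) := by exact_mod_cast hN2
    linarith
  have hq0 : 0 ≤ q := pow_nonneg hp0 _
  refine ⟨U', filter_subset _ _, fun w => if h : ∃ α, α ∈ M w ∧ φ α w = (τ α : ℕ) then
    (Classical.choose h).1 else 0, ?_, ?_, ?_, ?_⟩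
  · intro v hv
    rw [mem_sdiff] at hv
    have h1 : ∃ α, α ∈ M v ∧ φ α v = (τ α : ℕ) := by
      by_contra h
      push Not at h
      exact hv.2 (mem_filter.2 ⟨hv.1, h⟩)
    simp only [h1, dif_pos]
    exact (hmemM v _).1 (Classical.choose_spec h1).1
  · intro u hu v hv huv
    rw [mem_sdiff] at hu hv
    have h1 : ∃ α, α ∈ M v ∧ φ α v = (τ α : ℕ) := by
      by_contra h
      push Not at h
      exact hv.2 (mem_filter.2 ⟨hv.1, h⟩)
    have h2 : ∃ α, α ∈ M u ∧ φ α u = (τ α : ℕ) := by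
      by_contra h
      push Not at h
      exact hu.2 (mem_filter.2 ⟨hu.1, h⟩)
    simp only [h1, h2, dif_pos]
    intro heq
    have h3 := Classical.choose_spec h1
    have h4 := Classical.choose_spec h2
    have h5 : Classical.choose h2 = Classical.choose h1 := Subtype.ext heq
    rw [h5] at h4
    refine hφ2 (Classical.choose h1) u (mem_filter.2 ⟨hu.1, (hmemM u _).1 h4.1⟩) v
      (mem_filter.2 ⟨hv.1, (hmemM v _).1 h3.1⟩) huv ?_
    rw [h3.2, h4.2]
  · -- size of U'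
    have h1 : (n : ℝ) ^ 2 * ((∑ w ∈ U, Z N M φ τ w) - q * (U.card : ℝ)) ^ 2 ≤ 2 * K1 * (n : ℝ) ^ 3 := by
      refine le_trans ?_ hτ
      simp only [F]
      have : 0 ≤ ∑ y : V × V, ((∑ w ∈ Sp y, Z N M φ τ w) - q * ((Sp y).card : ℝ)) ^ 2 :=
        sum_nonneg fun y _ => sq_nonneg _
      linarith
    have h2 : ((∑ w ∈ U, Z N M φ τ w) - q * (U.card : ℝ)) ^ 2 ≤ (ε2 * n) ^ 2 := by
      have h3 : (n : ℝ) ^ 2 * ((∑ w ∈ U, Z N M φ τ w) - q * (U.card : ℝ)) ^ 2
          ≤ (n : ℝ) ^ 2 * (2 * K1 * n) := by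
        calc _ ≤ _ := h1
          _ = _ := by ring
      have h4 := le_of_mul_le_mul_left h3 (by positivity)
      refine le_trans h4 ?_
      calc 2 * K1 * n ≤ ε2 ^ 2 * n * n := mul_le_mul_of_nonneg_right hnK hnpos.le
        _ = (ε2 * n) ^ 2 := by ring
    have h3 := abs_le_of_sq_le_sq h2 (by positivity)
    have h4 := hZsum U (subset_refl _)
    have h5 : (U'.card : ℝ) ≤ q * U.card + ε2 * n := by
      rw [hU', ← h4]
      linarith [(abs_le.1 h3).2]
    refine le_trans h5 ?_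
    have := mul_le_mul_of_nonneg_right hqexp (Nat.cast_nonneg (α := ℝ) U.card)
    linarith
  · -- bad pairs
    set Dv : Finset (V × V) := univ.filter (fun y : V × V =>
      (ε2 * n) ^ 2 ≤ ((∑ w ∈ Sp y, Z N M φ τ w) - q * ((Sp y).card : ℝ)) ^ 2) with hDv
    have hDvcard : (Dv.card : ℝ) ≤ 2 * K1 / ε2 ^ 2 * n := by
      have h1 : (Dv.card : ℝ) * (ε2 * n) ^ 2 ≤ 2 * K1 * (n : ℝ) ^ 3 := by
        refine le_trans ?_ hτ
        simp only [F]
        have h2 : (Dv.card : ℝ) * (ε2 * n) ^ 2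
            ≤ ∑ y ∈ Dv, ((∑ w ∈ Sp y, Z N M φ τ w) - q * ((Sp y).card : ℝ)) ^ 2 := by
          have := card_nsmul_le_sum Dv
            (fun y => ((∑ w ∈ Sp y, Z N M φ τ w) - q * ((Sp y).card : ℝ)) ^ 2) ((ε2 * n) ^ 2)
            (fun y hy => (mem_filter.1 hy).2)
          rwa [nsmul_eq_mul] at this
        have h3 : ∑ y ∈ Dv, ((∑ w ∈ Sp y, Z N M φ τ w) - q * ((Sp y).card : ℝ)) ^ 2
            ≤ ∑ y : V × V, ((∑ w ∈ Sp y, Z N M φ τ w) - q * ((Sp y).card : ℝ)) ^ 2 :=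
          sum_le_sum_of_subset_of_nonneg (subset_univ _) fun y _ _ => sq_nonneg _
        have h4 : 0 ≤ (n : ℝ) ^ 2 * ((∑ w ∈ U, Z N M φ τ w) - q * (U.card : ℝ)) ^ 2 := by positivity
        linarith
      have h2 : (Dv.card : ℝ) * (ε2 * n) ^ 2 ≤ (2 * K1 / ε2 ^ 2 * n) * (ε2 * n) ^ 2 := by
        refine le_trans h1 (le_of_eq ?_)
        field_simp
      exact le_of_mul_le_mul_right h2 (by positivity)
    have hsub : badp G U' ((x * Real.exp (-(lam / (x + ε1))) + ε2) * (n : ℝ))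
        ⊆ badp G U (x * (n : ℝ)) ∪ Dv := by
      intro y hy
      rw [badp, mem_filter] at hy
      rw [mem_union]
      by_contra hcon
      push Not at hcon
      obtain ⟨hc1, hc2⟩ := hcon
      have h1 : (cod G U y.1 y.2 : ℝ) ≤ x * n := by
        by_contra h
        push Not at h
        exact hc1 (mem_filter.2 ⟨hy.1, h⟩)
      have h2 : ((∑ w ∈ Sp y, Z N M φ τ w) - q * ((Sp y).card : ℝ)) ^ 2 < (ε2 * n) ^ 2 := by
        by_contra h
        push Not at h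
        exact hc2 (mem_filter.2 ⟨mem_univ _, h⟩)
      have h3 := abs_lt_of_sq_lt_sq h2 (by positivity)
      have h4 : (cod G U' y.1 y.2 : ℝ) = ∑ w ∈ Sp y, Z N M φ τ w := by
        rw [hZsum (Sp y) (hSp y)]
        simp only [cod, hU', Sp, filter_filter]
        congr 2
        ext w
        simp only [mem_filter]
        tauto
      have h5 : ((Sp y).card : ℝ) = (cod G U y.1 y.2 : ℝ) := rfl
      have h6 : (cod G U' y.1 y.2 : ℝ) < q * (cod G U y.1 y.2 : ℝ) + ε2 * n := by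
        rw [h4, ← h5]
        linarith [(abs_lt.1 h3).2]
      have h7 : q * (cod G U y.1 y.2 : ℝ) ≤ Real.exp (-(lam / (x + ε1))) * (x * n) :=
        mul_le_mul hqexp h1 (Nat.cast_nonneg _) (Real.exp_pos _).le
      have h8 := hy.2
      have h9 : (x * Real.exp (-(lam / (x + ε1))) + ε2) * (n : ℝ)
          = Real.exp (-(lam / (x + ε1))) * (x * n) + ε2 * n := by ring
      rw [h9] at h8
      linarith
    have h1 : ((badp G U' ((x * Real.exp (-(lam / (x + ε1))) + ε2) * (n : ℝ))).card : ℝ)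
        ≤ ((badp G U (x * (n : ℝ))).card : ℝ) + (Dv.card : ℝ) := by
      exact_mod_cast le_trans (card_le_card hsub) (card_union_le _ _)
    linarith

end Pool.Agent.Lib_helper8.Vu
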