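import Pool.Agent.Lib_helper8.Vu.Moment

/-!
Random splitting of the colours into batches.
-/

set_option autoImplicit false

namespace Pool.Agent.Lib_helper8.Vu

open Finset

theorem exp_neg_le_inv {s : ℝ} (hs : 0 ≤ s) : Real.exp (-s) ≤ 1 / (1 + s) := by
  rw [Real.exp_neg, ← one_div]
  apply one_div_le_one_div_of_le (by linarith)
  have := Real.add_one_le_exp s
  linarith

theorem term_lt_one {α : Type*} [Fintype α] (f : α → ℝ) (hf : ∀ a, 0 ≤ f a) (h : ∑ a, f a < 1)
    (a : α) : f a < 1 :=
  lt_of_le_of_lt (single_le_sum (fun b _ => hf b) (mem_univ a)) h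

/-- Expectation of `exp (-s Y)` for one vertex and one batch. -/
theorem sum_exp_batch {ι : Type*} [Fintype ι] [DecidableEq ι] (K : ℕ) (M : Finset ι)
    (i : Fin K) (s : ℝ) :
    ∑ g : ι → Fin K, Real.exp (-s * ((M.filter (fun c => g c = i)).card : ℝ))
      = (K : ℝ) ^ (Fintype.card ι - M.card) * ((K : ℝ) - 1 + Real.exp (-s)) ^ M.card := by
  have h1 : ∀ g : ι → Fin K, Real.exp (-s * ((M.filter (fun c => g c = i)).card : ℝ))
      = ∏ c, (if c ∈ M ∧ g c = i then Real.exp (-s) else 1) := by
    intro g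
    rw [prod_ite, prod_const, prod_const_one, mul_one, ← Real.exp_nat_mul]
    congr 1
    have : (univ.filter (fun c => c ∈ M ∧ g c = i)) = M.filter (fun c => g c = i) := by
      ext c
      simp
    rw [this]
    ring
  rw [sum_congr rfl fun g _ => h1 g,
    sum_prod_fun (fun c (j : Fin K) => if c ∈ M ∧ j = i then Real.exp (-s) else 1)]
  have h2 : ∀ c : ι, ∑ j : Fin K, (if c ∈ M ∧ j = i then Real.exp (-s) else 1)
      = if c ∈ M then ((K : ℝ) - 1 + Real.exp (-s)) else (K : ℝ) := by
    intro c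
    by_cases hc : c ∈ M
    · simp only [hc, true_and, if_true]
      have h3 : ∀ j : Fin K, (if j = i then Real.exp (-s) else (1 : ℝ))
          = 1 + (if j = i then (Real.exp (-s) - 1) else 0) := by
        intro j
        split_ifs <;> ring
      rw [sum_congr rfl fun j _ => h3 j, sum_add_distrib, sum_ite_eq']
      simp
      ring
    · simp only [hc, false_and, if_false]
      simp
  rw [prod_congr rfl fun c _ => h2 c, prod_ite, prod_const, prod_const]
  have h4 : (univ.filter (fun c => c ∈ M)) = M := by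
    ext c; simp
  have h5 : (univ.filter (fun c => c ∉ M)).card = Fintype.card ι - M.card := by
    have : (univ.filter (fun c => c ∉ M)) = Mᶜ := by
      ext c; simp
    rw [this, card_compl]
  rw [h4, h5]
  ring

theorem split (K : ℕ) (hK : 1 ≤ K) (a μ : ℝ) (hμ : 0 < μ) (hKμ : (K : ℝ) * μ < a) :
    ∃ n0 : ℕ, ∀ (V : Type) [Fintype V] (L : V → Finset ℕ), n0 ≤ Fintype.card V →
      (∀ v, a * (Fintype.card V : ℝ) ≤ ((L v).card : ℝ)) →
      ∃ g : ℕ → ℕ, ∀ v, ∀ i < K,
        μ * (Fintype.card V : ℝ) ≤ (((L v).filter (fun c => g c = i)).card : ℝ) := by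
  classical
  have hKR : (1 : ℝ) ≤ (K : ℝ) := by exact_mod_cast hK
  have hK0 : (0 : ℝ) < (K : ℝ) := by linarith
  have ha : 0 < a := lt_trans (by positivity) hKμ
  set d : ℝ := a / K - μ with hd
  have hd0 : 0 < d := by
    rw [hd, sub_pos, lt_div_iff₀ hK0]
    linarith
  set s : ℝ := d * K / (2 * a) with hs
  have hs0 : 0 < s := by positivity
  set c0 : ℝ := s * d / 2 with hc0
  have hc00 : 0 < c0 := by positivity
  refine ⟨⌈2 * (K : ℝ) / c0 ^ 2⌉₊ + 1, ?_⟩
  intro V _ L hV hL
  set n := Fintype.card V with hn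
  have hnpos : (0 : ℝ) < (n : ℝ) := by
    have : 0 < n := by omega
    exact_mod_cast this
  have hnbig : 2 * (K : ℝ) / c0 ^ 2 < n := by
    refine lt_of_le_of_lt (Nat.le_ceil _) ?_
    exact_mod_cast hV
  let P : Finset ℕ := univ.biUnion L
  let M : V → Finset ↥P := fun v => univ.filter (fun c : ↥P => c.1 ∈ L v)
  have hmem : ∀ v (c : ↥P), c ∈ M v ↔ c.1 ∈ L v := by
    intro v c
    simp [M]
  have hLP : ∀ v, L v ⊆ P := fun v => subset_biUnion_of_mem L (mem_univ v)
  have hMcard : ∀ v, (M v).card = (L v).card := by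
    intro v
    refine card_bij' (fun α _ => α.1) (fun c hc => ⟨c, hLP v hc⟩) ?_ ?_ ?_ ?_
    · intro α hα
      exact (hmem v α).1 hα
    · intro c hc
      exact (hmem v _).2 hc
    · intro α _
      rfl
    · intro c _
      rfl
  set T : ℝ := (K : ℝ) ^ Fintype.card ↥P with hT
  have hT0 : 0 < T := by positivity
  -- expectation bound
  have hE : ∀ v (i : Fin K), ∑ g : ↥P → Fin K,
      Real.exp (s * (μ * n) + (-s * (((M v).filter (fun c => g c = i)).card : ℝ)))
        ≤ T * Real.exp (-(c0 * n)) := by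
    intro v i
    have h0 : ∀ g : ↥P → Fin K,
        Real.exp (s * (μ * n) + (-s * (((M v).filter (fun c => g c = i)).card : ℝ)))
        = Real.exp (s * (μ * n)) * Real.exp (-s * (((M v).filter (fun c => g c = i)).card : ℝ)) :=
      fun g => Real.exp_add _ _
    rw [sum_congr rfl fun g _ => h0 g, ← mul_sum, sum_exp_batch]
    have hle : (M v).card ≤ Fintype.card ↥P := card_le_univ _
    have h1 : (K : ℝ) - 1 + Real.exp (-s) ≤ K * Real.exp (-((s - s ^ 2) / K)) := by
      have h2 : Real.exp (-s) ≤ 1 - (s - s ^ 2) := by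
        refine le_trans (exp_neg_le_inv hs0.le) ?_
        rw [div_le_iff₀ (by linarith)]
        have : (1 - (s - s ^ 2)) * (1 + s) = 1 + s ^ 3 := by ring
        rw [this]
        have : 0 < s ^ 3 := by positivity
        linarith
      have h3 : 1 - (s - s ^ 2) / K ≤ Real.exp (-((s - s ^ 2) / K)) := Real.one_sub_le_exp_neg _
      have h4 : (K : ℝ) - 1 + Real.exp (-s) ≤ K * (1 - (s - s ^ 2) / K) := by
        have : (K : ℝ) * (1 - (s - s ^ 2) / K) = K - (s - s ^ 2) := by
          field_simp
        rw [this]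
        linarith
      exact le_trans h4 (mul_le_mul_of_nonneg_left h3 hK0.le)
    have h5 : ((K : ℝ) - 1 + Real.exp (-s)) ^ (M v).card
        ≤ (K : ℝ) ^ (M v).card * Real.exp (-((s - s ^ 2) / K) * (M v).card) := by
      have h6 : 0 ≤ (K : ℝ) - 1 + Real.exp (-s) := by
        have := Real.exp_pos (-s)
        linarith
      calc ((K : ℝ) - 1 + Real.exp (-s)) ^ (M v).card
          ≤ (K * Real.exp (-((s - s ^ 2) / K))) ^ (M v).card := pow_le_pow_left₀ h6 h1 _
        _ = (K : ℝ) ^ (M v).card * Real.exp (-((s - s ^ 2) / K) * (M v).card) := by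
            rw [mul_pow, ← Real.exp_nat_mul]
            congr 2
            ring
    have h7 : (K : ℝ) ^ (Fintype.card ↥P - (M v).card) * ((K : ℝ) - 1 + Real.exp (-s)) ^ (M v).card
        ≤ T * Real.exp (-((s - s ^ 2) / K) * (M v).card) := by
      calc _ ≤ (K : ℝ) ^ (Fintype.card ↥P - (M v).card)
            * ((K : ℝ) ^ (M v).card * Real.exp (-((s - s ^ 2) / K) * (M v).card)) :=
            mul_le_mul_of_nonneg_left h5 (by positivity)
        _ = _ := by
            rw [← mul_assoc, ← pow_add, Nat.sub_add_cancel hle]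
    have hs1 : s ≤ 1 / 2 := by
      rw [hs, div_le_iff₀ (by positivity)]
      have : d * K = a - μ * K := by
        rw [hd]; field_simp
      rw [this]
      have : 0 < μ * K := by positivity
      linarith
    have hss : 0 ≤ s - s ^ 2 := by nlinarith
    have h8 : Real.exp (-((s - s ^ 2) / K) * (M v).card)
        ≤ Real.exp (-((s - s ^ 2) / K) * (a * n)) := by
      apply Real.exp_le_exp.2
      have h9 : a * n ≤ ((M v).card : ℝ) := by
        rw [hMcard]
        exact hL v
      have h10 : 0 ≤ (s - s ^ 2) / K := by positivity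
      have := mul_le_mul_of_nonneg_left h9 h10
      linarith
    have h11 : Real.exp (s * (μ * n)) * Real.exp (-((s - s ^ 2) / K) * (a * n))
        = Real.exp (-(c0 * n)) := by
      rw [← Real.exp_add]
      congr 1
      have h12 : s * (μ * n) + -((s - s ^ 2) / K) * (a * n) = s * n * (μ - a / K + a / K * s) := by
        ring
      have h13 : a / K * s = d / 2 := by
        rw [hs]
        field_simp
      rw [h12, h13, hc0, hd]
      ring
    calc Real.exp (s * (μ * n)) * ((K : ℝ) ^ (Fintype.card ↥P - (M v).card)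
          * ((K : ℝ) - 1 + Real.exp (-s)) ^ (M v).card)
        ≤ Real.exp (s * (μ * n)) * (T * Real.exp (-((s - s ^ 2) / K) * (a * n))) := by
          apply mul_le_mul_of_nonneg_left _ (Real.exp_pos _).le
          exact le_trans h7 (mul_le_mul_of_nonneg_left h8 hT0.le)
      _ = T * (Real.exp (s * (μ * n)) * Real.exp (-((s - s ^ 2) / K) * (a * n))) := by ring
      _ = T * Real.exp (-(c0 * n)) := by rw [h11]
  -- total
  have hsmall : (n : ℝ) * K * Real.exp (-(c0 * n)) < 1 := by
    have h1 : 1 + c0 * n + (c0 * n) ^ 2 / 2 ≤ Real.exp (c0 * n) :=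
      Real.quadratic_le_exp_of_nonneg (by positivity)
    have h2 : (n : ℝ) * K < (c0 * n) ^ 2 / 2 := by
      rw [div_lt_iff₀ (by positivity)] at hnbig
      have h3 : (c0 * n) ^ 2 / 2 = (n : ℝ) * (n * c0 ^ 2 / 2) := by ring
      rw [h3]
      apply mul_lt_mul_of_pos_left _ hnpos
      linarith
    have h3 : (n : ℝ) * K < Real.exp (c0 * n) := by
      have : 0 < c0 * n := by positivity
      linarith
    rw [Real.exp_neg, ← div_eq_mul_inv, div_lt_one (Real.exp_pos _)]
    exact h3
  have hsum : ∑ g : ↥P → Fin K, ∑ y : V × Fin K,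
      Real.exp (s * (μ * n) + (-s * (((M y.1).filter (fun c => g c = y.2)).card : ℝ)))
      < ∑ g : ↥P → Fin K, (1 : ℝ) := by
    have hcardT : ∑ g : ↥P → Fin K, (1 : ℝ) = T := by
      rw [sum_const, card_univ, Fintype.card_fun, Fintype.card_fin]
      simp [hT]
    rw [hcardT, sum_comm]
    calc _ ≤ ∑ y : V × Fin K, T * Real.exp (-(c0 * n)) := sum_le_sum fun y _ => hE y.1 y.2
      _ = T * ((n : ℝ) * K * Real.exp (-(c0 * n))) := by
          rw [sum_const, card_univ, Fintype.card_prod, Fintype.card_fin, nsmul_eq_mul]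
          push_cast
          rw [← hn]
          ring
      _ < T * 1 := mul_lt_mul_of_pos_left hsmall hT0
      _ = T := mul_one T
  obtain ⟨g, _, hg⟩ := exists_lt_of_sum_lt hsum
  refine ⟨fun c => if h : c ∈ P then (g ⟨c, h⟩ : ℕ) else 0, ?_⟩
  intro v i hi
  have h1 := term_lt_one _ (fun y => (Real.exp_pos _).le) hg (v, (⟨i, hi⟩ : Fin K))
  have h2 := Real.exp_lt_one_iff.1 h1
  have h3 : μ * n < (((M v).filter (fun c => g c = (⟨i, hi⟩ : Fin K))).card : ℝ) := by
    by_contra h
    push Not at h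
    nlinarith
  refine le_trans h3.le ?_
  have h4 : ((M v).filter (fun c => g c = (⟨i, hi⟩ : Fin K))).card
      ≤ ((L v).filter (fun c => (if h : c ∈ P then (g ⟨c, h⟩ : ℕ) else 0) = i)).card := by
    apply card_le_card_of_injOn (fun c => c.1)
    · intro c hc
      rw [mem_coe, mem_filter] at hc
      rw [mem_coe, mem_filter]
      refine ⟨(hmem v c).1 hc.1, ?_⟩
      rw [dif_pos c.2]
      have : g c = (⟨i, hi⟩ : Fin K) := hc.2
      rw [Subtype.coe_eta, this]
    · intro a _ b _ hab
      exact Subtype.ext hab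
  exact_mod_cast h4

end Pool.Agent.Lib_helper8.Vu
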