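import Pool.Agent.Lib_helper8.Vu.Col

/-!
Independent transversals in families of pairwise not-too-dense uniform sets, and packings.
-/

set_option autoImplicit false

namespace Pool.Agent.Lib_helper8.Vu

open Finset

variable {V : Type*} [DecidableEq V] (G : SimpleGraph V) [DecidableRel G.Adj]

/-- No large pair of subsets of `A`, `B` has edge density more than `1 - η`. -/
def NotDense (ε η : ℝ) (A B : Finset V) : Prop :=
  ∀ A' ⊆ A, ∀ B' ⊆ B, ε * (A.card : ℝ) ≤ (A'.card : ℝ) → ε * (B.card : ℝ) ≤ (B'.card : ℝ) →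
    ((∑ a ∈ A', (B'.filter (fun b => G.Adj a b)).card : ℕ) : ℝ)
      ≤ (1 - η) * ((A'.card : ℝ) * (B'.card : ℝ))

variable {G}

theorem transversal [Nonempty V] {ι : Type*} [DecidableEq ι] (A : ι → Finset V) (ε η : ℝ)
    (hε : 0 < ε) (hη : 0 < η) (hη1 : η ≤ 1) :
    ∀ (n : ℕ) (Q : Finset ι) (_ : Q.card = n) (β : ℝ) (B : ι → Finset V), 0 < β →
      (n : ℝ) * ε ≤ β * η ^ n → (∀ i ∈ Q, B i ⊆ A i) →
      (∀ i ∈ Q, β * ((A i).card : ℝ) ≤ ((B i).card : ℝ)) → (∀ i ∈ Q, (A i).Nonempty) →
      (∀ i ∈ Q, ∀ j ∈ Q, i ≠ j → NotDense G ε η (A i) (A j)) →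
      ∃ f : ι → V, (∀ i ∈ Q, f i ∈ B i) ∧ ∀ i ∈ Q, ∀ j ∈ Q, i ≠ j → ¬ G.Adj (f i) (f j) := by
  intro n
  induction n with
  | zero =>
    intro Q hQ β B _ _ _ _ _ _
    rw [card_eq_zero] at hQ
    subst hQ
    exact ⟨fun _ => Classical.arbitrary V, by simp, by simp⟩
  | succ n ih =>
    intro Q hQ β B hβ hn hBA hB hA hND
    obtain ⟨i0, Q', hi0, rfl, hQ'⟩ := card_eq_succ.1 hQ
    -- basic inequalities
    have hηn : 0 < η ^ (n + 1) := pow_pos hη _
    have hηn1 : η ^ (n + 1) ≤ 1 := pow_le_one₀ hη.le hη1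
    have hnβ : ((n : ℝ) + 1) * ε ≤ β := by
      have h1 : ((n : ℝ) + 1) * ε ≤ β * η ^ (n + 1) := by exact_mod_cast hn
      nlinarith
    have hεβ : ε ≤ β := by
      have : (0 : ℝ) ≤ n := Nat.cast_nonneg n
      nlinarith [mul_nonneg this hε.le]
    have hi0Q : i0 ∈ insert i0 Q' := mem_insert_self _ _
    have hA0 : 0 < ((A i0).card : ℝ) := by
      exact_mod_cast (hA i0 hi0Q).card_pos
    have hne : ∀ j ∈ Q', i0 ≠ j := by
      rintro j hj rfl
      exact hi0 hj
    -- bad vertices
    set X : ι → Finset V := fun j => (B i0).filter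
      (fun b => (1 - η) * ((B j).card : ℝ) < (((B j).filter (fun c => G.Adj b c)).card : ℝ)) with hX
    have hXcard : ∀ j ∈ Q', ((X j).card : ℝ) ≤ ε * ((A i0).card : ℝ) := by
      intro j hj
      by_contra hcon
      push Not at hcon
      have hjQ : j ∈ insert i0 Q' := mem_insert_of_mem hj
      have hND' := hND i0 hi0Q j hjQ (hne j hj) (X j)
        ((filter_subset _ _).trans (hBA i0 hi0Q)) (B j) (hBA j hjQ) hcon.le
        (le_trans (mul_le_mul_of_nonneg_right hεβ (Nat.cast_nonneg _)) (hB j hjQ))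
      have hpos : 0 < (X j).card := by
        have : (0 : ℝ) < ((X j).card : ℝ) := lt_of_le_of_lt (by positivity) hcon
        exact_mod_cast this
      have hlt : (1 - η) * (((X j).card : ℝ) * ((B j).card : ℝ))
          < ((∑ a ∈ X j, ((B j).filter (fun b => G.Adj a b)).card : ℕ) : ℝ) := by
        have h1 : ∑ a ∈ X j, (1 - η) * ((B j).card : ℝ)
            < ∑ a ∈ X j, ((((B j).filter (fun b => G.Adj a b)).card : ℕ) : ℝ) := by
          apply sum_lt_sum_of_nonempty (card_pos.1 hpos)
          intro a ha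
          exact (mem_filter.1 ha).2
        rw [sum_const, nsmul_eq_mul] at h1
        push_cast
        calc (1 - η) * (((X j).card : ℝ) * ((B j).card : ℝ))
            = ((X j).card : ℝ) * ((1 - η) * ((B j).card : ℝ)) := by ring
          _ < _ := h1
      linarith
    have hunion : ((Q'.biUnion X).card : ℝ) < ((B i0).card : ℝ) := by
      have h1 : ((Q'.biUnion X).card : ℝ) ≤ ∑ j ∈ Q', ((X j).card : ℝ) := by
        exact_mod_cast card_biUnion_le
      have h2 : ∑ j ∈ Q', ((X j).card : ℝ) ≤ (n : ℝ) * (ε * ((A i0).card : ℝ)) := by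
        have := sum_le_card_nsmul Q' (fun j => ((X j).card : ℝ)) _ hXcard
        rwa [hQ', nsmul_eq_mul] at this
      have h3 : (n : ℝ) * (ε * ((A i0).card : ℝ)) < β * ((A i0).card : ℝ) := by
        rw [← mul_assoc]
        apply mul_lt_mul_of_pos_right _ hA0
        linarith
      have h4 := hB i0 hi0Q
      linarith
    obtain ⟨b, hb, hbX⟩ := exists_mem_notMem_of_card_lt_card
      (show (Q'.biUnion X).card < (B i0).card by exact_mod_cast hunion)
    have hbgood : ∀ j ∈ Q', (((B j).filter (fun c => G.Adj b c)).card : ℝ)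
        ≤ (1 - η) * ((B j).card : ℝ) := by
      intro j hj
      by_contra hcon
      push Not at hcon
      apply hbX
      rw [mem_biUnion]
      exact ⟨j, hj, mem_filter.2 ⟨hb, hcon⟩⟩
    -- recursion
    obtain ⟨f, hf1, hf2⟩ := ih Q' hQ' (β * η) (fun j => (B j).filter (fun c => ¬ G.Adj b c))
      (mul_pos hβ hη) (by
        have h1 : ((n : ℝ) + 1) * ε ≤ β * η ^ (n + 1) := by exact_mod_cast hn
        have h2 : (β * η) * η ^ n = β * η ^ (n + 1) := by ring
        rw [h2]
        linarith)
      (fun j hj => (filter_subset _ _).trans (hBA j (mem_insert_of_mem hj)))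
      (fun j hj => by
        have h1 := hbgood j hj
        have h2 : (((B j).filter (fun c => G.Adj b c)).card : ℝ)
            + (((B j).filter (fun c => ¬ G.Adj b c)).card : ℝ) = ((B j).card : ℝ) := by
          exact_mod_cast card_filter_add_card_filter_not _
        have h3 := hB j (mem_insert_of_mem hj)
        have h4 : β * η * ((A j).card : ℝ) ≤ η * ((B j).card : ℝ) := by
          calc β * η * ((A j).card : ℝ) = η * (β * ((A j).card : ℝ)) := by ring
            _ ≤ η * ((B j).card : ℝ) := mul_le_mul_of_nonneg_left h3 hη.le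
        linarith)
      (fun j hj => hA j (mem_insert_of_mem hj))
      (fun i hi j hj hij => hND i (mem_insert_of_mem hi) j (mem_insert_of_mem hj) hij)
    refine ⟨fun i => if i = i0 then b else f i, ?_, ?_⟩
    · intro i hi
      by_cases hii : i = i0
      · simp only [hii, if_true]
        exact hb
      · simp only [hii, if_false]
        exact (mem_filter.1 (hf1 i ((mem_insert.1 hi).resolve_left hii))).1
    · intro i hi j hj hij
      by_cases hii : i = i0
      · have hji : ¬ j = i0 := fun h => hij (hii.trans h.symm)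
        simp only [hii, hji, if_true, if_false]
        exact (mem_filter.1 (hf1 j ((mem_insert.1 hj).resolve_left hji))).2
      · by_cases hji : j = i0
        · simp only [hii, hji, if_true, if_false]
          intro hadj
          exact (mem_filter.1 (hf1 i ((mem_insert.1 hi).resolve_left hii))).2 hadj.symm
        · simp only [hii, hji, if_false]
          exact hf2 i ((mem_insert.1 hi).resolve_left hii) j ((mem_insert.1 hj).resolve_left hji)
            hij

theorem packing {ι : Type*} [DecidableEq ι] (A : ι → Finset V) (ε η β : ℝ)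
    (hε : 0 < ε) (hη : 0 < η) (hη1 : η ≤ 1) (hβ : 0 < β) (Q : Finset ι) (hQ : Q.Nonempty)
    (hn : (Q.card : ℝ) * ε ≤ β * η ^ Q.card)
    (hND : ∀ i ∈ Q, ∀ j ∈ Q, i ≠ j → NotDense G ε η (A i) (A j)) (t0 : ℕ)
    (ht0 : ∀ i ∈ Q, β * ((A i).card : ℝ) ≤ (t0 : ℝ)) :
    ∀ (s : ℕ) (B : ι → Finset V), (∀ i ∈ Q, B i ⊆ A i) → (∀ i ∈ Q, (B i).card = s) →
      Col G (Q.biUnion B) Q.card (s + Q.card * t0) := by
  intro s
  induction s with
  | zero =>
    intro B _ hB
    have : Q.biUnion B = ∅ := by
      apply card_eq_zero.1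
      apply Nat.le_zero.1
      refine le_trans card_biUnion_le ?_
      rw [sum_eq_zero hB]
    rw [this]
    exact Col.empty _ _
  | succ s ih =>
    intro B hBA hB
    have hQ1 : 1 ≤ Q.card := hQ.card_pos
    by_cases hst : s + 1 ≤ t0
    · apply Col.of_card_le hQ1
      refine le_trans card_biUnion_le ?_
      rw [sum_congr rfl hB, sum_const, smul_eq_mul]
      have := Nat.mul_le_mul_left Q.card hst
      omega
    · have hBA' : ∀ i ∈ Q, β * ((A i).card : ℝ) ≤ ((B i).card : ℝ) := by
        intro i hi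
        rw [hB i hi]
        refine le_trans (ht0 i hi) ?_
        exact_mod_cast (by omega : t0 ≤ s + 1)
      have hne : ∀ i ∈ Q, (B i).Nonempty := by
        intro i hi
        rw [← card_pos, hB i hi]
        omega
      obtain ⟨i1, hi1⟩ := hQ
      obtain ⟨v1, _⟩ := hne i1 hi1
      have : Nonempty V := ⟨v1⟩
      obtain ⟨f, hf1, hf2⟩ := transversal A ε η hε hη hη1 Q.card Q rfl β B hβ hn hBA hBA'
        (fun i hi => (hne i hi).mono (hBA i hi)) hND
      have h1 : Col G (Q.image f) Q.card 1 := by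
        apply Col.indep _ card_image_le
        intro u hu v hv
        rw [mem_image] at hu hv
        obtain ⟨i, hi, rfl⟩ := hu
        obtain ⟨j, hj, rfl⟩ := hv
        by_cases hij : i = j
        · subst hij
          exact G.irrefl
        · exact hf2 i hi j hj hij
      have h2 := ih (fun i => (B i).erase (f i))
        (fun i hi => (erase_subset _ _).trans (hBA i hi))
        (fun i hi => by rw [card_erase_of_mem (hf1 i hi), hB i hi]; rfl)
      have h3 := h1.union h2
      refine h3.mono ?_ le_rfl (by omega)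
      intro v hv
      rw [mem_biUnion] at hv
      obtain ⟨i, hi, hvi⟩ := hv
      rw [mem_union]
      by_cases hvf : v = f i
      · left
        rw [hvf]
        exact mem_image_of_mem f hi
      · right
        rw [mem_biUnion]
        exact ⟨i, hi, mem_erase.2 ⟨hvf, hvi⟩⟩

/-- A family of pairwise not dense sets of almost equal sizes can be coloured with about
`(#Q / r + 1) * m` colours. -/
theorem class_col (ε η β : ℝ) (hε : 0 < ε) (hη : 0 < η) (hη1 : η ≤ 1) (hβ : 0 < β) (r : ℕ)
    (hr : 1 ≤ r) (hrε : (r : ℝ) * ε ≤ β * η ^ r) (m t0 : ℕ) (ht0 : β * ((m : ℝ) + 1) ≤ t0) :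
    ∀ (k : ℕ) (Q : Finset (Finset V)), Q.card ≤ k * r →
      (∀ A ∈ Q, m ≤ A.card) → (∀ A ∈ Q, A.card ≤ m + 1) →
      (∀ A ∈ Q, ∀ B ∈ Q, A ≠ B → NotDense G ε η A B) →
      Col G (Q.biUnion id) r (k * (m + r * t0 + r)) := by
  intro k
  induction k with
  | zero =>
    intro Q hQ _ _ _
    have : Q = ∅ := by
      rw [← card_eq_zero]
      omega
    rw [this]
    simpa using Col.empty _ _
  | succ k ih =>
    intro Q hQ hm hm1 hND
    -- choose a piece
    obtain ⟨Q', hQ'Q, hQ'card, hrest⟩ : ∃ Q' ⊆ Q, Q'.card ≤ r ∧ (Q \ Q').card ≤ k * r := by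
      by_cases hle : Q.card ≤ r
      · exact ⟨Q, subset_refl _, hle, by simp⟩
      · obtain ⟨Q', h1, h2⟩ := exists_subset_card_eq (show r ≤ Q.card by omega)
        refine ⟨Q', h1, h2.le, ?_⟩
        rw [card_sdiff_of_subset h1, h2]
        have : (k + 1) * r = k * r + r := by ring
        omega
    have hpiece : Col G (Q'.biUnion id) r (m + r * t0 + r) := by
      rcases Q'.eq_empty_or_nonempty with rfl | hne
      · simpa using Col.empty _ _
      · have hsub : ∀ A : Finset V, ∃ B : Finset V, A ∈ Q' → B ⊆ A ∧ B.card = m := by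
          intro A
          by_cases hA : A ∈ Q'
          · obtain ⟨B, hB1, hB2⟩ := exists_subset_card_eq (hm A (hQ'Q hA))
            exact ⟨B, fun _ => ⟨hB1, hB2⟩⟩
          · exact ⟨∅, fun h => absurd h hA⟩
        choose B hB using hsub
        have hQ'pos : 1 ≤ Q'.card := hne.card_pos
        have hcond : (Q'.card : ℝ) * ε ≤ β * η ^ Q'.card := by
          have h1 : (Q'.card : ℝ) * ε ≤ (r : ℝ) * ε :=
            mul_le_mul_of_nonneg_right (by exact_mod_cast hQ'card) hε.le
          have h2 : η ^ r ≤ η ^ Q'.card := pow_le_pow_of_le_one hη.le hη1 hQ'card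
          have h3 : β * η ^ r ≤ β * η ^ Q'.card := mul_le_mul_of_nonneg_left h2 hβ.le
          linarith
        have h1 := packing (G := G) (fun A : Finset V => A) ε η β hε hη hη1 hβ Q' hne hcond
          (fun A hA A' hA' hne' => hND A (hQ'Q hA) A' (hQ'Q hA') hne') t0
          (fun A hA => by
            refine le_trans ?_ ht0
            apply mul_le_mul_of_nonneg_left _ hβ.le
            exact_mod_cast hm1 A (hQ'Q hA)) m B
          (fun A hA => (hB A hA).1) (fun A hA => (hB A hA).2)
        have h2 : Col G (Q'.biUnion (fun A => A \ B A)) r r := by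
          apply Col.of_card_le hr
          refine le_trans card_biUnion_le ?_
          refine le_trans (sum_le_card_nsmul _ _ 1 ?_) ?_
          · intro A hA
            rw [card_sdiff_of_subset (hB A hA).1, (hB A hA).2]
            have := hm1 A (hQ'Q hA)
            omega
          · simpa using hQ'card
        have h3 := (h1.mono (subset_refl _) hQ'card le_rfl).union h2
        refine h3.mono ?_ le_rfl ?_
        · intro v hv
          rw [mem_biUnion] at hv
          obtain ⟨A, hA, hvA⟩ := hv
          rw [mem_union, mem_biUnion, mem_biUnion]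
          by_cases hvB : v ∈ B A
          · exact Or.inl ⟨A, hA, hvB⟩
          · exact Or.inr ⟨A, hA, mem_sdiff.2 ⟨hvA, hvB⟩⟩
        · have := Nat.mul_le_mul_right t0 hQ'card
          omega
    have hih := ih (Q \ Q') hrest (fun A hA => hm A (mem_sdiff.1 hA).1)
      (fun A hA => hm1 A (mem_sdiff.1 hA).1)
      (fun A hA B hB => hND A (mem_sdiff.1 hA).1 B (mem_sdiff.1 hB).1)
    refine (hpiece.union hih).mono ?_ le_rfl ?_
    · intro v hv
      rw [mem_biUnion] at hv
      obtain ⟨A, hA, hvA⟩ := hv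
      rw [mem_union, mem_biUnion, mem_biUnion]
      by_cases hAQ' : A ∈ Q'
      · exact Or.inl ⟨A, hAQ', hvA⟩
      · exact Or.inr ⟨A, mem_sdiff.2 ⟨hA, hAQ'⟩, hvA⟩
    · have : (k + 1) * (m + r * t0 + r) = k * (m + r * t0 + r) + (m + r * t0 + r) := by ring
      omega

end Pool.Agent.Lib_helper8.Vu
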